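import Mathlib.Tactic
import Mathlib.Data.Nat.Digits.Lemmas
import Mathlib.Data.Nat.Bitwise

/-!
# Antipalindromic numbers in base 3: generalized antipalindromes and bit sets
-/

set_option autoImplicit false

namespace Pool.Agent.Q54.AP

/-- `n` is antipalindromic in base 3. -/
def Antipal (n : ℕ) : Prop :=
  0 < n ∧ ∀ i < (Nat.digits 3 n).length,
    (Nat.digits 3 n).getD i 0 + (Nat.digits 3 n).getD ((Nat.digits 3 n).length - 1 - i) 0 = 2

/-- Generalized antipalindromes with `L` digits (leading zeros allowed). -/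
inductive G : ℕ → ℕ → Prop
  | zero : G 0 0
  | one : G 1 1
  | step (L v t : ℕ) (ht : t ≤ 2) (h : G L v) : G (L + 2) (t + 3 * v + (2 - t) * 3 ^ (L + 1))

theorem G.digits {L v : ℕ} (h : G L v) : ∃ l : List ℕ, l.length = L ∧ (∀ x ∈ l, x ≤ 2) ∧
    l.map (fun x => 2 - x) = l.reverse ∧ Nat.ofDigits 3 l = v := by
  induction h with
  | zero => exact ⟨[], rfl, by simp, rfl, rfl⟩
  | one => exact ⟨[1], rfl, by simp, rfl, by simp⟩
  | step L v t ht h ih =>
    obtain ⟨l, h1, h2, h3, h4⟩ := ih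
    refine ⟨t :: (l ++ [2 - t]), by simp [h1], ?_, ?_, ?_⟩
    · intro x hx
      simp only [List.mem_cons, List.mem_append, List.not_mem_nil, or_false] at hx
      rcases hx with hx | hx | hx
      · omega
      · exact h2 x hx
      · omega
    · simp only [List.map_cons, List.map_append, List.map_nil, List.reverse_cons, List.reverse_append,
        List.reverse_nil, List.nil_append, List.cons_append, h3]
      congr 2
      congr 1
      omega
    · rw [Nat.ofDigits_cons, Nat.ofDigits_append, h4, h1, Nat.ofDigits_singleton, pow_succ]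
      ring

theorem G.parity {L v : ℕ} (h : G L v) : v % 2 = L % 2 := by
  induction h with
  | zero => rfl
  | one => rfl
  | step L v t ht h ih =>
    have h3 : 3 ^ (L + 1) % 2 = 1 := by
      rw [Nat.pow_mod]
      simp
    obtain ⟨k, hk⟩ : ∃ k, 3 ^ (L + 1) = 2 * k + 1 := ⟨3 ^ (L + 1) / 2, by omega⟩
    rw [hk]
    interval_cases t <;> omega

theorem antipal_list {l : List ℕ} (h2 : ∀ x ∈ l, x ≤ 2) (h3 : l.map (fun x => 2 - x) = l.reverse)
    (hne : l ≠ []) (hl : l.getLast hne ≠ 0) : Antipal (Nat.ofDigits 3 l) := by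
  have hd : Nat.digits 3 (Nat.ofDigits 3 l) = l := by
    apply Nat.digits_ofDigits 3 (by norm_num) l
    · intro x hx
      have := h2 x hx
      omega
    · intro _
      exact hl
  constructor
  · rcases Nat.eq_zero_or_pos (Nat.ofDigits 3 l) with h | h
    · rw [h] at hd
      simp at hd
      exact absurd hd.symm (fun h => hne (by simpa using h.symm))
    · exact h
  · rw [hd]
    intro i hi
    have h4 : (l.map (fun x => 2 - x)).getD i 0 = l.reverse.getD i 0 := by rw [h3]
    have hi' : l.length - 1 - i < l.length := by omega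
    rw [List.getD_eq_getElem _ _ (by simpa using hi), List.getD_eq_getElem _ _ (by simpa using hi),
      List.getElem_map, List.getElem_reverse] at h4
    rw [List.getD_eq_getElem _ _ hi, List.getD_eq_getElem _ _ hi']
    have := h2 _ (List.getElem_mem hi)
    omega

theorem antipal_top {L v t : ℕ} (ht : t ≤ 1) (h : G L v) :
    Antipal (t + 3 * v + (2 - t) * 3 ^ (L + 1)) := by
  obtain ⟨l, h1, h2, h3, h4⟩ := (G.step L v t (by omega) h).digits
  have hne : l ≠ [] := by
    intro hc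
    rw [hc] at h1
    simp at h1
  rw [← h4]
  refine antipal_list h2 h3 hne ?_
  intro hc
  -- the value would be too small
  have h5 : l = l.dropLast ++ [0] := by
    conv_lhs => rw [← List.dropLast_append_getLast hne]
    rw [hc]
  have h6 : Nat.ofDigits 3 l = Nat.ofDigits 3 l.dropLast := by
    conv_lhs => rw [h5]
    rw [Nat.ofDigits_append]
    simp
  have h7 : Nat.ofDigits 3 l.dropLast < 3 ^ l.dropLast.length := by
    apply Nat.ofDigits_lt_base_pow_length (by norm_num)
    intro x hx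
    have := h2 x (List.dropLast_subset _ hx)
    omega
  have h8 : l.dropLast.length = L + 1 := by
    rw [List.length_dropLast, h1]
    rfl
  rw [h8, ← h6, h4] at h7
  have : 1 * 3 ^ (L + 1) ≤ (2 - t) * 3 ^ (L + 1) := Nat.mul_le_mul_right _ (by omega)
  omega

theorem antipal_one : Antipal 1 := by
  refine ⟨by norm_num, ?_⟩
  simp

/-- sums of three generalized antipalindromes of lengths `a`, `b`, `c` -/
def P (a b c X : ℕ) : Prop := ∃ u v w, G a u ∧ G b v ∧ G c w ∧ X = u + v + w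

/-- sums of at most three antipalindromic numbers -/
def Sum3 (N : ℕ) : Prop :=
  Antipal N ∨ (∃ a b, Antipal a ∧ Antipal b ∧ N = a + b) ∨
    ∃ a b c, Antipal a ∧ Antipal b ∧ Antipal c ∧ N = a + b + c

/-- all `X` of the right parity between `p Q` and `r Q` are in `P a b c` -/
def I (a b c p r Q : ℕ) : Prop :=
  ∀ X, X % 2 = (a + b + c) % 2 → p * Q ≤ X → X ≤ r * Q → P a b c X

theorem go {a b c Q p r X : ℕ} (hI : I a b c p r Q) {A B C : ℕ} (hA : 3 ^ (a + 1) = A * Q)
    (hB : 3 ^ (b + 1) = B * Q) (hC : 3 ^ (c + 1) = C * Q) (h1 h2 h3 : ℕ) (b1 : h1 ≤ 2) (b2 : h2 ≤ 2)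
    (b3 : h3 ≤ 2) (X' : ℕ)
    (hX : X = (2 - h1) + (2 - h2) + (2 - h3) + 3 * X' + (h1 * A + h2 * B + h3 * C) * Q)
    (hp : X' % 2 = (a + b + c) % 2) (hl : p * Q ≤ X') (hh : X' ≤ r * Q) :
    P (a + 2) (b + 2) (c + 2) X := by
  obtain ⟨u, v, w, hu, hv, hw, hs⟩ := hI X' hp hl hh
  refine ⟨_, _, _, G.step a u (2 - h1) (by omega) hu, G.step b v (2 - h2) (by omega) hv,
    G.step c w (2 - h3) (by omega) hw, ?_⟩
  rw [hX, hs, hA, hB, hC]
  have e1 : 2 - (2 - h1) = h1 := by omega
  have e2 : 2 - (2 - h2) = h2 := by omega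
  have e3 : 2 - (2 - h3) = h3 := by omega
  rw [e1, e2, e3]
  ring

theorem top {a b c Q p r X : ℕ} (hI : I a b c p r Q) {A B C : ℕ} (hA : 3 ^ (a + 1) = A * Q)
    (hB : 3 ^ (b + 1) = B * Q) (hC : 3 ^ (c + 1) = C * Q) (h1 h2 h3 : ℕ) (a1 : 1 ≤ h1) (a2 : 1 ≤ h2)
    (a3 : 1 ≤ h3) (b1 : h1 ≤ 2) (b2 : h2 ≤ 2)
    (b3 : h3 ≤ 2) (X' : ℕ)
    (hX : X = (2 - h1) + (2 - h2) + (2 - h3) + 3 * X' + (h1 * A + h2 * B + h3 * C) * Q)
    (hp : X' % 2 = (a + b + c) % 2) (hl : p * Q ≤ X') (hh : X' ≤ r * Q) :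
    Sum3 X := by
  obtain ⟨u, v, w, hu, hv, hw, hs⟩ := hI X' hp hl hh
  right; right
  refine ⟨_, _, _, antipal_top (t := 2 - h1) (by omega) hu, antipal_top (t := 2 - h2) (by omega) hv,
    antipal_top (t := 2 - h3) (by omega) hw, ?_⟩
  rw [hX, hs, hA, hB, hC]
  have e1 : 2 - (2 - h1) = h1 := by omega
  have e2 : 2 - (2 - h2) = h2 := by omega
  have e3 : 2 - (2 - h3) = h3 := by omega
  rw [e1, e2, e3]
  ring

/-! ### bit sets -/

/-- the union of the shifts of the bit set `s` by `m v + k`, `v` a generalized antipalindrome with `L`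
digits -/
def S (s : ℕ) : ℕ → ℕ → ℕ → ℕ
  | 0, _, k => s <<< k
  | 1, m, k => s <<< (m + k)
  | L + 2, m, k => S s L (3 * m) (k + m * (2 * 3 ^ (L + 1))) |||
      (S s L (3 * m) (k + m * (1 + 3 ^ (L + 1))) ||| S s L (3 * m) (k + m * 2))

theorem S_testBit (s : ℕ) : ∀ (L m k X : ℕ), (S s L m k).testBit X = true →
    ∃ v, G L v ∧ m * v + k ≤ X ∧ s.testBit (X - (m * v + k)) = true := by
  intro L
  induction L using Nat.twoStepInduction with
  | zero =>
    intro m k X h
    rw [S, Nat.testBit_shiftLeft] at h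
    simp only [ge_iff_le, Bool.and_eq_true, decide_eq_true_eq] at h
    exact ⟨0, G.zero, by omega, by simpa using h.2⟩
  | one =>
    intro m k X h
    rw [S, Nat.testBit_shiftLeft] at h
    simp only [ge_iff_le, Bool.and_eq_true, decide_eq_true_eq] at h
    exact ⟨1, G.one, by omega, by simpa using h.2⟩
  | more L ih _ =>
    intro m k X h
    rw [S, Nat.testBit_or, Nat.testBit_or, Bool.or_eq_true, Bool.or_eq_true] at h
    rcases h with h | h | h
    · obtain ⟨v, hv, h1, h2⟩ := ih _ _ _ h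
      have e : m * (0 + 3 * v + (2 - 0) * 3 ^ (L + 1)) + k = 3 * m * v + (k + m * (2 * 3 ^ (L + 1))) := by
        simp only [Nat.sub_zero]
        ring
      refine ⟨_, G.step L v 0 (by omega) hv, ?_, ?_⟩
      · rw [e]; exact h1
      · rw [e]; exact h2
    · obtain ⟨v, hv, h1, h2⟩ := ih _ _ _ h
      have e : m * (1 + 3 * v + (2 - 1) * 3 ^ (L + 1)) + k = 3 * m * v + (k + m * (1 + 3 ^ (L + 1))) := by
        norm_num
        ring
      refine ⟨_, G.step L v 1 (by omega) hv, ?_, ?_⟩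
      · rw [e]; exact h1
      · rw [e]; exact h2
    · obtain ⟨v, hv, h1, h2⟩ := ih _ _ _ h
      have e : m * (2 + 3 * v + (2 - 2) * 3 ^ (L + 1)) + k = 3 * m * v + (k + m * 2) := by
        norm_num
        ring
      refine ⟨_, G.step L v 2 (by omega) hv, ?_, ?_⟩
      · rw [e]; exact h1
      · rw [e]; exact h2

/-- the pattern `…010101` with `k` ones -/
def pat (k : ℕ) : ℕ := (4 ^ k - 1) / 3

theorem pat_succ (k : ℕ) : pat (k + 1) = 4 * pat k + 1 := by
  unfold pat
  have h : 4 ^ k % 3 = 1 := by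
    rw [Nat.pow_mod]
    simp
  have h1 : 1 ≤ 4 ^ k := Nat.one_le_pow _ _ (by norm_num)
  rw [pow_succ]
  omega

theorem pat_testBit : ∀ (k i : ℕ), i < k → (pat k).testBit (2 * i) = true := by
  intro k
  induction k with
  | zero => intro i hi; omega
  | succ k ih =>
    intro i hi
    rw [pat_succ]
    rcases Nat.eq_zero_or_pos i with rfl | hi0
    · simp [Nat.testBit_zero]
      omega
    · obtain ⟨j, rfl⟩ : ∃ j, i = j + 1 := ⟨i - 1, by omega⟩
      have h1 := ih j (by omega)
      rw [show 2 * (j + 1) = 2 * j + 1 + 1 by ring, Nat.testBit_succ, Nat.testBit_succ,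
        show (4 * pat k + 1) / 2 / 2 = pat k by omega]
      exact h1

/-- the check of the base case -/
def base (a b c lo k : ℕ) : Bool :=
  Nat.beq (S (S (S 1 c 1 0) b 1 0) a 1 0 &&& (pat k <<< lo)) (pat k <<< lo)

theorem base_P {a b c lo k : ℕ} (h : base a b c lo k = true) (i : ℕ) (hi : i < k) :
    P a b c (lo + 2 * i) := by
  have h1 := Nat.eq_of_beq_eq_true h
  have h2 : (pat k <<< lo).testBit (lo + 2 * i) = true := by
    rw [Nat.testBit_shiftLeft]
    simp only [ge_iff_le, Nat.le_add_right, decide_true, Bool.true_and]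
    rw [Nat.add_sub_cancel_left]
    exact pat_testBit k i hi
  rw [← h1, Nat.testBit_and, Bool.and_eq_true] at h2
  obtain ⟨u, hu, h3, h4⟩ := S_testBit _ _ _ _ _ h2.1
  obtain ⟨v, hv, h5, h6⟩ := S_testBit _ _ _ _ _ h4
  obtain ⟨w, hw, h7, h8⟩ := S_testBit _ _ _ _ _ h6
  refine ⟨u, v, w, hu, hv, hw, ?_⟩
  have h9 : lo + 2 * i - (1 * u + 0) - (1 * v + 0) - (1 * w + 0) = 0 := by
    by_contra hc
    obtain ⟨m, hm⟩ := Nat.exists_eq_succ_of_ne_zero hc
    rw [hm, Nat.testBit_succ] at h8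
    simp at h8
  omega

theorem base_I {a b c p r Q lo k : ℕ} (h : base a b c lo k = true) (hlo : lo ≤ p * Q + 1)
    (hlo2 : lo % 2 = (a + b + c) % 2) (hk : r * Q < lo + 2 * k) : I a b c p r Q := by
  intro X h1 h2 h3
  rcases Nat.lt_or_ge X lo with h4 | h4
  · omega
  · have h5 : lo + 2 * ((X - lo) / 2) = X := by omega
    have := base_P h ((X - lo) / 2) (by omega)
    rwa [h5] at this

end Pool.Agent.Q54.AP
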