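import Pool.Agent.Q54.AP1

/-!
# Base cases (lengths 12 and 13), checked by the kernel with bit sets
-/

set_option autoImplicit false

namespace Pool.Agent.Q54.AP

theorem base_013_12 : base 12 11 9 25516 338985 = true := by decide +kernel

theorem I013_12 : I 12 11 9 35 965 729 :=
  base_I base_013_12 (by norm_num) (by norm_num) (by norm_num)

theorem base_013_13 : base 13 12 10 76545 1016956 = true := by decide +kernel

theorem I013_13 : I 13 12 10 35 965 2187 :=
  base_I base_013_13 (by norm_num) (by norm_num) (by norm_num)

theorem base_023_12 : base 12 10 9 21141 283946 = true := by decide +kernel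

theorem I023_12 : I 12 10 9 29 808 729 :=
  base_I base_023_12 (by norm_num) (by norm_num) (by norm_num)

theorem base_023_13 : base 13 11 10 63424 851837 = true := by decide +kernel

theorem I023_13 : I 13 11 10 29 808 2187 :=
  base_I base_023_13 (by norm_num) (by norm_num) (by norm_num)

theorem base_034_12 : base 12 9 8 9477 269366 = true := by decide +kernel

theorem I034_12 : I 12 9 8 13 752 729 :=
  base_I base_034_12 (by norm_num) (by norm_num) (by norm_num)

theorem base_034_13 : base 13 10 9 28432 808097 = true := by decide +kernel

theorem I034_13 : I 13 10 9 13 752 2187 :=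
  base_I base_034_13 (by norm_num) (by norm_num) (by norm_num)

theorem base_035_12 : base 12 9 7 10936 265721 = true := by decide +kernel

theorem I035_12 : I 12 9 7 15 744 729 :=
  base_I base_035_12 (by norm_num) (by norm_num) (by norm_num)

theorem base_035_13 : base 13 10 8 32805 797162 = true := by decide +kernel

theorem I035_13 : I 13 10 8 15 744 2187 :=
  base_I base_035_13 (by norm_num) (by norm_num) (by norm_num)

end Pool.Agent.Q54.AP
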