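import Pool.Agent.Q54.AP2

/-!
# The induction and the top level
-/

set_option autoImplicit false

namespace Pool.Agent.Q54.AP

theorem step_013 {a b c Q : ℕ} (hA : 3 ^ (a + 1) = 2187 * Q) (hB : 3 ^ (b + 1) = 729 * Q)
    (hC : 3 ^ (c + 1) = 81 * Q) (_hQ : 6 ≤ Q) (hQ2 : Q % 2 = 1) (h : I a b c 35 965 Q) :
    I (a + 2) (b + 2) (c + 2) 35 965 (9 * Q) := by
  intro X hpar hlo hhi
  have hpar2 : X % 2 = (a + b + c) % 2 := by omega
  have h3 : X % 3 = 0 ∨ X % 3 = 1 ∨ X % 3 = 2 := by omega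
  rcases h3 with h3 | h3 | h3
  · -- residue 0
    rcases Nat.lt_or_ge (2895 * Q + 6) X with hc | hc
    swap
    · obtain ⟨X', hX'⟩ : ∃ X', X = 6 + 3 * X' + 0 * Q := ⟨(X - 6 - 0 * Q) / 3, by omega⟩
      exact go h hA hB hC 0 0 0 (by norm_num) (by norm_num) (by norm_num) X' (by omega) (by omega) (by omega) (by omega)
    rcases Nat.lt_or_ge (5244 * Q + 3) X with hc | hc
    swap
    · obtain ⟨X', hX'⟩ : ∃ X', X = 3 + 3 * X' + 2349 * Q := ⟨(X - 3 - 2349 * Q) / 3, by omega⟩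
      exact go h hA hB hC 1 0 2 (by norm_num) (by norm_num) (by norm_num) X' (by omega) (by omega) (by omega) (by omega)
    rcases Nat.lt_or_ge (7998 * Q + 3) X with hc | hc
    swap
    · obtain ⟨X', hX'⟩ : ∃ X', X = 3 + 3 * X' + 5103 * Q := ⟨(X - 3 - 5103 * Q) / 3, by omega⟩
      exact go h hA hB hC 2 1 0 (by norm_num) (by norm_num) (by norm_num) X' (by omega) (by omega) (by omega) (by omega)
    obtain ⟨X', hX'⟩ : ∃ X', X = 0 + 3 * X' + 5994 * Q := ⟨(X - 0 - 5994 * Q) / 3, by omega⟩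
    exact go h hA hB hC 2 2 2 (by norm_num) (by norm_num) (by norm_num) X' (by omega) (by omega) (by omega) (by omega)
  · -- residue 1
    rcases Nat.lt_or_ge (3057 * Q + 4) X with hc | hc
    swap
    · obtain ⟨X', hX'⟩ : ∃ X', X = 4 + 3 * X' + 162 * Q := ⟨(X - 4 - 162 * Q) / 3, by omega⟩
      exact go h hA hB hC 0 0 2 (by norm_num) (by norm_num) (by norm_num) X' (by omega) (by omega) (by omega) (by omega)
    rcases Nat.lt_or_ge (5811 * Q + 4) X with hc | hc
    swap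
    · obtain ⟨X', hX'⟩ : ∃ X', X = 4 + 3 * X' + 2916 * Q := ⟨(X - 4 - 2916 * Q) / 3, by omega⟩
      exact go h hA hB hC 1 1 0 (by norm_num) (by norm_num) (by norm_num) X' (by omega) (by omega) (by omega) (by omega)
    rcases Nat.lt_or_ge (8160 * Q + 1) X with hc | hc
    swap
    · obtain ⟨X', hX'⟩ : ∃ X', X = 1 + 3 * X' + 5265 * Q := ⟨(X - 1 - 5265 * Q) / 3, by omega⟩
      exact go h hA hB hC 2 1 2 (by norm_num) (by norm_num) (by norm_num) X' (by omega) (by omega) (by omega) (by omega)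
    obtain ⟨X', hX'⟩ : ∃ X', X = 1 + 3 * X' + 5913 * Q := ⟨(X - 1 - 5913 * Q) / 3, by omega⟩
    exact go h hA hB hC 2 2 1 (by norm_num) (by norm_num) (by norm_num) X' (by omega) (by omega) (by omega) (by omega)
  · -- residue 2
    rcases Nat.lt_or_ge (2976 * Q + 5) X with hc | hc
    swap
    · obtain ⟨X', hX'⟩ : ∃ X', X = 5 + 3 * X' + 81 * Q := ⟨(X - 5 - 81 * Q) / 3, by omega⟩
      exact go h hA hB hC 0 0 1 (by norm_num) (by norm_num) (by norm_num) X' (by omega) (by omega) (by omega) (by omega)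
    rcases Nat.lt_or_ge (5082 * Q + 5) X with hc | hc
    swap
    · obtain ⟨X', hX'⟩ : ∃ X', X = 5 + 3 * X' + 2187 * Q := ⟨(X - 5 - 2187 * Q) / 3, by omega⟩
      exact go h hA hB hC 1 0 0 (by norm_num) (by norm_num) (by norm_num) X' (by omega) (by omega) (by omega) (by omega)
    rcases Nat.lt_or_ge (7431 * Q + 2) X with hc | hc
    swap
    · obtain ⟨X', hX'⟩ : ∃ X', X = 2 + 3 * X' + 4536 * Q := ⟨(X - 2 - 4536 * Q) / 3, by omega⟩
      exact go h hA hB hC 2 0 2 (by norm_num) (by norm_num) (by norm_num) X' (by omega) (by omega) (by omega) (by omega)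
    obtain ⟨X', hX'⟩ : ∃ X', X = 2 + 3 * X' + 5832 * Q := ⟨(X - 2 - 5832 * Q) / 3, by omega⟩
    exact go h hA hB hC 2 2 0 (by norm_num) (by norm_num) (by norm_num) X' (by omega) (by omega) (by omega) (by omega)

theorem step_023 {a b c Q : ℕ} (hA : 3 ^ (a + 1) = 2187 * Q) (hB : 3 ^ (b + 1) = 243 * Q)
    (hC : 3 ^ (c + 1) = 81 * Q) (_hQ : 6 ≤ Q) (hQ2 : Q % 2 = 1) (h : I a b c 29 808 Q) :
    I (a + 2) (b + 2) (c + 2) 29 808 (9 * Q) := by
  intro X hpar hlo hhi
  have hpar2 : X % 2 = (a + b + c) % 2 := by omega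
  have h3 : X % 3 = 0 ∨ X % 3 = 1 ∨ X % 3 = 2 := by omega
  rcases h3 with h3 | h3 | h3
  · -- residue 0
    rcases Nat.lt_or_ge (2424 * Q + 6) X with hc | hc
    swap
    · obtain ⟨X', hX'⟩ : ∃ X', X = 6 + 3 * X' + 0 * Q := ⟨(X - 6 - 0 * Q) / 3, by omega⟩
      exact go h hA hB hC 0 0 0 (by norm_num) (by norm_num) (by norm_num) X' (by omega) (by omega) (by omega) (by omega)
    rcases Nat.lt_or_ge (2991 * Q + 3) X with hc | hc
    swap
    · obtain ⟨X', hX'⟩ : ∃ X', X = 3 + 3 * X' + 567 * Q := ⟨(X - 3 - 567 * Q) / 3, by omega⟩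
      exact go h hA hB hC 0 2 1 (by norm_num) (by norm_num) (by norm_num) X' (by omega) (by omega) (by omega) (by omega)
    rcases Nat.lt_or_ge (5097 * Q + 3) X with hc | hc
    swap
    · obtain ⟨X', hX'⟩ : ∃ X', X = 3 + 3 * X' + 2673 * Q := ⟨(X - 3 - 2673 * Q) / 3, by omega⟩
      exact go h hA hB hC 1 2 0 (by norm_num) (by norm_num) (by norm_num) X' (by omega) (by omega) (by omega) (by omega)
    rcases Nat.lt_or_ge (7041 * Q + 3) X with hc | hc
    swap
    · obtain ⟨X', hX'⟩ : ∃ X', X = 3 + 3 * X' + 4617 * Q := ⟨(X - 3 - 4617 * Q) / 3, by omega⟩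
      exact go h hA hB hC 2 1 0 (by norm_num) (by norm_num) (by norm_num) X' (by omega) (by omega) (by omega) (by omega)
    obtain ⟨X', hX'⟩ : ∃ X', X = 0 + 3 * X' + 5022 * Q := ⟨(X - 0 - 5022 * Q) / 3, by omega⟩
    exact go h hA hB hC 2 2 2 (by norm_num) (by norm_num) (by norm_num) X' (by omega) (by omega) (by omega) (by omega)
  · -- residue 1
    rcases Nat.lt_or_ge (2586 * Q + 4) X with hc | hc
    swap
    · obtain ⟨X', hX'⟩ : ∃ X', X = 4 + 3 * X' + 162 * Q := ⟨(X - 4 - 162 * Q) / 3, by omega⟩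
      exact go h hA hB hC 0 0 2 (by norm_num) (by norm_num) (by norm_num) X' (by omega) (by omega) (by omega) (by omega)
    rcases Nat.lt_or_ge (4854 * Q + 4) X with hc | hc
    swap
    · obtain ⟨X', hX'⟩ : ∃ X', X = 4 + 3 * X' + 2430 * Q := ⟨(X - 4 - 2430 * Q) / 3, by omega⟩
      exact go h hA hB hC 1 1 0 (by norm_num) (by norm_num) (by norm_num) X' (by omega) (by omega) (by omega) (by omega)
    rcases Nat.lt_or_ge (6798 * Q + 4) X with hc | hc
    swap
    · obtain ⟨X', hX'⟩ : ∃ X', X = 4 + 3 * X' + 4374 * Q := ⟨(X - 4 - 4374 * Q) / 3, by omega⟩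
      exact go h hA hB hC 2 0 0 (by norm_num) (by norm_num) (by norm_num) X' (by omega) (by omega) (by omega) (by omega)
    obtain ⟨X', hX'⟩ : ∃ X', X = 1 + 3 * X' + 4941 * Q := ⟨(X - 1 - 4941 * Q) / 3, by omega⟩
    exact go h hA hB hC 2 2 1 (by norm_num) (by norm_num) (by norm_num) X' (by omega) (by omega) (by omega) (by omega)
  · -- residue 2
    rcases Nat.lt_or_ge (2505 * Q + 5) X with hc | hc
    swap
    · obtain ⟨X', hX'⟩ : ∃ X', X = 5 + 3 * X' + 81 * Q := ⟨(X - 5 - 81 * Q) / 3, by omega⟩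
      exact go h hA hB hC 0 0 1 (by norm_num) (by norm_num) (by norm_num) X' (by omega) (by omega) (by omega) (by omega)
    rcases Nat.lt_or_ge (4611 * Q + 5) X with hc | hc
    swap
    · obtain ⟨X', hX'⟩ : ∃ X', X = 5 + 3 * X' + 2187 * Q := ⟨(X - 5 - 2187 * Q) / 3, by omega⟩
      exact go h hA hB hC 1 0 0 (by norm_num) (by norm_num) (by norm_num) X' (by omega) (by omega) (by omega) (by omega)
    rcases Nat.lt_or_ge (5178 * Q + 2) X with hc | hc
    swap
    · obtain ⟨X', hX'⟩ : ∃ X', X = 2 + 3 * X' + 2754 * Q := ⟨(X - 2 - 2754 * Q) / 3, by omega⟩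
      exact go h hA hB hC 1 2 1 (by norm_num) (by norm_num) (by norm_num) X' (by omega) (by omega) (by omega) (by omega)
    obtain ⟨X', hX'⟩ : ∃ X', X = 2 + 3 * X' + 4860 * Q := ⟨(X - 2 - 4860 * Q) / 3, by omega⟩
    exact go h hA hB hC 2 2 0 (by norm_num) (by norm_num) (by norm_num) X' (by omega) (by omega) (by omega) (by omega)

theorem step_034 {a b c Q : ℕ} (hA : 3 ^ (a + 1) = 2187 * Q) (hB : 3 ^ (b + 1) = 81 * Q)
    (hC : 3 ^ (c + 1) = 27 * Q) (_hQ : 6 ≤ Q) (hQ2 : Q % 2 = 1) (h : I a b c 13 752 Q) :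
    I (a + 2) (b + 2) (c + 2) 13 752 (9 * Q) := by
  intro X hpar hlo hhi
  have hpar2 : X % 2 = (a + b + c) % 2 := by omega
  have h3 : X % 3 = 0 ∨ X % 3 = 1 ∨ X % 3 = 2 := by omega
  rcases h3 with h3 | h3 | h3
  · -- residue 0
    rcases Nat.lt_or_ge (2256 * Q + 6) X with hc | hc
    swap
    · obtain ⟨X', hX'⟩ : ∃ X', X = 6 + 3 * X' + 0 * Q := ⟨(X - 6 - 0 * Q) / 3, by omega⟩
      exact go h hA hB hC 0 0 0 (by norm_num) (by norm_num) (by norm_num) X' (by omega) (by omega) (by omega) (by omega)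
    rcases Nat.lt_or_ge (2445 * Q + 3) X with hc | hc
    swap
    · obtain ⟨X', hX'⟩ : ∃ X', X = 3 + 3 * X' + 189 * Q := ⟨(X - 3 - 189 * Q) / 3, by omega⟩
      exact go h hA hB hC 0 2 1 (by norm_num) (by norm_num) (by norm_num) X' (by omega) (by omega) (by omega) (by omega)
    rcases Nat.lt_or_ge (4605 * Q + 3) X with hc | hc
    swap
    · obtain ⟨X', hX'⟩ : ∃ X', X = 3 + 3 * X' + 2349 * Q := ⟨(X - 3 - 2349 * Q) / 3, by omega⟩
      exact go h hA hB hC 1 2 0 (by norm_num) (by norm_num) (by norm_num) X' (by omega) (by omega) (by omega) (by omega)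
    rcases Nat.lt_or_ge (6711 * Q + 3) X with hc | hc
    swap
    · obtain ⟨X', hX'⟩ : ∃ X', X = 3 + 3 * X' + 4455 * Q := ⟨(X - 3 - 4455 * Q) / 3, by omega⟩
      exact go h hA hB hC 2 1 0 (by norm_num) (by norm_num) (by norm_num) X' (by omega) (by omega) (by omega) (by omega)
    obtain ⟨X', hX'⟩ : ∃ X', X = 0 + 3 * X' + 4590 * Q := ⟨(X - 0 - 4590 * Q) / 3, by omega⟩
    exact go h hA hB hC 2 2 2 (by norm_num) (by norm_num) (by norm_num) X' (by omega) (by omega) (by omega) (by omega)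
  · -- residue 1
    rcases Nat.lt_or_ge (2310 * Q + 4) X with hc | hc
    swap
    · obtain ⟨X', hX'⟩ : ∃ X', X = 4 + 3 * X' + 54 * Q := ⟨(X - 4 - 54 * Q) / 3, by omega⟩
      exact go h hA hB hC 0 0 2 (by norm_num) (by norm_num) (by norm_num) X' (by omega) (by omega) (by omega) (by omega)
    rcases Nat.lt_or_ge (4524 * Q + 4) X with hc | hc
    swap
    · obtain ⟨X', hX'⟩ : ∃ X', X = 4 + 3 * X' + 2268 * Q := ⟨(X - 4 - 2268 * Q) / 3, by omega⟩
      exact go h hA hB hC 1 1 0 (by norm_num) (by norm_num) (by norm_num) X' (by omega) (by omega) (by omega) (by omega)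
    rcases Nat.lt_or_ge (6630 * Q + 4) X with hc | hc
    swap
    · obtain ⟨X', hX'⟩ : ∃ X', X = 4 + 3 * X' + 4374 * Q := ⟨(X - 4 - 4374 * Q) / 3, by omega⟩
      exact go h hA hB hC 2 0 0 (by norm_num) (by norm_num) (by norm_num) X' (by omega) (by omega) (by omega) (by omega)
    obtain ⟨X', hX'⟩ : ∃ X', X = 1 + 3 * X' + 4563 * Q := ⟨(X - 1 - 4563 * Q) / 3, by omega⟩
    exact go h hA hB hC 2 2 1 (by norm_num) (by norm_num) (by norm_num) X' (by omega) (by omega) (by omega) (by omega)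
  · -- residue 2
    rcases Nat.lt_or_ge (2283 * Q + 5) X with hc | hc
    swap
    · obtain ⟨X', hX'⟩ : ∃ X', X = 5 + 3 * X' + 27 * Q := ⟨(X - 5 - 27 * Q) / 3, by omega⟩
      exact go h hA hB hC 0 0 1 (by norm_num) (by norm_num) (by norm_num) X' (by omega) (by omega) (by omega) (by omega)
    rcases Nat.lt_or_ge (4443 * Q + 5) X with hc | hc
    swap
    · obtain ⟨X', hX'⟩ : ∃ X', X = 5 + 3 * X' + 2187 * Q := ⟨(X - 5 - 2187 * Q) / 3, by omega⟩
      exact go h hA hB hC 1 0 0 (by norm_num) (by norm_num) (by norm_num) X' (by omega) (by omega) (by omega) (by omega)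
    rcases Nat.lt_or_ge (4632 * Q + 2) X with hc | hc
    swap
    · obtain ⟨X', hX'⟩ : ∃ X', X = 2 + 3 * X' + 2376 * Q := ⟨(X - 2 - 2376 * Q) / 3, by omega⟩
      exact go h hA hB hC 1 2 1 (by norm_num) (by norm_num) (by norm_num) X' (by omega) (by omega) (by omega) (by omega)
    obtain ⟨X', hX'⟩ : ∃ X', X = 2 + 3 * X' + 4536 * Q := ⟨(X - 2 - 4536 * Q) / 3, by omega⟩
    exact go h hA hB hC 2 2 0 (by norm_num) (by norm_num) (by norm_num) X' (by omega) (by omega) (by omega) (by omega)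

theorem step_035 {a b c Q : ℕ} (hA : 3 ^ (a + 1) = 2187 * Q) (hB : 3 ^ (b + 1) = 81 * Q)
    (hC : 3 ^ (c + 1) = 9 * Q) (_hQ : 6 ≤ Q) (hQ2 : Q % 2 = 1) (h : I a b c 15 744 Q) :
    I (a + 2) (b + 2) (c + 2) 15 744 (9 * Q) := by
  intro X hpar hlo hhi
  have hpar2 : X % 2 = (a + b + c) % 2 := by omega
  have h3 : X % 3 = 0 ∨ X % 3 = 1 ∨ X % 3 = 2 := by omega
  rcases h3 with h3 | h3 | h3
  · -- residue 0
    rcases Nat.lt_or_ge (2232 * Q + 6) X with hc | hc
    swap
    · obtain ⟨X', hX'⟩ : ∃ X', X = 6 + 3 * X' + 0 * Q := ⟨(X - 6 - 0 * Q) / 3, by omega⟩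
      exact go h hA hB hC 0 0 0 (by norm_num) (by norm_num) (by norm_num) X' (by omega) (by omega) (by omega) (by omega)
    rcases Nat.lt_or_ge (2403 * Q + 3) X with hc | hc
    swap
    · obtain ⟨X', hX'⟩ : ∃ X', X = 3 + 3 * X' + 171 * Q := ⟨(X - 3 - 171 * Q) / 3, by omega⟩
      exact go h hA hB hC 0 2 1 (by norm_num) (by norm_num) (by norm_num) X' (by omega) (by omega) (by omega) (by omega)
    rcases Nat.lt_or_ge (4581 * Q + 3) X with hc | hc
    swap
    · obtain ⟨X', hX'⟩ : ∃ X', X = 3 + 3 * X' + 2349 * Q := ⟨(X - 3 - 2349 * Q) / 3, by omega⟩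
      exact go h hA hB hC 1 2 0 (by norm_num) (by norm_num) (by norm_num) X' (by omega) (by omega) (by omega) (by omega)
    rcases Nat.lt_or_ge (6687 * Q + 3) X with hc | hc
    swap
    · obtain ⟨X', hX'⟩ : ∃ X', X = 3 + 3 * X' + 4455 * Q := ⟨(X - 3 - 4455 * Q) / 3, by omega⟩
      exact go h hA hB hC 2 1 0 (by norm_num) (by norm_num) (by norm_num) X' (by omega) (by omega) (by omega) (by omega)
    obtain ⟨X', hX'⟩ : ∃ X', X = 0 + 3 * X' + 4554 * Q := ⟨(X - 0 - 4554 * Q) / 3, by omega⟩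
    exact go h hA hB hC 2 2 2 (by norm_num) (by norm_num) (by norm_num) X' (by omega) (by omega) (by omega) (by omega)
  · -- residue 1
    rcases Nat.lt_or_ge (2250 * Q + 4) X with hc | hc
    swap
    · obtain ⟨X', hX'⟩ : ∃ X', X = 4 + 3 * X' + 18 * Q := ⟨(X - 4 - 18 * Q) / 3, by omega⟩
      exact go h hA hB hC 0 0 2 (by norm_num) (by norm_num) (by norm_num) X' (by omega) (by omega) (by omega) (by omega)
    rcases Nat.lt_or_ge (4428 * Q + 4) X with hc | hc
    swap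
    · obtain ⟨X', hX'⟩ : ∃ X', X = 4 + 3 * X' + 2196 * Q := ⟨(X - 4 - 2196 * Q) / 3, by omega⟩
      exact go h hA hB hC 1 0 1 (by norm_num) (by norm_num) (by norm_num) X' (by omega) (by omega) (by omega) (by omega)
    rcases Nat.lt_or_ge (6606 * Q + 4) X with hc | hc
    swap
    · obtain ⟨X', hX'⟩ : ∃ X', X = 4 + 3 * X' + 4374 * Q := ⟨(X - 4 - 4374 * Q) / 3, by omega⟩
      exact go h hA hB hC 2 0 0 (by norm_num) (by norm_num) (by norm_num) X' (by omega) (by omega) (by omega) (by omega)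
    obtain ⟨X', hX'⟩ : ∃ X', X = 1 + 3 * X' + 4545 * Q := ⟨(X - 1 - 4545 * Q) / 3, by omega⟩
    exact go h hA hB hC 2 2 1 (by norm_num) (by norm_num) (by norm_num) X' (by omega) (by omega) (by omega) (by omega)
  · -- residue 2
    rcases Nat.lt_or_ge (2313 * Q + 5) X with hc | hc
    swap
    · obtain ⟨X', hX'⟩ : ∃ X', X = 5 + 3 * X' + 81 * Q := ⟨(X - 5 - 81 * Q) / 3, by omega⟩
      exact go h hA hB hC 0 1 0 (by norm_num) (by norm_num) (by norm_num) X' (by omega) (by omega) (by omega) (by omega)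
    rcases Nat.lt_or_ge (4419 * Q + 5) X with hc | hc
    swap
    · obtain ⟨X', hX'⟩ : ∃ X', X = 5 + 3 * X' + 2187 * Q := ⟨(X - 5 - 2187 * Q) / 3, by omega⟩
      exact go h hA hB hC 1 0 0 (by norm_num) (by norm_num) (by norm_num) X' (by omega) (by omega) (by omega) (by omega)
    rcases Nat.lt_or_ge (4590 * Q + 2) X with hc | hc
    swap
    · obtain ⟨X', hX'⟩ : ∃ X', X = 2 + 3 * X' + 2358 * Q := ⟨(X - 2 - 2358 * Q) / 3, by omega⟩
      exact go h hA hB hC 1 2 1 (by norm_num) (by norm_num) (by norm_num) X' (by omega) (by omega) (by omega) (by omega)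
    obtain ⟨X', hX'⟩ : ∃ X', X = 2 + 3 * X' + 4536 * Q := ⟨(X - 2 - 4536 * Q) / 3, by omega⟩
    exact go h hA hB hC 2 2 0 (by norm_num) (by norm_num) (by norm_num) X' (by omega) (by omega) (by omega) (by omega)

theorem all_013 : ∀ L : ℕ, 12 ≤ L → I L (L - 1) (L - 3) 35 965 (3 ^ (L - 6)) := by
  have key : ∀ k : ℕ, I (12 + k) (12 + k - 1) (12 + k - 3) 35 965 (3 ^ (12 + k - 6)) := by
    intro k
    induction k using Nat.twoStepInduction with
    | zero => exact I013_12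
    | one => exact I013_13
    | more k ih _ =>
      have e2 : 12 + (k + 2) - 1 = (12 + k - 1) + 2 := by omega
      have e3 : 12 + (k + 2) - 3 = (12 + k - 3) + 2 := by omega
      have e4 : 3 ^ (12 + (k + 2) - 6) = 9 * 3 ^ (12 + k - 6) := by
        rw [show 12 + (k + 2) - 6 = (12 + k - 6) + 2 by omega, pow_add]
        ring
      have e5 : 12 + (k + 2) = (12 + k) + 2 := by omega
      rw [e2, e3, e4, e5]
      apply step_013 _ _ _ _ _ ih
      · rw [show 12 + k + 1 = (12 + k - 6) + 7 by omega, pow_add]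
        ring
      · rw [show 12 + k - 1 + 1 = (12 + k - 6) + 6 by omega, pow_add]
        ring
      · rw [show 12 + k - 3 + 1 = (12 + k - 6) + 4 by omega, pow_add]
        ring
      · calc 6 ≤ 3 ^ 2 := by norm_num
          _ ≤ 3 ^ (12 + k - 6) := Nat.pow_le_pow_right (by norm_num) (by omega)
      · rw [Nat.pow_mod]
        simp
  intro L hL
  obtain ⟨k, rfl⟩ : ∃ k, L = 12 + k := ⟨L - 12, by omega⟩
  exact key k

theorem all_023 : ∀ L : ℕ, 12 ≤ L → I L (L - 2) (L - 3) 29 808 (3 ^ (L - 6)) := by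
  have key : ∀ k : ℕ, I (12 + k) (12 + k - 2) (12 + k - 3) 29 808 (3 ^ (12 + k - 6)) := by
    intro k
    induction k using Nat.twoStepInduction with
    | zero => exact I023_12
    | one => exact I023_13
    | more k ih _ =>
      have e2 : 12 + (k + 2) - 2 = (12 + k - 2) + 2 := by omega
      have e3 : 12 + (k + 2) - 3 = (12 + k - 3) + 2 := by omega
      have e4 : 3 ^ (12 + (k + 2) - 6) = 9 * 3 ^ (12 + k - 6) := by
        rw [show 12 + (k + 2) - 6 = (12 + k - 6) + 2 by omega, pow_add]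
        ring
      have e5 : 12 + (k + 2) = (12 + k) + 2 := by omega
      rw [e2, e3, e4, e5]
      apply step_023 _ _ _ _ _ ih
      · rw [show 12 + k + 1 = (12 + k - 6) + 7 by omega, pow_add]
        ring
      · rw [show 12 + k - 2 + 1 = (12 + k - 6) + 5 by omega, pow_add]
        ring
      · rw [show 12 + k - 3 + 1 = (12 + k - 6) + 4 by omega, pow_add]
        ring
      · calc 6 ≤ 3 ^ 2 := by norm_num
          _ ≤ 3 ^ (12 + k - 6) := Nat.pow_le_pow_right (by norm_num) (by omega)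
      · rw [Nat.pow_mod]
        simp
  intro L hL
  obtain ⟨k, rfl⟩ : ∃ k, L = 12 + k := ⟨L - 12, by omega⟩
  exact key k

theorem all_034 : ∀ L : ℕ, 12 ≤ L → I L (L - 3) (L - 4) 13 752 (3 ^ (L - 6)) := by
  have key : ∀ k : ℕ, I (12 + k) (12 + k - 3) (12 + k - 4) 13 752 (3 ^ (12 + k - 6)) := by
    intro k
    induction k using Nat.twoStepInduction with
    | zero => exact I034_12
    | one => exact I034_13
    | more k ih _ =>
      have e2 : 12 + (k + 2) - 3 = (12 + k - 3) + 2 := by omega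
      have e3 : 12 + (k + 2) - 4 = (12 + k - 4) + 2 := by omega
      have e4 : 3 ^ (12 + (k + 2) - 6) = 9 * 3 ^ (12 + k - 6) := by
        rw [show 12 + (k + 2) - 6 = (12 + k - 6) + 2 by omega, pow_add]
        ring
      have e5 : 12 + (k + 2) = (12 + k) + 2 := by omega
      rw [e2, e3, e4, e5]
      apply step_034 _ _ _ _ _ ih
      · rw [show 12 + k + 1 = (12 + k - 6) + 7 by omega, pow_add]
        ring
      · rw [show 12 + k - 3 + 1 = (12 + k - 6) + 4 by omega, pow_add]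
        ring
      · rw [show 12 + k - 4 + 1 = (12 + k - 6) + 3 by omega, pow_add]
        ring
      · calc 6 ≤ 3 ^ 2 := by norm_num
          _ ≤ 3 ^ (12 + k - 6) := Nat.pow_le_pow_right (by norm_num) (by omega)
      · rw [Nat.pow_mod]
        simp
  intro L hL
  obtain ⟨k, rfl⟩ : ∃ k, L = 12 + k := ⟨L - 12, by omega⟩
  exact key k

theorem all_035 : ∀ L : ℕ, 12 ≤ L → I L (L - 3) (L - 5) 15 744 (3 ^ (L - 6)) := by
  have key : ∀ k : ℕ, I (12 + k) (12 + k - 3) (12 + k - 5) 15 744 (3 ^ (12 + k - 6)) := by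
    intro k
    induction k using Nat.twoStepInduction with
    | zero => exact I035_12
    | one => exact I035_13
    | more k ih _ =>
      have e2 : 12 + (k + 2) - 3 = (12 + k - 3) + 2 := by omega
      have e3 : 12 + (k + 2) - 5 = (12 + k - 5) + 2 := by omega
      have e4 : 3 ^ (12 + (k + 2) - 6) = 9 * 3 ^ (12 + k - 6) := by
        rw [show 12 + (k + 2) - 6 = (12 + k - 6) + 2 by omega, pow_add]
        ring
      have e5 : 12 + (k + 2) = (12 + k) + 2 := by omega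
      rw [e2, e3, e4, e5]
      apply step_035 _ _ _ _ _ ih
      · rw [show 12 + k + 1 = (12 + k - 6) + 7 by omega, pow_add]
        ring
      · rw [show 12 + k - 3 + 1 = (12 + k - 6) + 4 by omega, pow_add]
        ring
      · rw [show 12 + k - 5 + 1 = (12 + k - 6) + 2 by omega, pow_add]
        ring
      · calc 6 ≤ 3 ^ 2 := by norm_num
          _ ≤ 3 ^ (12 + k - 6) := Nat.pow_le_pow_right (by norm_num) (by omega)
      · rw [Nat.pow_mod]
        simp
  intro L hL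
  obtain ⟨k, rfl⟩ : ∃ k, L = 12 + k := ⟨L - 12, by omega⟩
  exact key k

theorem top_even {M N T : ℕ} (hM : 14 ≤ M) (hT : T = 3 ^ (M - 8)) (h1 : 6561 * T ≤ N) (h2 : N < 19683 * T)
    (hp : N % 2 = (M + 1) % 2) : Sum3 N := by
  have hT2 : T % 2 = 1 := by
    rw [hT, Nat.pow_mod]
    simp
  have hT6 : 6 ≤ T := by
    rw [hT]
    calc 6 ≤ 3 ^ 2 := by norm_num
      _ ≤ 3 ^ (M - 8) := Nat.pow_le_pow_right (by norm_num) (by omega)
  have H0 : I (M - 1) (M - 1 - 3) (M - 1 - 5) 15 744 (3 * T) := by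
    have := all_035 (M - 1) (by omega)
    rwa [show M - 1 - 6 = (M - 8) + 1 by omega, pow_succ, mul_comm, ← hT] at this
  have A0 : 3 ^ (M - 1 + 1) = 2187 * (3 * T) := by
    rw [hT, show M - 1 + 1 = (M - 8) + 8 by omega, pow_add]
    ring
  have B0 : 3 ^ (M - 1 - 3 + 1) = 81 * (3 * T) := by
    rw [hT, show M - 1 - 3 + 1 = (M - 8) + 5 by omega, pow_add]
    ring
  have C0 : 3 ^ (M - 1 - 5 + 1) = 9 * (3 * T) := by
    rw [hT, show M - 1 - 5 + 1 = (M - 8) + 3 by omega, pow_add]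
    ring
  have H1 : I (M - 1) (M - 1 - 1) (M - 1 - 3) 35 965 (3 * T) := by
    have := all_013 (M - 1) (by omega)
    rwa [show M - 1 - 6 = (M - 8) + 1 by omega, pow_succ, mul_comm, ← hT] at this
  have A1 : 3 ^ (M - 1 + 1) = 2187 * (3 * T) := by
    rw [hT, show M - 1 + 1 = (M - 8) + 8 by omega, pow_add]
    ring
  have B1 : 3 ^ (M - 1 - 1 + 1) = 729 * (3 * T) := by
    rw [hT, show M - 1 - 1 + 1 = (M - 8) + 7 by omega, pow_add]
    ring
  have C1 : 3 ^ (M - 1 - 3 + 1) = 81 * (3 * T) := by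
    rw [hT, show M - 1 - 3 + 1 = (M - 8) + 5 by omega, pow_add]
    ring
  have H2 : I (M - 2) (M - 2 - 2) (M - 2 - 3) 29 808 T := by
    have := all_023 (M - 2) (by omega)
    rwa [show M - 2 - 6 = M - 8 by omega, ← hT] at this
  have A2 : 3 ^ (M - 2 + 1) = 2187 * T := by
    rw [hT, show M - 2 + 1 = (M - 8) + 7 by omega, pow_add]
    ring
  have B2 : 3 ^ (M - 2 - 2 + 1) = 243 * T := by
    rw [hT, show M - 2 - 2 + 1 = (M - 8) + 5 by omega, pow_add]
    ring
  have C2 : 3 ^ (M - 2 - 3 + 1) = 81 * T := by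
    rw [hT, show M - 2 - 3 + 1 = (M - 8) + 4 by omega, pow_add]
    ring
  have h3 : N % 3 = 0 ∨ N % 3 = 1 ∨ N % 3 = 2 := by omega
  rcases h3 with h3 | h3 | h3
  · -- residue 0
    rcases Nat.lt_or_ge (7446 * T + 0) N with hc | hc
    swap
    · obtain ⟨X', hX'⟩ : ∃ X', N = 0 + 3 * X' + 5022 * T := ⟨(N - 0 - 5022 * T) / 3, by omega⟩
      exact top H2 A2 B2 C2 2 2 2 (by norm_num) (by norm_num) (by norm_num) (by norm_num) (by norm_num) (by norm_num) X' (by omega) (by omega) (by omega) (by omega)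
    rcases Nat.lt_or_ge (13527 * T + 3) N with hc | hc
    swap
    · obtain ⟨X', hX'⟩ : ∃ X', N = 3 + 3 * X' + 2277 * (3 * T) := ⟨(N - 3 - 2277 * (3 * T)) / 3, by omega⟩
      exact top H0 A0 B0 C0 1 1 1 (by norm_num) (by norm_num) (by norm_num) (by norm_num) (by norm_num) (by norm_num) X' (by omega) (by omega) (by omega) (by omega)
    rcases Nat.lt_or_ge (17676 * T + 3) N with hc | hc
    swap
    · obtain ⟨X', hX'⟩ : ∃ X', N = 3 + 3 * X' + 2997 * (3 * T) := ⟨(N - 3 - 2997 * (3 * T)) / 3, by omega⟩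
      exact top H1 A1 B1 C1 1 1 1 (by norm_num) (by norm_num) (by norm_num) (by norm_num) (by norm_num) (by norm_num) X' (by omega) (by omega) (by omega) (by omega)
    obtain ⟨X', hX'⟩ : ∃ X', N = 0 + 3 * X' + 4554 * (3 * T) := ⟨(N - 0 - 4554 * (3 * T)) / 3, by omega⟩
    exact top H0 A0 B0 C0 2 2 2 (by norm_num) (by norm_num) (by norm_num) (by norm_num) (by norm_num) (by norm_num) X' (by omega) (by omega) (by omega) (by omega)
  · -- residue 1
    rcases Nat.lt_or_ge (7365 * T + 1) N with hc | hc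
    swap
    · obtain ⟨X', hX'⟩ : ∃ X', N = 1 + 3 * X' + 4941 * T := ⟨(N - 1 - 4941 * T) / 3, by omega⟩
      exact top H2 A2 B2 C2 2 2 1 (by norm_num) (by norm_num) (by norm_num) (by norm_num) (by norm_num) (by norm_num) X' (by omega) (by omega) (by omega) (by omega)
    rcases Nat.lt_or_ge (13797 * T + 1) N with hc | hc
    swap
    · obtain ⟨X', hX'⟩ : ∃ X', N = 1 + 3 * X' + 2367 * (3 * T) := ⟨(N - 1 - 2367 * (3 * T)) / 3, by omega⟩
      exact top H0 A0 B0 C0 1 2 2 (by norm_num) (by norm_num) (by norm_num) (by norm_num) (by norm_num) (by norm_num) X' (by omega) (by omega) (by omega) (by omega)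
    obtain ⟨X', hX'⟩ : ∃ X', N = 1 + 3 * X' + 4545 * (3 * T) := ⟨(N - 1 - 4545 * (3 * T)) / 3, by omega⟩
    exact top H0 A0 B0 C0 2 2 1 (by norm_num) (by norm_num) (by norm_num) (by norm_num) (by norm_num) (by norm_num) X' (by omega) (by omega) (by omega) (by omega)
  · -- residue 2
    rcases Nat.lt_or_ge (7122 * T + 2) N with hc | hc
    swap
    · obtain ⟨X', hX'⟩ : ∃ X', N = 2 + 3 * X' + 4698 * T := ⟨(N - 2 - 4698 * T) / 3, by omega⟩
      exact top H2 A2 B2 C2 2 1 1 (by norm_num) (by norm_num) (by norm_num) (by norm_num) (by norm_num) (by norm_num) X' (by omega) (by omega) (by omega) (by omega)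
    rcases Nat.lt_or_ge (13554 * T + 2) N with hc | hc
    swap
    · obtain ⟨X', hX'⟩ : ∃ X', N = 2 + 3 * X' + 2286 * (3 * T) := ⟨(N - 2 - 2286 * (3 * T)) / 3, by omega⟩
      exact top H0 A0 B0 C0 1 1 2 (by norm_num) (by norm_num) (by norm_num) (by norm_num) (by norm_num) (by norm_num) X' (by omega) (by omega) (by omega) (by omega)
    obtain ⟨X', hX'⟩ : ∃ X', N = 2 + 3 * X' + 4464 * (3 * T) := ⟨(N - 2 - 4464 * (3 * T)) / 3, by omega⟩
    exact top H0 A0 B0 C0 2 1 1 (by norm_num) (by norm_num) (by norm_num) (by norm_num) (by norm_num) (by norm_num) X' (by omega) (by omega) (by omega) (by omega)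

theorem top_odd {M N T : ℕ} (hM : 14 ≤ M) (hT : T = 3 ^ (M - 8)) (h1 : 6561 * T ≤ N) (h2 : N < 19683 * T)
    (hp : N % 2 = (M) % 2) : Sum3 N := by
  have hT2 : T % 2 = 1 := by
    rw [hT, Nat.pow_mod]
    simp
  have hT6 : 6 ≤ T := by
    rw [hT]
    calc 6 ≤ 3 ^ 2 := by norm_num
      _ ≤ 3 ^ (M - 8) := Nat.pow_le_pow_right (by norm_num) (by omega)
  have H0 : I (M - 1) (M - 1 - 3) (M - 1 - 4) 13 752 (3 * T) := by
    have := all_034 (M - 1) (by omega)
    rwa [show M - 1 - 6 = (M - 8) + 1 by omega, pow_succ, mul_comm, ← hT] at this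
  have A0 : 3 ^ (M - 1 + 1) = 2187 * (3 * T) := by
    rw [hT, show M - 1 + 1 = (M - 8) + 8 by omega, pow_add]
    ring
  have B0 : 3 ^ (M - 1 - 3 + 1) = 81 * (3 * T) := by
    rw [hT, show M - 1 - 3 + 1 = (M - 8) + 5 by omega, pow_add]
    ring
  have C0 : 3 ^ (M - 1 - 4 + 1) = 27 * (3 * T) := by
    rw [hT, show M - 1 - 4 + 1 = (M - 8) + 4 by omega, pow_add]
    ring
  have H1 : I (M - 1) (M - 1 - 2) (M - 1 - 3) 29 808 (3 * T) := by
    have := all_023 (M - 1) (by omega)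
    rwa [show M - 1 - 6 = (M - 8) + 1 by omega, pow_succ, mul_comm, ← hT] at this
  have A1 : 3 ^ (M - 1 + 1) = 2187 * (3 * T) := by
    rw [hT, show M - 1 + 1 = (M - 8) + 8 by omega, pow_add]
    ring
  have B1 : 3 ^ (M - 1 - 2 + 1) = 243 * (3 * T) := by
    rw [hT, show M - 1 - 2 + 1 = (M - 8) + 6 by omega, pow_add]
    ring
  have C1 : 3 ^ (M - 1 - 3 + 1) = 81 * (3 * T) := by
    rw [hT, show M - 1 - 3 + 1 = (M - 8) + 5 by omega, pow_add]
    ring
  have H2 : I (M - 2) (M - 2 - 1) (M - 2 - 3) 35 965 T := by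
    have := all_013 (M - 2) (by omega)
    rwa [show M - 2 - 6 = M - 8 by omega, ← hT] at this
  have A2 : 3 ^ (M - 2 + 1) = 2187 * T := by
    rw [hT, show M - 2 + 1 = (M - 8) + 7 by omega, pow_add]
    ring
  have B2 : 3 ^ (M - 2 - 1 + 1) = 729 * T := by
    rw [hT, show M - 2 - 1 + 1 = (M - 8) + 6 by omega, pow_add]
    ring
  have C2 : 3 ^ (M - 2 - 3 + 1) = 81 * T := by
    rw [hT, show M - 2 - 3 + 1 = (M - 8) + 4 by omega, pow_add]
    ring
  have h3 : N % 3 = 0 ∨ N % 3 = 1 ∨ N % 3 = 2 := by omega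
  rcases h3 with h3 | h3 | h3
  · -- residue 0
    rcases Nat.lt_or_ge (8889 * T + 0) N with hc | hc
    swap
    · obtain ⟨X', hX'⟩ : ∃ X', N = 0 + 3 * X' + 5994 * T := ⟨(N - 0 - 5994 * T) / 3, by omega⟩
      exact top H2 A2 B2 C2 2 2 2 (by norm_num) (by norm_num) (by norm_num) (by norm_num) (by norm_num) (by norm_num) X' (by omega) (by omega) (by omega) (by omega)
    rcases Nat.lt_or_ge (14805 * T + 3) N with hc | hc
    swap
    · obtain ⟨X', hX'⟩ : ∃ X', N = 3 + 3 * X' + 2511 * (3 * T) := ⟨(N - 3 - 2511 * (3 * T)) / 3, by omega⟩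
      exact top H1 A1 B1 C1 1 1 1 (by norm_num) (by norm_num) (by norm_num) (by norm_num) (by norm_num) (by norm_num) X' (by omega) (by omega) (by omega) (by omega)
    obtain ⟨X', hX'⟩ : ∃ X', N = 0 + 3 * X' + 4590 * (3 * T) := ⟨(N - 0 - 4590 * (3 * T)) / 3, by omega⟩
    exact top H0 A0 B0 C0 2 2 2 (by norm_num) (by norm_num) (by norm_num) (by norm_num) (by norm_num) (by norm_num) X' (by omega) (by omega) (by omega) (by omega)
  · -- residue 1
    rcases Nat.lt_or_ge (8808 * T + 1) N with hc | hc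
    swap
    · obtain ⟨X', hX'⟩ : ∃ X', N = 1 + 3 * X' + 5913 * T := ⟨(N - 1 - 5913 * T) / 3, by omega⟩
      exact top H2 A2 B2 C2 2 2 1 (by norm_num) (by norm_num) (by norm_num) (by norm_num) (by norm_num) (by norm_num) X' (by omega) (by omega) (by omega) (by omega)
    rcases Nat.lt_or_ge (15777 * T + 1) N with hc | hc
    swap
    · obtain ⟨X', hX'⟩ : ∃ X', N = 1 + 3 * X' + 2835 * (3 * T) := ⟨(N - 1 - 2835 * (3 * T)) / 3, by omega⟩
      exact top H1 A1 B1 C1 1 2 2 (by norm_num) (by norm_num) (by norm_num) (by norm_num) (by norm_num) (by norm_num) X' (by omega) (by omega) (by omega) (by omega)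
    obtain ⟨X', hX'⟩ : ∃ X', N = 1 + 3 * X' + 4941 * (3 * T) := ⟨(N - 1 - 4941 * (3 * T)) / 3, by omega⟩
    exact top H1 A1 B1 C1 2 2 1 (by norm_num) (by norm_num) (by norm_num) (by norm_num) (by norm_num) (by norm_num) X' (by omega) (by omega) (by omega) (by omega)
  · -- residue 2
    rcases Nat.lt_or_ge (8079 * T + 2) N with hc | hc
    swap
    · obtain ⟨X', hX'⟩ : ∃ X', N = 2 + 3 * X' + 5184 * T := ⟨(N - 2 - 5184 * T) / 3, by omega⟩
      exact top H2 A2 B2 C2 2 1 1 (by norm_num) (by norm_num) (by norm_num) (by norm_num) (by norm_num) (by norm_num) X' (by omega) (by omega) (by omega) (by omega)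
    rcases Nat.lt_or_ge (15048 * T + 2) N with hc | hc
    swap
    · obtain ⟨X', hX'⟩ : ∃ X', N = 2 + 3 * X' + 2592 * (3 * T) := ⟨(N - 2 - 2592 * (3 * T)) / 3, by omega⟩
      exact top H1 A1 B1 C1 1 1 2 (by norm_num) (by norm_num) (by norm_num) (by norm_num) (by norm_num) (by norm_num) X' (by omega) (by omega) (by omega) (by omega)
    obtain ⟨X', hX'⟩ : ∃ X', N = 2 + 3 * X' + 4698 * (3 * T) := ⟨(N - 2 - 4698 * (3 * T)) / 3, by omega⟩
    exact top H1 A1 B1 C1 2 1 1 (by norm_num) (by norm_num) (by norm_num) (by norm_num) (by norm_num) (by norm_num) X' (by omega) (by omega) (by omega) (by omega)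

/-- all `N ≥ 3 ^ 14` -/
theorem large {N : ℕ} (hN : 3 ^ 14 ≤ N) : Sum3 N := by
  have hN0 : N ≠ 0 := by
    have : 0 < 3 ^ 14 := by norm_num
    omega
  have hM : 14 ≤ Nat.log 3 N := (Nat.le_log_iff_pow_le (by norm_num) hN0).2 hN
  have h1 : 3 ^ (Nat.log 3 N) ≤ N := Nat.pow_log_le_self 3 hN0
  have h2 : N < 3 ^ (Nat.log 3 N + 1) := Nat.lt_pow_succ_log_self (by norm_num) N
  set M := Nat.log 3 N with hMd
  have e1 : 3 ^ M = 6561 * 3 ^ (M - 8) := by
    conv_lhs => rw [show M = (M - 8) + 8 by omega, pow_add]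
    ring
  have e2 : 3 ^ (M + 1) = 19683 * 3 ^ (M - 8) := by
    rw [pow_succ, e1]
    ring
  rw [e1] at h1
  rw [e2] at h2
  rcases Nat.mod_two_eq_zero_or_one (N + M) with h | h
  · exact top_odd hM rfl h1 h2 (by omega)
  · exact top_even hM rfl h1 h2 (by omega)

end Pool.Agent.Q54.AP
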