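import Pool.Agent.Q54.AP1

/-!
# Small numbers: all `N < 3 ^ 14`, checked by the kernel with bit sets
-/

set_option autoImplicit false
set_option exponentiation.threshold 500

namespace Pool.Agent.Q54.AP

/-- the union of the shifts of `s` by the antipalindromic numbers with at most `K + 1` digits -/
def U (s : ℕ) : ℕ → ℕ
  | 0 => s <<< 1
  | L + 1 => U s L ||| (S s L 3 (2 * 3 ^ (L + 1)) ||| S s L 3 (1 + 3 ^ (L + 1)))

theorem U_testBit (s : ℕ) : ∀ (K X : ℕ), (U s K).testBit X = true →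
    ∃ v, Antipal v ∧ v ≤ X ∧ s.testBit (X - v) = true := by
  intro K
  induction K with
  | zero =>
    intro X h
    rw [U, Nat.testBit_shiftLeft] at h
    simp only [ge_iff_le, Bool.and_eq_true, decide_eq_true_eq] at h
    exact ⟨1, antipal_one, h.1, h.2⟩
  | succ L ih =>
    intro X h
    rw [U, Nat.testBit_or, Nat.testBit_or, Bool.or_eq_true, Bool.or_eq_true] at h
    rcases h with h | h | h
    · exact ih X h
    · obtain ⟨v, hv, h1, h2⟩ := S_testBit _ _ _ _ _ h
      have e : 0 + 3 * v + (2 - 0) * 3 ^ (L + 1) = 3 * v + 2 * 3 ^ (L + 1) := by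
        simp
      have := antipal_top (t := 0) (by omega) hv
      rw [e] at this
      exact ⟨_, this, h1, h2⟩
    · obtain ⟨v, hv, h1, h2⟩ := S_testBit _ _ _ _ _ h
      have e : 1 + 3 * v + (2 - 1) * 3 ^ (L + 1) = 3 * v + (1 + 3 ^ (L + 1)) := by
        norm_num
        ring
      have := antipal_top (t := 1) (by omega) hv
      rw [e] at this
      exact ⟨_, this, h1, h2⟩

/-- `0`, and the sums of one or two antipalindromic numbers with at most `K + 1` digits -/
def T2 (K : ℕ) : ℕ := 1 ||| (U 1 K ||| U (U 1 K) K)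

theorem testBit_one_eq {X : ℕ} (h : (1 : ℕ).testBit X = true) : X = 0 := by
  by_contra hc
  obtain ⟨m, rfl⟩ := Nat.exists_eq_succ_of_ne_zero hc
  rw [Nat.testBit_succ] at h
  simp at h

theorem T2_testBit {K X : ℕ} (h : (T2 K).testBit X = true) :
    X = 0 ∨ Antipal X ∨ ∃ a b, Antipal a ∧ Antipal b ∧ X = a + b := by
  rw [T2, Nat.testBit_or, Nat.testBit_or, Bool.or_eq_true, Bool.or_eq_true] at h
  rcases h with h | h | h
  · exact Or.inl (testBit_one_eq h)
  · obtain ⟨v, hv, h1, h2⟩ := U_testBit _ _ _ h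
    have := testBit_one_eq h2
    have h3 : X = v := by omega
    rw [h3]
    exact Or.inr (Or.inl hv)
  · obtain ⟨v, hv, h1, h2⟩ := U_testBit _ _ _ h
    obtain ⟨w, hw, h3, h4⟩ := U_testBit _ _ _ h2
    have := testBit_one_eq h4
    exact Or.inr (Or.inr ⟨v, w, hv, hw, by omega⟩)

/-- shift of `s` by `k + c - B`, if `k` is in the window -/
def leaf (s c B E k : ℕ) : ℕ :=
  cond (Nat.ble B (k + c)) (cond (Nat.ble k E) (s <<< (k + c - B)) 0) 0

theorem leaf_testBit {s c B E k X : ℕ} (h : (leaf s c B E k).testBit X = true) :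
    B ≤ k + c ∧ k + c - B ≤ X ∧ s.testBit (X - (k + c - B)) = true := by
  unfold leaf at h
  rcases h1 : Nat.ble B (k + c) with _ | _
  · rw [h1] at h
    simp at h
  · rw [h1] at h
    rcases h2 : Nat.ble k E with _ | _
    · rw [h2] at h
      simp at h
    · rw [h2] at h
      simp only [cond_true] at h
      rw [Nat.testBit_shiftLeft] at h
      simp only [ge_iff_le, Bool.and_eq_true, decide_eq_true_eq] at h
      exact ⟨Nat.le_of_ble_eq_true h1, h.1, h.2⟩

/-- windowed version of `S` -/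
def SW (s c B E : ℕ) : ℕ → ℕ → ℕ → ℕ
  | 0, _, k => leaf s c B E k
  | 1, m, k => leaf s c B E (m + k)
  | L + 2, m, k => SW s c B E L (3 * m) (k + m * (2 * 3 ^ (L + 1))) |||
      (SW s c B E L (3 * m) (k + m * (1 + 3 ^ (L + 1))) ||| SW s c B E L (3 * m) (k + m * 2))

theorem SW_testBit (s c B E : ℕ) : ∀ (L m k X : ℕ), (SW s c B E L m k).testBit X = true →
    ∃ v, G L v ∧ B ≤ m * v + k + c ∧ m * v + k + c - B ≤ X ∧
      s.testBit (X - (m * v + k + c - B)) = true := by
  intro L
  induction L using Nat.twoStepInduction with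
  | zero =>
    intro m k X h
    rw [SW] at h
    obtain ⟨h1, h2, h3⟩ := leaf_testBit h
    exact ⟨0, G.zero, by omega, by omega, by simpa using h3⟩
  | one =>
    intro m k X h
    rw [SW] at h
    obtain ⟨h1, h2, h3⟩ := leaf_testBit h
    exact ⟨1, G.one, by omega, by omega, by simpa using h3⟩
  | more L ih _ =>
    intro m k X h
    rw [SW, Nat.testBit_or, Nat.testBit_or, Bool.or_eq_true, Bool.or_eq_true] at h
    rcases h with h | h | h
    · obtain ⟨v, hv, h1, h2⟩ := ih _ _ _ h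
      have e : m * (0 + 3 * v + (2 - 0) * 3 ^ (L + 1)) + k = 3 * m * v + (k + m * (2 * 3 ^ (L + 1))) := by
        simp only [Nat.sub_zero]
        ring
      refine ⟨_, G.step L v 0 (by omega) hv, ?_⟩
      rw [e]
      exact ⟨h1, h2⟩
    · obtain ⟨v, hv, h1, h2⟩ := ih _ _ _ h
      have e : m * (1 + 3 * v + (2 - 1) * 3 ^ (L + 1)) + k = 3 * m * v + (k + m * (1 + 3 ^ (L + 1))) := by
        norm_num
        ring
      refine ⟨_, G.step L v 1 (by omega) hv, ?_⟩
      rw [e]
      exact ⟨h1, h2⟩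
    · obtain ⟨v, hv, h1, h2⟩ := ih _ _ _ h
      have e : m * (2 + 3 * v + (2 - 2) * 3 ^ (L + 1)) + k = 3 * m * v + (k + m * 2) := by
        norm_num
        ring
      refine ⟨_, G.step L v 2 (by omega) hv, ?_⟩
      rw [e]
      exact ⟨h1, h2⟩

/-- windowed version of `U` -/
def UW (s c B E : ℕ) : ℕ → ℕ
  | 0 => leaf s c B E 1
  | L + 1 => UW s c B E L |||
      (SW s c B E L 3 (2 * 3 ^ (L + 1)) ||| SW s c B E L 3 (1 + 3 ^ (L + 1)))

theorem UW_testBit (s c B E : ℕ) : ∀ (K X : ℕ), (UW s c B E K).testBit X = true →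
    ∃ v, Antipal v ∧ B ≤ v + c ∧ v + c - B ≤ X ∧ s.testBit (X - (v + c - B)) = true := by
  intro K
  induction K with
  | zero =>
    intro X h
    rw [UW] at h
    exact ⟨1, antipal_one, leaf_testBit h⟩
  | succ L ih =>
    intro X h
    rw [UW, Nat.testBit_or, Nat.testBit_or, Bool.or_eq_true, Bool.or_eq_true] at h
    rcases h with h | h | h
    · exact ih X h
    · obtain ⟨v, hv, h1, h2⟩ := SW_testBit _ _ _ _ _ _ _ _ h
      have e : 0 + 3 * v + (2 - 0) * 3 ^ (L + 1) = 3 * v + 2 * 3 ^ (L + 1) := by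
        simp
      have := antipal_top (t := 0) (by omega) hv
      rw [e] at this
      exact ⟨_, this, h1, h2⟩
    · obtain ⟨v, hv, h1, h2⟩ := SW_testBit _ _ _ _ _ _ _ _ h
      have e : 1 + 3 * v + (2 - 1) * 3 ^ (L + 1) = 3 * v + (1 + 3 ^ (L + 1)) := by
        norm_num
        ring
      have := antipal_top (t := 1) (by omega) hv
      rw [e] at this
      exact ⟨_, this, h1, h2⟩

/-- the check of the window `[B, B + w)`; `ex` is the bit set of the excepted offsets -/
def win (K K' c B w ex : ℕ) : Bool :=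
  Nat.beq (((UW (T2 K) c B (B + w) K' >>> c) ||| ex) % 2 ^ w) (2 ^ w - 1)

theorem win_spec {K K' c B w ex : ℕ} (h : win K K' c B w ex = true) {N : ℕ} (h1 : B ≤ N)
    (h2 : N < B + w) (h3 : ex.testBit (N - B) = false) : Sum3 N := by
  have h4 := Nat.eq_of_beq_eq_true h
  have h5 : (2 ^ w - 1).testBit (N - B) = true := by
    rw [Nat.testBit_two_pow_sub_one]
    simp only [decide_eq_true_eq]
    omega
  rw [← h4, Nat.testBit_mod_two_pow, Bool.and_eq_true, Nat.testBit_or, h3, Bool.or_false,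
    Nat.testBit_shiftRight] at h5
  obtain ⟨v, hv, h6, h7, h8⟩ := UW_testBit _ _ _ _ _ _ h5.2
  rcases T2_testBit h8 with h9 | h9 | ⟨a, b, ha, hb, h9⟩
  · have : N = v := by omega
    rw [this]
    exact Or.inl hv
  · exact Or.inr (Or.inl ⟨v, _, hv, h9, by omega⟩)
  · exact Or.inr (Or.inr ⟨v, a, b, hv, ha, hb, by omega⟩)

theorem win_0 : win 11 13 1062882 0 531441 (2 ^ 0 + 2 ^ 24 + 2 ^ 37 + 2 ^ 49 + 2 ^ 117 + 2 ^ 421) =
    true := by decide +kernel
theorem win_1 : win 11 13 1062882 (1 * 531441) 531441 0 = true := by decide +kernel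
theorem win_2 : win 11 13 1062882 (2 * 531441) 531441 0 = true := by decide +kernel
theorem win_3 : win 11 13 1062882 (3 * 531441) 531441 0 = true := by decide +kernel
theorem win_4 : win 11 13 1062882 (4 * 531441) 531441 0 = true := by decide +kernel
theorem win_5 : win 11 13 1062882 (5 * 531441) 531441 0 = true := by decide +kernel
theorem win_6 : win 11 13 1062882 (6 * 531441) 531441 0 = true := by decide +kernel
theorem win_7 : win 11 13 1062882 (7 * 531441) 531441 0 = true := by decide +kernel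
theorem win_8 : win 11 13 1062882 (8 * 531441) 531441 0 = true := by decide +kernel

/-- all `N < 3 ^ 14` -/
theorem small {N : ℕ} (h0 : 0 < N) (hN : N < 3 ^ 14)
    (h : N ≠ 24 ∧ N ≠ 37 ∧ N ≠ 49 ∧ N ≠ 117 ∧ N ≠ 421) : Sum3 N := by
  have e : (3 : ℕ) ^ 14 = 9 * 531441 := by norm_num
  rw [e] at hN
  rcases Nat.lt_or_ge N (1 * 531441) with h1 | h1
  · refine win_spec win_0 (Nat.zero_le _) (by omega) ?_
    rw [Nat.sub_zero]
    rcases Nat.lt_or_ge N 422 with h2 | h2
    · obtain ⟨a1, a2, a3, a4, a5⟩ := h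
      clear hN e h1
      interval_cases N <;> first | rfl | (exfalso; omega)
    · apply Nat.testBit_lt_two_pow
      calc 2 ^ 0 + 2 ^ 24 + 2 ^ 37 + 2 ^ 49 + 2 ^ 117 + 2 ^ 421 < 2 ^ 422 := by norm_num
        _ ≤ 2 ^ N := Nat.pow_le_pow_right (by norm_num) h2
  rcases Nat.lt_or_ge N (2 * 531441) with h2 | h2
  · exact win_spec win_1 h1 (by omega) (Nat.zero_testBit _)
  rcases Nat.lt_or_ge N (3 * 531441) with h3 | h3
  · exact win_spec win_2 h2 (by omega) (Nat.zero_testBit _)
  rcases Nat.lt_or_ge N (4 * 531441) with h4 | h4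
  · exact win_spec win_3 h3 (by omega) (Nat.zero_testBit _)
  rcases Nat.lt_or_ge N (5 * 531441) with h5 | h5
  · exact win_spec win_4 h4 (by omega) (Nat.zero_testBit _)
  rcases Nat.lt_or_ge N (6 * 531441) with h6 | h6
  · exact win_spec win_5 h5 (by omega) (Nat.zero_testBit _)
  rcases Nat.lt_or_ge N (7 * 531441) with h7 | h7
  · exact win_spec win_6 h6 (by omega) (Nat.zero_testBit _)
  rcases Nat.lt_or_ge N (8 * 531441) with h8 | h8
  · exact win_spec win_7 h7 (by omega) (Nat.zero_testBit _)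
  · exact win_spec win_8 h8 (by omega) (Nat.zero_testBit _)

end Pool.Agent.Q54.AP
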