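import Mathlib

set_option autoImplicit false

namespace Pool.Agent.Q54.EF

open Finset Complex

/-- orthogonality of the powers of a primitive root of unity -/
theorem geom_zero {L : ℕ} (hL : 0 < L) {n m : ℕ} (hn : n < L) (hm : m < L) (hnm : n ≠ m) :
    ∑ t ∈ range L, (exp (2 * Real.pi * I / L) ^ n * (starRingEnd ℂ) (exp (2 * Real.pi * I / L) ^ m)) ^ t = 0 := by
  have hζ := Complex.isPrimitiveRoot_exp L hL.ne'
  set ζ := exp (2 * Real.pi * I / L) with hζd
  have hn1 : ‖ζ‖ = 1 := by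
    exact hζ.norm'_eq_one hL.ne'
  have hconj : (starRingEnd ℂ) ζ = ζ⁻¹ := (Complex.inv_eq_conj hn1).symm
  have hζ0 : ζ ≠ 0 := by
    intro h
    rw [h, norm_zero] at hn1
    exact zero_ne_one hn1
  rw [map_pow, hconj]
  set w := ζ ^ n * ζ⁻¹ ^ m with hw
  have hw1 : w ≠ 1 := by
    intro h
    have h2 : ζ ^ n = ζ ^ m := by
      rw [hw, inv_pow] at h
      have h3 : ζ ^ m ≠ 0 := pow_ne_zero _ hζ0
      field_simp at h
      exact h
    exact hnm (hζ.pow_inj hn hm h2)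
  have hwL : w ^ L = 1 := by
    rw [hw, mul_pow, ← pow_mul, ← pow_mul, mul_comm n L, mul_comm m L, pow_mul, pow_mul, hζ.pow_eq_one,
      one_pow, inv_pow, hζ.pow_eq_one, inv_one, one_pow, mul_one]
  have := geom_sum_mul w L
  rw [hwL, sub_self] at this
  rcases mul_eq_zero.1 this with h | h
  · exact h
  · exact absurd (sub_eq_zero.1 h) hw1

/-- discrete Parseval -/
theorem parseval {L : ℕ} (hL : 0 < L) (c : ℕ → ℂ) :
    ∑ t ∈ range L, ‖∑ n ∈ range L, c n * exp (2 * Real.pi * I / L) ^ (n * t)‖ ^ 2 =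
      L * ∑ n ∈ range L, ‖c n‖ ^ 2 := by
  have hζ := Complex.isPrimitiveRoot_exp L hL.ne'
  set ζ := exp (2 * Real.pi * I / L) with hζd
  have hn1 : ‖ζ‖ = 1 := hζ.norm'_eq_one hL.ne'
  have key : ((∑ t ∈ range L, ‖∑ n ∈ range L, c n * ζ ^ (n * t)‖ ^ 2 : ℝ) : ℂ) =
      ((L * ∑ n ∈ range L, ‖c n‖ ^ 2 : ℝ) : ℂ) := by
    push_cast
    have h1 : ∀ t ∈ range L, ((‖∑ n ∈ range L, c n * ζ ^ (n * t)‖ : ℂ)) ^ 2 =
        ∑ n ∈ range L, ∑ m ∈ range L, (c n * (starRingEnd ℂ) (c m)) *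
          (ζ ^ n * (starRingEnd ℂ) (ζ ^ m)) ^ t := by
      intro t _
      rw [← Complex.mul_conj', map_sum, Finset.sum_mul_sum]
      apply sum_congr rfl
      intro n _
      apply sum_congr rfl
      intro m _
      rw [map_mul, mul_pow, ← map_pow, ← pow_mul, ← pow_mul]
      ring
    rw [sum_congr rfl h1, sum_comm, mul_sum]
    apply sum_congr rfl
    intro n hn
    rw [sum_comm, sum_eq_single n]
    · rw [← mul_sum]
      have h2 : ζ ^ n * (starRingEnd ℂ) (ζ ^ n) = 1 := by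
        rw [Complex.mul_conj', norm_pow, hn1]
        simp
      simp only [h2, one_pow, sum_const, card_range, nsmul_eq_mul, mul_one]
      rw [Complex.mul_conj']
      ring
    · intro m hm hmn
      rw [← mul_sum, geom_zero hL (mem_range.1 hn) (mem_range.1 hm) (Ne.symm hmn), mul_zero]
    · intro h
      exact absurd hn h
  exact_mod_cast key

theorem norm_root {L : ℕ} (hL : 0 < L) : ‖exp (2 * Real.pi * I / L)‖ = 1 :=
  (Complex.isPrimitiveRoot_exp L hL.ne').norm'_eq_one hL.ne'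

/-- lower bound for the distance of a power of the root of unity from `1` -/
theorem dist_one {L t : ℕ} (ht : 1 ≤ t) (htL : t < L) :
    4 * ((1 / (t : ℝ) + 1 / ((L - t : ℕ) : ℝ)) * L)⁻¹ ≤ ‖1 - exp (2 * Real.pi * I / L) ^ t‖ := by
  have hL : 0 < L := by omega
  have hLr : (0 : ℝ) < L := by exact_mod_cast hL
  have htr : (0 : ℝ) < t := by exact_mod_cast ht
  obtain ⟨s, hs⟩ : ∃ s, L - t = s := ⟨_, rfl⟩
  have hs1 : 1 ≤ s := by omega
  have hsr : (0 : ℝ) < s := by exact_mod_cast hs1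
  have hst : (s : ℝ) + t = L := by
    have : s + t = L := by omega
    exact_mod_cast this
  rw [hs]
  have e1 : exp (2 * Real.pi * I / L) ^ t = exp (I * ((2 * Real.pi * t / L : ℝ) : ℂ)) := by
    rw [← Complex.exp_nat_mul]
    congr 1
    push_cast
    ring
  rw [e1, norm_sub_rev, Complex.norm_exp_I_mul_ofReal_sub_one]
  have e2 : 2 * Real.pi * t / L / 2 = Real.pi * t / L := by ring
  rw [e2]
  have hpi := Real.pi_pos
  -- the reciprocal bound
  have e3 : ((1 / (t : ℝ) + 1 / (s : ℝ)) * L)⁻¹ = (t * s) / (L * L) := by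
    rw [← hst]
    field_simp
  rw [e3]
  rw [Real.norm_eq_abs, abs_mul, abs_two]
  have hx0 : 0 ≤ Real.pi * t / L := by positivity
  rcases le_total (2 * t) L with h | h
  · have hh : (2 * t : ℝ) ≤ L := by exact_mod_cast h
    have h2 : Real.pi * t / L ≤ Real.pi / 2 := by
      rw [div_le_div_iff₀ hLr two_pos]
      nlinarith
    have h3 := Real.mul_le_sin hx0 h2
    have h4 : 2 / Real.pi * (Real.pi * t / L) = 2 * t / L := by field_simp
    rw [h4] at h3
    have h5 : (t * s : ℝ) / (L * L) ≤ t / L := by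
      rw [div_le_div_iff₀ (by positivity) hLr]
      have : (s : ℝ) ≤ L := by linarith
      nlinarith [mul_le_mul_of_nonneg_left this (by positivity : (0 : ℝ) ≤ t * L)]
    have h6 : 2 * (t / L : ℝ) ≤ |Real.sin (Real.pi * t / L)| := by
      refine le_trans (le_of_eq (by ring)) (h3.trans (le_abs_self _))
    linarith
  · have hh : (L : ℝ) ≤ 2 * t := by exact_mod_cast h
    have h7 : Real.sin (Real.pi * t / L) = Real.sin (Real.pi * s / L) := by
      rw [← Real.sin_pi_sub]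
      congr 1
      rw [← hst]
      field_simp
      ring
    rw [h7]
    have hx1 : 0 ≤ Real.pi * s / L := by positivity
    have h2 : Real.pi * s / L ≤ Real.pi / 2 := by
      rw [div_le_div_iff₀ hLr two_pos]
      have : (2 * s : ℝ) ≤ L := by linarith
      nlinarith
    have h3 := Real.mul_le_sin hx1 h2
    have h4 : 2 / Real.pi * (Real.pi * s / L) = 2 * s / L := by field_simp
    rw [h4] at h3
    have h5 : (t * s : ℝ) / (L * L) ≤ s / L := by
      rw [div_le_div_iff₀ (by positivity) hLr]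
      have : (t : ℝ) ≤ L := by linarith
      nlinarith [mul_le_mul_of_nonneg_left this (by positivity : (0 : ℝ) ≤ s * L)]
    have h6 : 2 * (s / L : ℝ) ≤ |Real.sin (Real.pi * s / L)| := by
      refine le_trans (le_of_eq (by ring)) (h3.trans (le_abs_self _))
    linarith

/-- bound for the kernel -/
theorem kernel {L M : ℕ} (hL : 1 ≤ L) (ρ : ℝ) (h0 : 1 / 4 ≤ ρ) (h1 : ρ < 1) :
    ∑ t ∈ range L, ‖∑ n ∈ range M, ((ρ : ℂ) ^ n) * exp (2 * Real.pi * I / L) ^ (n * t)‖ ≤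
      1 / (1 - ρ) + 2 * L * (1 + Real.log L) := by
  have hLr : (0 : ℝ) < L := by exact_mod_cast hL
  set ζ := exp (2 * Real.pi * I / L) with hζd
  have hn1 : ‖ζ‖ = 1 := norm_root hL
  have hρ0 : 0 < ρ := by linarith
  have e0 : ∀ t, ∑ n ∈ range M, ((ρ : ℂ) ^ n) * ζ ^ (n * t) = ∑ n ∈ range M, ((ρ : ℂ) * ζ ^ t) ^ n := by
    intro t
    apply sum_congr rfl
    intro n _
    rw [mul_pow, ← pow_mul, mul_comm n t]
  have hzero : ‖∑ n ∈ range M, ((ρ : ℂ) ^ n) * ζ ^ (n * 0)‖ ≤ 1 / (1 - ρ) := by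
    simp only [mul_zero, pow_zero, mul_one]
    refine (norm_sum_le _ _).trans ?_
    have : ∀ n ∈ range M, ‖(ρ : ℂ) ^ n‖ = ρ ^ n := by
      intro n _
      rw [norm_pow, Complex.norm_real, Real.norm_eq_abs, abs_of_pos hρ0]
    rw [sum_congr rfl this, le_div_iff₀ (by linarith), geom_sum_mul_neg]
    have := pow_nonneg hρ0.le M
    linarith
  have hpos : ∀ t ∈ Ico 1 L, ‖∑ n ∈ range M, ((ρ : ℂ) ^ n) * ζ ^ (n * t)‖ ≤
      (1 / (t : ℝ) + 1 / ((L - t : ℕ) : ℝ)) * L := by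
    intro t ht
    rw [mem_Ico] at ht
    rw [e0]
    set w := (ρ : ℂ) * ζ ^ t with hw
    have hwn : ‖w‖ = ρ := by
      rw [hw, norm_mul, norm_pow, hn1, Complex.norm_real, Real.norm_eq_abs, abs_of_pos hρ0]
      simp
    have hw1 : w ≠ 1 := by
      intro h
      rw [h, norm_one] at hwn
      linarith
    have hd := dist_one ht.1 ht.2
    rw [← hζd] at hd
    -- ‖1 - w‖ ≥ ‖1 - ζ^t‖ / 2
    have h3 : ‖1 - ζ ^ t‖ ≤ 2 * ‖1 - w‖ := by
      have hz : ‖ζ ^ t‖ = 1 := by rw [norm_pow, hn1, one_pow]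
      have hs1 : ‖1 - w‖ ^ 2 = (1 - ρ) ^ 2 + ρ * ‖1 - ζ ^ t‖ ^ 2 := by
        rw [← Complex.normSq_eq_norm_sq, ← Complex.normSq_eq_norm_sq, hw]
        have hz2 : (ζ ^ t).re ^ 2 + (ζ ^ t).im ^ 2 = 1 := by
          have := Complex.normSq_eq_norm_sq (ζ ^ t)
          rw [hz, Complex.normSq_apply] at this
          nlinarith
        simp only [Complex.normSq_apply, Complex.sub_re, Complex.sub_im, Complex.one_re, Complex.one_im,
          Complex.mul_re, Complex.mul_im, Complex.ofReal_re, Complex.ofReal_im]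
        generalize (ζ ^ t).re = a at hz2 ⊢
        generalize (ζ ^ t).im = b at hz2 ⊢
        nlinarith
      have h4 : ‖1 - ζ ^ t‖ ^ 2 ≤ (2 * ‖1 - w‖) ^ 2 := by
        have : 0 ≤ ‖1 - ζ ^ t‖ ^ 2 := by positivity
        nlinarith [sq_nonneg (1 - ρ)]
      exact le_of_sq_le_sq h4 (by positivity)
    have h5 : ‖∑ n ∈ range M, w ^ n‖ * ‖1 - w‖ ≤ 2 := by
      rw [← norm_mul, geom_sum_mul_neg]
      refine (norm_sub_le _ _).trans ?_
      rw [norm_one, norm_pow, hwn]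
      have := pow_le_one₀ (n := M) hρ0.le h1.le
      linarith
    set X := (1 / (t : ℝ) + 1 / ((L - t : ℕ) : ℝ)) * L with hX
    have htr : (0 : ℝ) < t := by exact_mod_cast ht.1
    have hXp : 0 < X := by
      have : (0 : ℝ) ≤ 1 / ((L - t : ℕ) : ℝ) := by positivity
      have h6 : (0 : ℝ) < 1 / (t : ℝ) := by positivity
      positivity
    have h7 : 2 * X⁻¹ ≤ ‖1 - w‖ := by linarith
    have h8 : 0 ≤ ‖∑ n ∈ range M, w ^ n‖ := norm_nonneg _
    have h9 : ‖∑ n ∈ range M, w ^ n‖ * (2 * X⁻¹) ≤ 2 := le_trans (mul_le_mul_of_nonneg_left h7 h8) h5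
    have h10 : ‖∑ n ∈ range M, w ^ n‖ * X⁻¹ ≤ 1 := by linarith
    rwa [← div_eq_mul_inv, div_le_one hXp] at h10
  have hsplit : ∑ t ∈ range L, ‖∑ n ∈ range M, ((ρ : ℂ) ^ n) * ζ ^ (n * t)‖ =
      ‖∑ n ∈ range M, ((ρ : ℂ) ^ n) * ζ ^ (n * 0)‖ +
        ∑ t ∈ Ico 1 L, ‖∑ n ∈ range M, ((ρ : ℂ) ^ n) * ζ ^ (n * t)‖ := by
    rw [range_eq_Ico, Finset.sum_eq_sum_Ico_succ_bot (by omega)]
  rw [hsplit]
  refine add_le_add hzero ((sum_le_sum hpos).trans ?_)
  rw [← sum_mul, sum_add_distrib]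
  have hrefl : ∑ t ∈ Ico 1 L, 1 / ((L - t : ℕ) : ℝ) = ∑ t ∈ Ico 1 L, 1 / (t : ℝ) := by
    have := Finset.sum_Ico_reflect (fun j => 1 / (j : ℝ)) 1 (m := L) (n := L) (by omega)
    rw [this]
    congr 1
    ext x
    simp only [mem_Ico]
    omega
  rw [hrefl]
  have hharm : ∑ t ∈ Ico 1 L, 1 / (t : ℝ) ≤ 1 + Real.log L := by
    have h := harmonic_le_one_add_log (L - 1)
    have h2 : ((harmonic (L - 1) : ℚ) : ℝ) = ∑ t ∈ Ico 1 L, 1 / (t : ℝ) := by
      rw [harmonic_eq_sum_Icc]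
      push_cast
      have : Icc 1 (L - 1) = Ico 1 L := by
        ext x
        simp only [mem_Icc, mem_Ico]
        omega
      rw [this]
      apply sum_congr rfl
      intro x _
      rw [one_div]
    rw [← h2]
    refine h.trans ?_
    have h3 : Real.log ((L - 1 : ℕ) : ℝ) ≤ Real.log L := by
      rcases Nat.eq_zero_or_pos (L - 1) with h4 | h4
      · rw [h4, Nat.cast_zero, Real.log_zero]
        exact Real.log_nonneg (by exact_mod_cast hL)
      · apply Real.log_le_log (by exact_mod_cast h4)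
        exact_mod_cast Nat.sub_le L 1
    linarith
  nlinarith

end Pool.Agent.Q54.EF
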