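import Mathlib
import Pool.Agent.Q54.EF1

set_option autoImplicit false

namespace Pool.Agent.Q54.EF

open Finset Complex

/-- truncated representation function -/
def rM (χ : ℕ → ℝ) (M n : ℕ) : ℝ :=
  ∑ p ∈ (range M ×ˢ range M).filter (fun p => p.1 + p.2 = n), χ p.1 * χ p.2

/-- the representation function -/
def rr (χ : ℕ → ℝ) (n : ℕ) : ℝ := ∑ p ∈ antidiagonal n, χ p.1 * χ p.2

theorem rM_nonneg {χ : ℕ → ℝ} (h0 : ∀ a, 0 ≤ χ a) (M n : ℕ) : 0 ≤ rM χ M n :=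
  sum_nonneg fun _ _ => mul_nonneg (h0 _) (h0 _)

theorem rM_le {χ : ℕ → ℝ} (h0 : ∀ a, 0 ≤ χ a) (M n : ℕ) : rM χ M n ≤ rr χ n := by
  unfold rM rr
  apply sum_le_sum_of_subset_of_nonneg
  · intro p hp
    rw [mem_filter] at hp
    rw [HasAntidiagonal.mem_antidiagonal]
    exact hp.2
  · intro _ _ _
    exact mul_nonneg (h0 _) (h0 _)

theorem rM_eq (χ : ℕ → ℝ) {M n : ℕ} (h : n < M) : rM χ M n = rr χ n := by
  unfold rM rr
  congr 1
  ext p
  simp only [mem_filter, mem_product, mem_range, HasAntidiagonal.mem_antidiagonal]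
  constructor
  · rintro ⟨_, h2⟩
    exact h2
  · intro h2
    exact ⟨⟨by omega, by omega⟩, h2⟩

theorem rr_le {χ : ℕ → ℝ} (h0 : ∀ a, 0 ≤ χ a) (h1 : ∀ a, χ a ≤ 1) (n : ℕ) : rr χ n ≤ n + 1 := by
  unfold rr
  calc ∑ p ∈ antidiagonal n, χ p.1 * χ p.2 ≤ ∑ p ∈ antidiagonal n, (1 : ℝ) := by
        apply sum_le_sum
        intro p _
        exact mul_le_one₀ (h1 _) (h0 _) (h1 _)
    _ = n + 1 := by simp

theorem sq_sum {R : Type} [CommRing R] (χ : ℕ → R) (M : ℕ) (x : R) :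
    (∑ a ∈ range M, χ a * x ^ a) ^ 2 = ∑ n ∈ range (2 * M),
      (∑ p ∈ (range M ×ˢ range M).filter (fun p => p.1 + p.2 = n), χ p.1 * χ p.2) * x ^ n := by
  rw [sq, sum_mul_sum, ← sum_product']
  have hmap : ∀ p ∈ range M ×ˢ range M, p.1 + p.2 ∈ range (2 * M) := by
    intro p hp
    rw [mem_product, mem_range, mem_range] at hp
    rw [mem_range]
    omega
  rw [← sum_fiberwise_of_maps_to hmap]
  apply sum_congr rfl
  intro n _
  rw [sum_mul]
  apply sum_congr rfl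
  intro p hp
  rw [mem_filter] at hp
  rw [← hp.2, pow_add]
  ring

theorem cast_rM (χ : ℕ → ℝ) (M n : ℕ) : ((rM χ M n : ℝ) : ℂ) =
    ∑ p ∈ (range M ×ˢ range M).filter (fun p => p.1 + p.2 = n), (χ p.1 : ℂ) * (χ p.2 : ℂ) := by
  unfold rM
  push_cast
  rfl

/-- the main inequality -/
theorem main_ineq (χ : ℕ → ℝ) (h01 : ∀ a, χ a = 0 ∨ χ a = 1) (M : ℕ) (hM : 1 ≤ M) (ρ c : ℝ) (h0 : 1 / 4 ≤ ρ)
    (h1 : ρ < 1) (hc : 0 ≤ c) :
    (2 * M : ℝ) * ∑ a ∈ range M, χ a * (ρ ^ 2) ^ a ≤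
      c * (1 / (1 - ρ) + 2 * (2 * M) * (1 + Real.log (2 * M))) +
      (2 * M) * √(∑ n ∈ range (2 * M), (rM χ M n - if n < M then c else 0) ^ 2 * (ρ ^ 2) ^ n) := by
  have hL : 1 ≤ 2 * M := by omega
  set ζ := exp (2 * Real.pi * I / (2 * M : ℕ)) with hζd
  have hn1 : ‖ζ‖ = 1 := norm_root hL
  have hρ0 : 0 < ρ := by linarith
  have hρn : ∀ n : ℕ, ‖((ρ : ℂ)) ^ n‖ = ρ ^ n := by
    intro n
    rw [norm_pow, Complex.norm_real, Real.norm_eq_abs, abs_of_pos hρ0]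
  -- f
  have hp1 := parseval hL (fun n => if n < M then (χ n : ℂ) * (ρ : ℂ) ^ n else 0)
  have hsub : range M ⊆ range (2 * M) := by
    intro x hx
    rw [mem_range] at hx ⊢
    omega
  have hf : ∀ t, ∑ n ∈ range (2 * M), (if n < M then (χ n : ℂ) * (ρ : ℂ) ^ n else 0) * ζ ^ (n * t) =
      ∑ a ∈ range M, (χ a : ℂ) * ((ρ : ℂ) * ζ ^ t) ^ a := by
    intro t
    rw [← sum_subset hsub]
    · apply sum_congr rfl
      intro n hn
      rw [if_pos (mem_range.1 hn), mul_pow, ← pow_mul, mul_comm n t]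
      ring
    · intro n _ hn
      rw [mem_range] at hn
      rw [if_neg hn, zero_mul]
  have hR : ∑ n ∈ range (2 * M), ‖(if n < M then (χ n : ℂ) * (ρ : ℂ) ^ n else 0)‖ ^ 2 =
      ∑ a ∈ range M, χ a * (ρ ^ 2) ^ a := by
    rw [← sum_subset hsub]
    · apply sum_congr rfl
      intro n hn
      rw [if_pos (mem_range.1 hn), norm_mul, hρn, Complex.norm_real, mul_pow, ← pow_mul, ← pow_mul, mul_comm 2 n]
      congr 1
      rcases h01 n with h | h <;> rw [h] <;> simp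
    · intro n _ hn
      rw [mem_range] at hn
      rw [if_neg hn, norm_zero]
      simp
  rw [hR, ← hζd] at hp1
  simp only [hf] at hp1
  have hcast : ((2 * M : ℕ) : ℝ) = 2 * M := by push_cast; ring
  rw [hcast] at hp1
  rw [← hp1]
  -- g
  set g : ℕ → ℝ := fun n => rM χ M n - if n < M then c else 0 with hg
  have hp2 := parseval hL (fun n => (g n : ℂ) * (ρ : ℂ) ^ n)
  rw [← hζd] at hp2
  have hR2 : ∑ n ∈ range (2 * M), ‖(g n : ℂ) * (ρ : ℂ) ^ n‖ ^ 2 = ∑ n ∈ range (2 * M), g n ^ 2 * (ρ ^ 2) ^ n := by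
    apply sum_congr rfl
    intro n _
    rw [norm_mul, hρn, Complex.norm_real, mul_pow, ← pow_mul, ← pow_mul, mul_comm 2 n, Real.norm_eq_abs, sq_abs]
  rw [hR2, hcast] at hp2
  have hk := kernel (M := M) hL ρ h0 h1
  rw [← hζd, hcast] at hk
  have hpt : ∀ t ∈ range (2 * M), ‖∑ a ∈ range M, (χ a : ℂ) * ((ρ : ℂ) * ζ ^ t) ^ a‖ ^ 2 ≤
      c * ‖∑ n ∈ range M, ((ρ : ℂ) ^ n) * ζ ^ (n * t)‖ +
        ‖∑ n ∈ range (2 * M), (g n : ℂ) * (ρ : ℂ) ^ n * ζ ^ (n * t)‖ := by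
    intro t _
    rw [← norm_pow, sq_sum]
    have e1 : ∑ n ∈ range (2 * M), (∑ p ∈ (range M ×ˢ range M).filter (fun p => p.1 + p.2 = n),
        (χ p.1 : ℂ) * (χ p.2 : ℂ)) * ((ρ : ℂ) * ζ ^ t) ^ n =
        (c : ℂ) * ∑ n ∈ range M, ((ρ : ℂ) ^ n) * ζ ^ (n * t) +
        ∑ n ∈ range (2 * M), (g n : ℂ) * (ρ : ℂ) ^ n * ζ ^ (n * t) := by
      have e2 : (c : ℂ) * ∑ n ∈ range M, ((ρ : ℂ) ^ n) * ζ ^ (n * t) =
          ∑ n ∈ range (2 * M), (if n < M then (c : ℂ) else 0) * (((ρ : ℂ) ^ n) * ζ ^ (n * t)) := by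
        rw [← sum_subset hsub, mul_sum]
        · apply sum_congr rfl
          intro n hn
          rw [if_pos (mem_range.1 hn)]
        · intro n _ hn
          rw [mem_range] at hn
          rw [if_neg hn, zero_mul]
      rw [e2, ← sum_add_distrib]
      apply sum_congr rfl
      intro n _
      rw [← cast_rM, mul_pow, ← pow_mul, mul_comm t n]
      have : (g n : ℂ) = (rM χ M n : ℂ) - (if n < M then (c : ℂ) else 0) := by
        rw [hg]
        push_cast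
        split_ifs <;> simp
      rw [this]
      ring
    rw [e1]
    refine (norm_add_le _ _).trans ?_
    rw [norm_mul, Complex.norm_real, Real.norm_eq_abs, abs_of_nonneg hc]
  refine (sum_le_sum hpt).trans ?_
  rw [sum_add_distrib, ← mul_sum]
  refine add_le_add (mul_le_mul_of_nonneg_left hk hc) ?_
  have hcs := sq_sum_le_card_mul_sum_sq (s := range (2 * M))
    (f := fun t => ‖∑ n ∈ range (2 * M), (g n : ℂ) * (ρ : ℂ) ^ n * ζ ^ (n * t)‖)
  rw [hp2, card_range, hcast] at hcs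
  have hG0 : 0 ≤ ∑ n ∈ range (2 * M), g n ^ 2 * (ρ ^ 2) ^ n := sum_nonneg fun n _ => by positivity
  have h2M : (0 : ℝ) ≤ 2 * M := by positivity
  have hfin : (∑ t ∈ range (2 * M), ‖∑ n ∈ range (2 * M), (g n : ℂ) * (ρ : ℂ) ^ n * ζ ^ (n * t)‖) ^ 2 ≤
      ((2 * M) * √(∑ n ∈ range (2 * M), g n ^ 2 * (ρ ^ 2) ^ n)) ^ 2 := by
    rw [mul_pow, Real.sq_sqrt hG0]
    refine hcs.trans (le_of_eq (by ring))
  exact le_of_sq_le_sq hfin (by positivity)

end Pool.Agent.Q54.EF
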