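import Mathlib
import Pool.Agent.Q54.EF2

set_option autoImplicit false
set_option maxHeartbeats 1000000

namespace Pool.Agent.Q54.EF

open Finset Complex Filter Topology

theorem geom_tail {q : ℝ} (_h0 : 0 ≤ q) (_h1 : q < 1) (a b : ℕ) (hab : a ≤ b) :
    (∑ n ∈ Ico a b, q ^ n) * (1 - q) = q ^ a - q ^ b := by
  have := geom_sum_Ico_mul_neg q hab
  rw [this]

theorem sqrt_aux (x m : ℝ) : √(x * m ^ 4) = √x * m ^ 2 := by
  rw [Real.sqrt_mul' _ (by positivity), show m ^ 4 = (m ^ 2) ^ 2 by ring, Real.sqrt_sq (by positivity)]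

/-- consequences for one value of the parameter -/
theorem one_param (χ : ℕ → ℝ) (h01 : ∀ a, χ a = 0 ∨ χ a = 1) (n₀ : ℕ) (k K : ℝ) (hk : 0 ≤ k)
    (h : ∀ n, n₀ ≤ n → k ≤ rr χ n ∧ rr χ n ≤ K) (m : ℕ) (hm : 2 ≤ m) (hmn : n₀ ≤ m) :
    √(k * (1 - (n₀ + 1) * (1 / (m : ℝ)))) ≤ 21 * ((k + K) / 2) * (1 / (m : ℝ)) +
      √(((K - k) / 2) ^ 2 + (n₀ * (n₀ + (k + K) / 2) ^ 2 + K ^ 2) * (1 / (m : ℝ))) := by
  have hχ0 : ∀ a, 0 ≤ χ a := by
    intro a
    rcases h01 a with h | h <;> rw [h]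
    norm_num
  have hχ1 : ∀ a, χ a ≤ 1 := by
    intro a
    rcases h01 a with h | h <;> rw [h]
    norm_num
  have hkK : k ≤ K := (h n₀ le_rfl).1.trans (h n₀ le_rfl).2
  have hK0 : 0 ≤ K := hk.trans hkK
  set c := (k + K) / 2 with hc
  have hc0 : 0 ≤ c := by positivity
  have hmr : (2 : ℝ) ≤ m := by exact_mod_cast hm
  have hm0 : (0 : ℝ) < m := by linarith
  have hm4 : (16 : ℝ) ≤ (m : ℝ) ^ 4 := by nlinarith [pow_le_pow_left₀ (by norm_num : (0 : ℝ) ≤ 2) hmr 4]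
  set q : ℝ := 1 - 1 / (m : ℝ) ^ 4 with hq
  have hq1 : q < 1 := by
    have : 0 < 1 / (m : ℝ) ^ 4 := by positivity
    linarith
  have hqh : 15 / 16 ≤ q := by
    have : 1 / (m : ℝ) ^ 4 ≤ 1 / 16 := one_div_le_one_div_of_le (by norm_num) hm4
    linarith
  have hq0 : 0 ≤ q := by linarith
  have h1q : 1 - q = 1 / (m : ℝ) ^ 4 := by rw [hq]; ring
  set ρ := √q with hρ
  have hρ2 : ρ ^ 2 = q := Real.sq_sqrt hq0
  have hρ0 : 0 ≤ ρ := Real.sqrt_nonneg q
  have hρ1 : ρ < 1 := by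
    rw [hρ]
    exact (Real.sqrt_lt' one_pos).2 (by linarith)
  have hρ4 : 1 / 4 ≤ ρ := by
    by_contra hcon
    push Not at hcon
    nlinarith
  have h1ρ : 1 / (1 - ρ) ≤ 2 * (m : ℝ) ^ 4 := by
    have h2 : 1 - q ≤ 2 * (1 - ρ) := by
      rw [← hρ2]
      nlinarith
    rw [h1q] at h2
    rw [div_le_iff₀ (by linarith)]
    have h3 : (m : ℝ) ^ 4 * (1 / (m : ℝ) ^ 4) = 1 := by field_simp
    have h4 : 0 < (m : ℝ) ^ 4 := by positivity
    nlinarith
  set M := m ^ 8 with hM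
  have hM1 : 1 ≤ M := Nat.one_le_pow _ _ (by omega)
  have hMr : (M : ℝ) = (m : ℝ) ^ 8 := by rw [hM]; push_cast; ring
  have hnM : n₀ ≤ M := by
    refine hmn.trans ?_
    calc m = m ^ 1 := (pow_one m).symm
      _ ≤ m ^ 8 := Nat.pow_le_pow_right (by omega) (by norm_num)
  have hmain := main_ineq χ h01 M hM1 ρ c hρ4 hρ1 hc0
  rw [hρ2] at hmain
  -- q ^ M ≤ 1 / m
  have hqM : q ^ M ≤ 1 / m := by
    have h2 : q ≤ Real.exp (-(1 / (m : ℝ) ^ 4)) := by
      have := Real.add_one_le_exp (-(1 / (m : ℝ) ^ 4))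
      linarith
    have h3 : q ^ M ≤ Real.exp (-(m : ℝ) ^ 4) := by
      refine (pow_le_pow_left₀ hq0 h2 M).trans ?_
      rw [← Real.exp_nat_mul, hMr]
      apply le_of_eq
      congr 1
      field_simp
    refine h3.trans ?_
    rw [Real.exp_neg, one_div]
    apply inv_anti₀ hm0
    have h4 := Real.add_one_le_exp ((m : ℝ) ^ 4)
    have h5 : (m : ℝ) ≤ (m : ℝ) ^ 4 := le_self_pow₀ (by linarith) (by norm_num)
    linarith
  have hqM0 : 0 ≤ q ^ M := pow_nonneg hq0 M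
  -- q ^ n₀ ≥ 1 - n₀ / m
  have hqn : 1 - n₀ * (1 / (m : ℝ)) ≤ q ^ n₀ := by
    have h2 := one_add_mul_le_pow (a := -(1 / (m : ℝ) ^ 4)) (by
      have : 1 / (m : ℝ) ^ 4 ≤ 1 / 16 := one_div_le_one_div_of_le (by norm_num) hm4
      linarith) n₀
    have h3 : 1 + -(1 / (m : ℝ) ^ 4) = q := by rw [hq]; ring
    rw [h3] at h2
    have h4 : 1 / (m : ℝ) ^ 4 ≤ 1 / m := by
      apply one_div_le_one_div_of_le hm0
      exact le_self_pow₀ (by linarith) (by norm_num)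
    have h5 : (n₀ : ℝ) * (1 / (m : ℝ) ^ 4) ≤ n₀ * (1 / (m : ℝ)) := mul_le_mul_of_nonneg_left h4 (by positivity)
    linarith
  -- lower bound for F
  set F := ∑ a ∈ range M, χ a * q ^ a with hF
  have hF0 : 0 ≤ F := sum_nonneg fun a _ => mul_nonneg (hχ0 a) (pow_nonneg hq0 a)
  have hFsq : k * (1 - (n₀ + 1) * (1 / (m : ℝ))) * (m : ℝ) ^ 4 ≤ F ^ 2 := by
    have e1 : F ^ 2 = ∑ n ∈ range (2 * M), rM χ M n * q ^ n := by
      rw [hF, sq_sum]
      rfl
    have e2 : ∑ n ∈ Ico n₀ M, k * q ^ n ≤ ∑ n ∈ range (2 * M), rM χ M n * q ^ n := by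
      have hsub : Ico n₀ M ⊆ range (2 * M) := by
        intro x hx
        rw [mem_Ico] at hx
        rw [mem_range]
        omega
      refine le_trans (sum_le_sum ?_) (sum_le_sum_of_subset_of_nonneg hsub ?_)
      · intro n hn
        rw [mem_Ico] at hn
        rw [rM_eq χ hn.2]
        exact mul_le_mul_of_nonneg_right (h n hn.1).1 (pow_nonneg hq0 n)
      · intro n _ _
        exact mul_nonneg (rM_nonneg hχ0 M n) (pow_nonneg hq0 n)
    rw [e1]
    refine le_trans ?_ e2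
    rw [← mul_sum]
    have e3 := geom_tail hq0 hq1 n₀ M hnM
    have e4 : ∑ n ∈ Ico n₀ M, q ^ n = (q ^ n₀ - q ^ M) * (m : ℝ) ^ 4 := by
      rw [← e3, h1q]
      field_simp
    rw [e4, mul_assoc]
    apply mul_le_mul_of_nonneg_left _ hk
    apply mul_le_mul_of_nonneg_right _ (by positivity)
    have : (n₀ + 1) * (1 / (m : ℝ)) = n₀ * (1 / (m : ℝ)) + 1 / m := by ring
    linarith
  -- upper bound for G
  set G := ∑ n ∈ range (2 * M), (rM χ M n - if n < M then c else 0) ^ 2 * q ^ n with hG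
  have hGle : G ≤ (((K - k) / 2) ^ 2 + (n₀ * (n₀ + c) ^ 2 + K ^ 2) * (1 / (m : ℝ))) * (m : ℝ) ^ 4 := by
    have hsplit : G = ∑ n ∈ Ico 0 n₀, (rM χ M n - if n < M then c else 0) ^ 2 * q ^ n +
        ∑ n ∈ Ico n₀ M, (rM χ M n - if n < M then c else 0) ^ 2 * q ^ n +
        ∑ n ∈ Ico M (2 * M), (rM χ M n - if n < M then c else 0) ^ 2 * q ^ n := by
      rw [sum_Ico_consecutive _ (by omega) hnM, sum_Ico_consecutive _ (by omega) (by omega), ← range_eq_Ico]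
    have g1 : ∑ n ∈ Ico 0 n₀, (rM χ M n - if n < M then c else 0) ^ 2 * q ^ n ≤ n₀ * (n₀ + c) ^ 2 := by
      calc ∑ n ∈ Ico 0 n₀, (rM χ M n - if n < M then c else 0) ^ 2 * q ^ n ≤ ∑ n ∈ Ico 0 n₀, (n₀ + c) ^ 2 := by
            apply sum_le_sum
            intro n hn
            rw [mem_Ico] at hn
            have hr0 := rM_nonneg hχ0 M n
            have hr1 := (rM_le hχ0 M n).trans (rr_le hχ0 hχ1 n)
            have hr2 : rM χ M n ≤ n₀ := by
              refine hr1.trans ?_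
              exact_mod_cast hn.2
            have hn0 : (0 : ℝ) ≤ n₀ := by positivity
            have hsq : (rM χ M n - if n < M then c else 0) ^ 2 ≤ (n₀ + c) ^ 2 := by
              rw [sq_le_sq, abs_of_nonneg (by positivity : (0 : ℝ) ≤ n₀ + c), abs_le]
              split_ifs <;> constructor <;> linarith
            calc (rM χ M n - if n < M then c else 0) ^ 2 * q ^ n ≤ (rM χ M n - if n < M then c else 0) ^ 2 * 1 :=
                  mul_le_mul_of_nonneg_left (pow_le_one₀ hq0 hq1.le) (sq_nonneg _)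
              _ ≤ _ := by rw [mul_one]; exact hsq
        _ = n₀ * (n₀ + c) ^ 2 := by simp
    have g2 : ∑ n ∈ Ico n₀ M, (rM χ M n - if n < M then c else 0) ^ 2 * q ^ n ≤
        ((K - k) / 2) ^ 2 * (m : ℝ) ^ 4 := by
      have e3 := geom_tail hq0 hq1 n₀ M hnM
      have e4 : ∑ n ∈ Ico n₀ M, q ^ n = (q ^ n₀ - q ^ M) * (m : ℝ) ^ 4 := by
        rw [← e3, h1q]
        field_simp
      calc ∑ n ∈ Ico n₀ M, (rM χ M n - if n < M then c else 0) ^ 2 * q ^ n ≤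
            ∑ n ∈ Ico n₀ M, ((K - k) / 2) ^ 2 * q ^ n := by
            apply sum_le_sum
            intro n hn
            rw [mem_Ico] at hn
            rw [rM_eq χ hn.2, if_pos hn.2]
            apply mul_le_mul_of_nonneg_right _ (pow_nonneg hq0 n)
            have := h n hn.1
            rw [sq_le_sq, abs_of_nonneg (by linarith : (0 : ℝ) ≤ (K - k) / 2), abs_le]
            constructor <;> rw [hc] <;> linarith [this.1, this.2]
        _ = ((K - k) / 2) ^ 2 * ((q ^ n₀ - q ^ M) * (m : ℝ) ^ 4) := by rw [← mul_sum, e4]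
        _ ≤ ((K - k) / 2) ^ 2 * (1 * (m : ℝ) ^ 4) := by
            apply mul_le_mul_of_nonneg_left _ (sq_nonneg _)
            apply mul_le_mul_of_nonneg_right _ (by positivity)
            have := pow_le_one₀ (n := n₀) hq0 hq1.le
            linarith
        _ = _ := by ring
    have g3 : ∑ n ∈ Ico M (2 * M), (rM χ M n - if n < M then c else 0) ^ 2 * q ^ n ≤
        K ^ 2 * (1 / m) * (m : ℝ) ^ 4 := by
      have e3 := geom_tail hq0 hq1 M (2 * M) (by omega)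
      have e4 : ∑ n ∈ Ico M (2 * M), q ^ n = (q ^ M - q ^ (2 * M)) * (m : ℝ) ^ 4 := by
        rw [← e3, h1q]
        field_simp
      calc ∑ n ∈ Ico M (2 * M), (rM χ M n - if n < M then c else 0) ^ 2 * q ^ n ≤
            ∑ n ∈ Ico M (2 * M), K ^ 2 * q ^ n := by
            apply sum_le_sum
            intro n hn
            rw [mem_Ico] at hn
            rw [if_neg (by omega), sub_zero]
            apply mul_le_mul_of_nonneg_right _ (pow_nonneg hq0 n)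
            have hr0 := rM_nonneg hχ0 M n
            have hr1 := (rM_le hχ0 M n).trans (h n (by omega)).2
            exact pow_le_pow_left₀ hr0 hr1 2
        _ = K ^ 2 * ((q ^ M - q ^ (2 * M)) * (m : ℝ) ^ 4) := by rw [← mul_sum, e4]
        _ ≤ K ^ 2 * (1 / m * (m : ℝ) ^ 4) := by
            apply mul_le_mul_of_nonneg_left _ (sq_nonneg _)
            apply mul_le_mul_of_nonneg_right _ (by positivity)
            have := pow_nonneg hq0 (2 * M)
            linarith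
        _ = _ := by ring
    have g4 : (n₀ : ℝ) * (n₀ + c) ^ 2 ≤ n₀ * (n₀ + c) ^ 2 * (1 / m) * (m : ℝ) ^ 4 := by
      have h2 : (1 : ℝ) ≤ 1 / m * (m : ℝ) ^ 4 := by
        have : 1 / (m : ℝ) * (m : ℝ) ^ 4 = (m : ℝ) ^ 3 := by field_simp
        rw [this]
        exact one_le_pow₀ (by linarith)
      have h3 : (0 : ℝ) ≤ n₀ * (n₀ + c) ^ 2 := by positivity
      calc (n₀ : ℝ) * (n₀ + c) ^ 2 = n₀ * (n₀ + c) ^ 2 * 1 := by ring
        _ ≤ n₀ * (n₀ + c) ^ 2 * (1 / m * (m : ℝ) ^ 4) := mul_le_mul_of_nonneg_left h2 h3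
        _ = _ := by ring
    rw [hsplit]
    have e9 : (((K - k) / 2) ^ 2 + (n₀ * (n₀ + c) ^ 2 + K ^ 2) * (1 / (m : ℝ))) * (m : ℝ) ^ 4 =
        n₀ * (n₀ + c) ^ 2 * (1 / m) * (m : ℝ) ^ 4 + ((K - k) / 2) ^ 2 * (m : ℝ) ^ 4 +
          K ^ 2 * (1 / m) * (m : ℝ) ^ 4 := by ring
    rw [e9]
    exact add_le_add (add_le_add (g1.trans g4) g2) g3
  -- combine
  have hlog : Real.log (2 * M) ≤ 9 * m := by
    rw [hMr, Real.log_mul (by norm_num) (by positivity), Real.log_pow]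
    have h2 : Real.log m ≤ m - 1 := Real.log_le_sub_one_of_pos hm0
    have h3 : Real.log 2 ≤ 1 := by
      have := Real.log_le_sub_one_of_pos (by norm_num : (0 : ℝ) < 2)
      linarith
    push_cast
    linarith
  have hMpos : (0 : ℝ) < M := by exact_mod_cast hM1
  have hF1 : F ≤ c * (1 + 2 * (1 + 9 * m)) + √G := by
    have h2 : c * (1 / (1 - ρ) + 2 * (2 * M) * (1 + Real.log (2 * M))) ≤ (2 * M) * (c * (1 + 2 * (1 + 9 * m))) := by
      have h3 : 1 / (1 - ρ) ≤ 2 * M * 1 := by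
        refine h1ρ.trans ?_
        rw [hMr, mul_one]
        have : (m : ℝ) ^ 4 ≤ (m : ℝ) ^ 8 := pow_le_pow_right₀ (by linarith) (by norm_num)
        linarith
      have h4 : 2 * (2 * (M : ℝ)) * (1 + Real.log (2 * M)) ≤ 2 * (2 * M) * (1 + 9 * m) := by
        apply mul_le_mul_of_nonneg_left _ (by positivity)
        linarith
      have h5 : 1 / (1 - ρ) + 2 * (2 * M) * (1 + Real.log (2 * M)) ≤ 2 * M * (1 + 2 * (1 + 9 * m)) := by
        nlinarith
      calc c * (1 / (1 - ρ) + 2 * (2 * M) * (1 + Real.log (2 * M))) ≤ c * (2 * M * (1 + 2 * (1 + 9 * m))) :=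
            mul_le_mul_of_nonneg_left h5 hc0
        _ = _ := by ring
    have h6 : (2 * M : ℝ) * F ≤ (2 * M) * (c * (1 + 2 * (1 + 9 * m)) + √G) := by
      rw [mul_add]
      linarith
    exact le_of_mul_le_mul_left h6 (by positivity)
  -- divide by m ^ 2
  have hm2 : (0 : ℝ) < (m : ℝ) ^ 2 := by positivity
  have hA : √(k * (1 - (n₀ + 1) * (1 / (m : ℝ)))) * (m : ℝ) ^ 2 ≤ F := by
    rw [← sqrt_aux]
    exact Real.sqrt_le_iff.2 ⟨hF0, hFsq⟩
  have hB : √G ≤ √(((K - k) / 2) ^ 2 + (n₀ * (n₀ + c) ^ 2 + K ^ 2) * (1 / (m : ℝ))) * (m : ℝ) ^ 2 := by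
    rw [← sqrt_aux]
    exact Real.sqrt_le_sqrt hGle
  have hC : c * (1 + 2 * (1 + 9 * m)) ≤ 21 * c * (1 / (m : ℝ)) * (m : ℝ) ^ 2 := by
    have e1 : 21 * c * (1 / (m : ℝ)) * (m : ℝ) ^ 2 = 21 * c * m := by field_simp
    rw [e1]
    nlinarith
  have hfin : √(k * (1 - (n₀ + 1) * (1 / (m : ℝ)))) * (m : ℝ) ^ 2 ≤ (21 * c * (1 / (m : ℝ)) +
      √(((K - k) / 2) ^ 2 + (n₀ * (n₀ + c) ^ 2 + K ^ 2) * (1 / (m : ℝ)))) * (m : ℝ) ^ 2 := by
    have e1 := add_mul (21 * c * (1 / (m : ℝ)))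
      (√(((K - k) / 2) ^ 2 + (n₀ * (n₀ + c) ^ 2 + K ^ 2) * (1 / (m : ℝ)))) ((m : ℝ) ^ 2)
    rw [e1]
    exact hA.trans (hF1.trans (add_le_add hC hB))
  exact le_of_mul_le_mul_right hfin hm2

/-- If the representation function is between `k` and `K` from some point on, then `4 k ≤ (K - k) ^ 2`. -/
theorem gap (χ : ℕ → ℝ) (h01 : ∀ a, χ a = 0 ∨ χ a = 1) (n₀ : ℕ) (k K : ℝ) (hk : 0 ≤ k)
    (h : ∀ n, n₀ ≤ n → k ≤ rr χ n ∧ rr χ n ≤ K) : 4 * k ≤ (K - k) ^ 2 := by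
  have hkK : k ≤ K := (h n₀ le_rfl).1.trans (h n₀ le_rfl).2
  have hx := tendsto_one_div_atTop_nhds_zero_nat (𝕜 := ℝ)
  have hL : Tendsto (fun m : ℕ => √(k * (1 - (n₀ + 1) * (1 / (m : ℝ))))) atTop
      (𝓝 (√(k * (1 - (n₀ + 1) * 0)))) := by
    have hc : Continuous (fun x : ℝ => √(k * (1 - (n₀ + 1) * x))) := by fun_prop
    exact (hc.tendsto 0).comp hx
  have hR : Tendsto (fun m : ℕ => 21 * ((k + K) / 2) * (1 / (m : ℝ)) +
      √(((K - k) / 2) ^ 2 + (n₀ * (n₀ + (k + K) / 2) ^ 2 + K ^ 2) * (1 / (m : ℝ)))) atTop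
      (𝓝 (21 * ((k + K) / 2) * 0 + √(((K - k) / 2) ^ 2 + (n₀ * (n₀ + (k + K) / 2) ^ 2 + K ^ 2) * 0))) := by
    have hc : Continuous (fun x : ℝ => 21 * ((k + K) / 2) * x +
        √(((K - k) / 2) ^ 2 + (n₀ * (n₀ + (k + K) / 2) ^ 2 + K ^ 2) * x)) := by fun_prop
    exact (hc.tendsto 0).comp hx
  have hle := le_of_tendsto_of_tendsto hL hR (by
    filter_upwards [eventually_ge_atTop (max 2 n₀)] with m hm
    exact one_param χ h01 n₀ k K hk h m ((le_max_left _ _).trans hm) ((le_max_right _ _).trans hm))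
  have hD : 0 ≤ (K - k) / 2 := by linarith
  rw [mul_zero, sub_zero, mul_one, mul_zero, mul_zero, add_zero, zero_add, Real.sqrt_sq hD] at hle
  have h2 : k ≤ ((K - k) / 2) ^ 2 := by
    have := (Real.sqrt_le_left hD).1 hle
    exact this
  nlinarith

end Pool.Agent.Q54.EF
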