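import Mathlib

/-!
# Reduction of positive definite ternary forms of determinant three

The adjoint form of such a form is equivalent to `3 x² + 3 y² + z²`, or its values are not `1` modulo `3`.
-/

set_option autoImplicit false

namespace Pool.Agent.Q54.TF

/-- A Gram matrix `[[a,b,c],[b,d,e],[c,e,f]]`. -/
structure G where
  a : ℤ
  b : ℤ
  c : ℤ
  d : ℤ
  e : ℤ
  f : ℤ

/-- second principal minor -/
def D2 (g : G) : ℤ := g.a * g.d - g.b ^ 2

/-- determinant -/
def det (g : G) : ℤ :=
  g.a * g.d * g.f + 2 * g.b * g.c * g.e - g.a * g.e ^ 2 - g.b ^ 2 * g.f - g.c ^ 2 * g.d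

/-- adjoint form -/
def A (g : G) (u v w : ℤ) : ℤ :=
  u ^ 2 * (g.d * g.f - g.e ^ 2) + v ^ 2 * (g.a * g.f - g.c ^ 2) + w ^ 2 * (g.a * g.d - g.b ^ 2)
    + 2 * u * v * (g.c * g.e - g.b * g.f) + 2 * u * w * (g.b * g.e - g.c * g.d)
    + 2 * v * w * (g.b * g.c - g.a * g.e)

/-- primitive triples -/
def Prim (u v w : ℤ) : Prop := ∃ r s t : ℤ, r * u + s * v + t * w = 1

/-- primitive values of the adjoint form -/
def Rep (g : G) (n : ℤ) : Prop := ∃ u v w : ℤ, Prim u v w ∧ A g u v w = n

/-- nearest integer to `u / v` (for `v > 0`) -/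
def rnd (u v : ℤ) : ℤ := (2 * u + v) / (2 * v)

theorem rnd_spec (u v : ℤ) (hv : 0 < v) : |2 * (u - rnd u v * v)| ≤ v := by
  unfold rnd
  have h1 := Int.mul_ediv_add_emod (2 * u + v) (2 * v)
  have h2 := Int.emod_nonneg (2 * u + v) (show (2 * v : ℤ) ≠ 0 by omega)
  have h3 := Int.emod_lt_of_pos (2 * u + v) (show (0 : ℤ) < 2 * v by omega)
  rw [abs_le]
  constructor <;> nlinarith

/-- subtract `t` times the first basis vector from the second -/
def red12 (g : G) (t : ℤ) : G :=
  ⟨g.a, g.b - t * g.a, g.c, g.d - 2 * t * g.b + t ^ 2 * g.a, g.e - t * g.c, g.f⟩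

/-- subtract `t` times the second basis vector from the third -/
def red23 (g : G) (t : ℤ) : G :=
  ⟨g.a, g.b, g.c - t * g.b, g.d, g.e - t * g.d, g.f - 2 * t * g.e + t ^ 2 * g.d⟩

/-- subtract `t` times the first basis vector from the third -/
def red13 (g : G) (t : ℤ) : G :=
  ⟨g.a, g.b, g.c - t * g.a, g.d, g.e - t * g.b, g.f - 2 * t * g.c + t ^ 2 * g.a⟩

/-- exchange the first two basis vectors -/
def swap12 (g : G) : G := ⟨g.d, g.b, g.e, g.a, g.c, g.f⟩

/-- exchange the last two basis vectors -/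
def swap23 (g : G) : G := ⟨g.a, g.c, g.b, g.f, g.e, g.d⟩

theorem rep_red12 {g : G} (t : ℤ) {n : ℤ} (h : Rep g n) : Rep (red12 g t) n := by
  obtain ⟨u, v, w, ⟨r, s, q, h1⟩, h2⟩ := h
  refine ⟨u, v - t * u, w, ⟨r + s * t, s, q, by linear_combination h1⟩, ?_⟩
  rw [← h2]
  simp only [A, red12]
  ring

theorem rep_red23 {g : G} (t : ℤ) {n : ℤ} (h : Rep g n) : Rep (red23 g t) n := by
  obtain ⟨u, v, w, ⟨r, s, q, h1⟩, h2⟩ := h
  refine ⟨u, v, w - t * v, ⟨r, s + q * t, q, by linear_combination h1⟩, ?_⟩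
  rw [← h2]
  simp only [A, red23]
  ring

theorem rep_red13 {g : G} (t : ℤ) {n : ℤ} (h : Rep g n) : Rep (red13 g t) n := by
  obtain ⟨u, v, w, ⟨r, s, q, h1⟩, h2⟩ := h
  refine ⟨u, v, w - t * u, ⟨r + q * t, s, q, by linear_combination h1⟩, ?_⟩
  rw [← h2]
  simp only [A, red13]
  ring

theorem rep_swap12 {g : G} {n : ℤ} (h : Rep g n) : Rep (swap12 g) n := by
  obtain ⟨u, v, w, ⟨r, s, q, h1⟩, h2⟩ := h
  refine ⟨v, u, w, ⟨s, r, q, by linear_combination h1⟩, ?_⟩
  rw [← h2]
  simp only [A, swap12]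
  ring

theorem rep_swap23 {g : G} {n : ℤ} (h : Rep g n) : Rep (swap23 g) n := by
  obtain ⟨u, v, w, ⟨r, s, q, h1⟩, h2⟩ := h
  refine ⟨u, w, v, ⟨r, q, s, by linear_combination h1⟩, ?_⟩
  rw [← h2]
  simp only [A, swap23]
  ring

/-- the final forms -/
def Final (g : G) : Prop :=
  g = ⟨1, 0, 0, 1, 0, 3⟩ ∨ g = ⟨1, 0, 0, 2, 1, 2⟩ ∨ g = ⟨1, 0, 0, 2, -1, 2⟩

theorem sq_of_abs {x y : ℤ} (h : |2 * x| ≤ y) : 4 * x ^ 2 ≤ y ^ 2 := by
  have h1 : (2 * x) ^ 2 ≤ y ^ 2 := by
    rw [← sq_abs (2 * x)]
    exact pow_le_pow_left₀ (abs_nonneg _) h 2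
  nlinarith

theorem bounds {a D : ℤ} (ha : 0 < a) (i1 : a ^ 2 ≤ 2 * D) (i2 : D ^ 2 ≤ 6 * a) : a ≤ 2 ∧ D ≤ 3 := by
  have i3 : a ≤ 2 := by
    by_contra hc
    push Not at hc
    have h3 : 3 ≤ a := by omega
    have h4 : a ^ 2 * a ^ 2 ≤ (2 * D) * (2 * D) := mul_le_mul i1 i1 (by positivity) (by nlinarith)
    have h5 : 9 ≤ a ^ 2 := by nlinarith
    have h6 : 27 ≤ a * a ^ 2 := by nlinarith
    have h7 : 27 * a ≤ (a * a ^ 2) * a := mul_le_mul_of_nonneg_right h6 ha.le
    have h8 : (a * a ^ 2) * a = a ^ 2 * a ^ 2 := by ring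
    have h9 : (2 * D) * (2 * D) = 4 * D ^ 2 := by ring
    rw [h8] at h7
    rw [h9] at h4
    linarith
  refine ⟨i3, ?_⟩
  by_contra hc
  push Not at hc
  have h3 : 4 ≤ D := by omega
  have h4 : 16 ≤ D ^ 2 := by nlinarith
  linarith

theorem reduce : ∀ (N : ℕ) (g : G), 0 < g.a → 0 < D2 g → det g = 3 → (g.a * D2 g).toNat ≤ N →
    ∃ g' : G, Final g' ∧ ∀ n, Rep g n → Rep g' n := by
  intro N
  induction N using Nat.strong_induction_on with
  | _ N ih =>
  intro g ha hD hdet hN
  -- size reduction of the second vector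
  set t := rnd g.b g.a with ht
  set g1 := red12 g t with hg1
  have a1 : g1.a = g.a := rfl
  have D1 : D2 g1 = D2 g := by simp only [hg1, red12, D2]; ring
  have det1 : det g1 = 3 := by rw [← hdet]; simp only [hg1, red12, det]; ring
  have b1 : |2 * g1.b| ≤ g1.a := rnd_spec g.b g.a ha
  have hb1sq := sq_of_abs b1
  have hd1 : 0 < g1.d := by
    have h1 : 0 < g1.a * g1.d - g1.b ^ 2 := by
      have := D1
      unfold D2 at this
      rw [this]
      exact hD
    by_contra hc
    push Not at hc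
    have : 0 < g1.a := ha
    nlinarith [sq_nonneg g1.b]
  have hpot0 : 0 < g.a * D2 g := mul_pos ha hD
  by_cases c1 : 4 * g1.d < 3 * g1.a
  · -- swap the first two vectors
    have hlt : ((swap12 g1).a * D2 (swap12 g1)).toNat < N := by
      have e1 : D2 (swap12 g1) = D2 g := by rw [← D1]; simp only [swap12, D2]; ring
      have e2 : (swap12 g1).a = g1.d := rfl
      rw [e1, e2]
      have h1 : g1.d * D2 g < g.a * D2 g := by
        apply mul_lt_mul_of_pos_right _ hD
        rw [a1] at c1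
        linarith
      have h2 : 0 < g1.d * D2 g := mul_pos hd1 hD
      omega
    obtain ⟨g', h1, h2⟩ := ih _ hlt (swap12 g1) hd1 (by
      have e1 : D2 (swap12 g1) = D2 g := by rw [← D1]; simp only [swap12, D2]; ring
      rw [e1]; exact hD) (by rw [← det1]; simp only [swap12, det]; ring) le_rfl
    exact ⟨g', h1, fun n hn => h2 n (rep_swap12 (rep_red12 t hn))⟩
  · -- size reduction of the third vector
    set t2 := rnd (g1.e * g1.a - g1.b * g1.c) (D2 g1) with ht2
    set g2 := red23 g1 t2 with hg2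
    set t3 := rnd g2.c g2.a with ht3
    set g3 := red13 g2 t3 with hg3
    have a3 : g3.a = g.a := rfl
    have b3 : g3.b = g1.b := rfl
    have d3 : g3.d = g1.d := rfl
    have D3 : D2 g3 = D2 g := by rw [← D1]; simp only [hg3, hg2, red13, red23, D2]
    have det3 : det g3 = 3 := by
      rw [← det1]; simp only [hg3, hg2, red13, red23, det]; ring
    have c3 : |2 * g3.c| ≤ g3.a := rnd_spec g2.c g2.a ha
    have K3 : |2 * (g3.e * g3.a - g3.b * g3.c)| ≤ D2 g := by
      have h1 := rnd_spec (g1.e * g1.a - g1.b * g1.c) (D2 g1) (by rw [D1]; exact hD)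
      rw [← ht2] at h1
      have e1 : g3.e * g3.a - g3.b * g3.c = g1.e * g1.a - g1.b * g1.c - t2 * D2 g1 := by
        simp only [hg3, hg2, red13, red23, D2]
        ring
      rw [e1, ← D1]
      exact h1
    have schur : D2 g3 * (g3.a * g3.f - g3.c ^ 2) = g3.a * det g3 + (g3.e * g3.a - g3.b * g3.c) ^ 2 := by
      simp only [D2, det]
      ring
    rw [D3, det3] at schur
    have hpos : 0 < g3.a * g3.f - g3.c ^ 2 := by
      by_contra hc
      push Not at hc
      have : 0 < g3.a := ha
      nlinarith [sq_nonneg (g3.e * g3.a - g3.b * g3.c)]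
    by_cases c2 : 4 * (g3.a * g3.f - g3.c ^ 2) < 3 * D2 g
    · have e1 : D2 (swap23 g3) = g3.a * g3.f - g3.c ^ 2 := rfl
      have e2 : (swap23 g3).a = g.a := rfl
      have hlt : ((swap23 g3).a * D2 (swap23 g3)).toNat < N := by
        rw [e1, e2]
        have h1 : g.a * (g3.a * g3.f - g3.c ^ 2) < g.a * D2 g := by
          apply mul_lt_mul_of_pos_left _ ha
          linarith
        have h2 : 0 < g.a * (g3.a * g3.f - g3.c ^ 2) := mul_pos ha hpos
        omega
      obtain ⟨g', h1, h2⟩ := ih _ hlt (swap23 g3) ha (by rw [e1]; exact hpos)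
        (by rw [← det3]; simp only [swap23, det]; ring) le_rfl
      exact ⟨g', h1, fun n hn => h2 n (rep_swap23 (rep_red13 t3 (rep_red23 t2 (rep_red12 t hn))))⟩
    · -- reduced
      refine ⟨g3, ?_, fun n hn => rep_red13 t3 (rep_red23 t2 (rep_red12 t hn))⟩
      push Not at c1 c2
      rw [a1] at c1 b1 hb1sq
      rw [a3] at c3 schur c2
      rw [a3, b3] at K3
      rw [b3] at schur
      have hKsq := sq_of_abs K3
      have hDef : D2 g = g.a * g1.d - g1.b ^ 2 := by rw [← D1]; rfl
      have hdetx : g.a * g1.d * g3.f + 2 * g1.b * g3.c * g3.e - g.a * g3.e ^ 2 - g1.b ^ 2 * g3.f -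
          g3.c ^ 2 * g1.d = 3 := by
        rw [← det3]
        rfl
      have hG : g3 = ⟨g.a, g1.b, g3.c, g1.d, g3.e, g3.f⟩ := rfl
      rw [hG]
      generalize g3.c = c at *
      generalize g3.e = e at *
      generalize g3.f = f at *
      generalize g1.b = b at *
      generalize g1.d = d at *
      generalize D2 g = D at *
      generalize g.a = a at *
      have i1 : a ^ 2 ≤ 2 * D := by nlinarith
      have i2 : D ^ 2 ≤ 6 * a := by nlinarith
      obtain ⟨i3, i4⟩ := bounds ha i1 i2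
      rw [abs_le] at b1 c3 K3
      have ha2 : a = 1 ∨ a = 2 := by omega
      have hD3 : D = 1 ∨ D = 2 ∨ D = 3 := by omega
      unfold Final
      rcases ha2 with rfl | rfl
      · have hb0 : b = 0 := by omega
        have hc0 : c = 0 := by omega
        subst hb0 hc0
        have hd : d = D := by linarith
        subst hd
        rcases hD3 with rfl | rfl | rfl
        · have he : e = 0 := by omega
          subst he
          have hf : f = 3 := by linarith
          subst hf
          left; rfl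
        · have he : e = -1 ∨ e = 0 ∨ e = 1 := by omega
          rcases he with rfl | rfl | rfl
          · have hf : f = 2 := by linarith
            subst hf
            right; right; rfl
          · omega
          · have hf : f = 2 := by linarith
            subst hf
            right; left; rfl
        · omega
      · exfalso
        have hb : b = -1 ∨ b = 0 ∨ b = 1 := by omega
        have hc : c = -1 ∨ c = 0 ∨ c = 1 := by omega
        rcases hD3 with rfl | rfl | rfl
        · rcases hb with rfl | rfl | rfl <;> omega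
        · rcases hb with rfl | rfl | rfl <;> omega
        · have hd : d = 2 := by
            rcases hb with rfl | rfl | rfl <;> omega
          subst hd
          have hK : e * 2 - b * c = -1 ∨ e * 2 - b * c = 0 ∨ e * 2 - b * c = 1 := by omega
          rcases hK with hK | hK | hK
          · rw [hK] at schur
            rcases hc with rfl | rfl | rfl <;> omega
          · rw [hK] at schur
            rcases hc with rfl | rfl | rfl <;> omega
          · rw [hK] at schur
            rcases hc with rfl | rfl | rfl <;> omega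

/-- If the adjoint form has a primitive value which is `1` modulo `3`, then all its primitive values are
primitive values of `3 x² + 3 y² + z²`. -/
theorem class_one {g : G} (ha : 0 < g.a) (hD : 0 < D2 g) (hdet : det g = 3) {k : ℤ} (hk : Rep g k)
    (hk1 : k % 3 = 1) {n : ℤ} (hn : Rep g n) :
    ∃ u v w : ℤ, Prim u v w ∧ 3 * u ^ 2 + 3 * v ^ 2 + w ^ 2 = n := by
  obtain ⟨g', hf, h⟩ := reduce _ g ha hD hdet le_rfl
  rcases hf with rfl | rfl | rfl
  · obtain ⟨u, v, w, h1, h2⟩ := h n hn
    refine ⟨u, v, w, h1, ?_⟩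
    rw [← h2]
    simp only [A]
    ring
  · exfalso
    obtain ⟨u, v, w, _, h2⟩ := h k hk
    simp only [A] at h2
    have h3 : k = 3 * (u ^ 2) + 2 * (v + w) ^ 2 - 6 * (v * w) := by rw [← h2]; ring
    have h4 : (v + w) ^ 2 % 3 = 0 ∨ (v + w) ^ 2 % 3 = 1 := by
      generalize v + w = x
      have : x % 3 = 0 ∨ x % 3 = 1 ∨ x % 3 = 2 := by omega
      rcases this with h | h | h <;> simp [pow_two, Int.mul_emod, h]
    omega
  · exfalso
    obtain ⟨u, v, w, _, h2⟩ := h k hk
    simp only [A] at h2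
    have h3 : k = 3 * (u ^ 2) + 2 * (v - w) ^ 2 + 6 * (v * w) := by rw [← h2]; ring
    have h4 : (v - w) ^ 2 % 3 = 0 ∨ (v - w) ^ 2 % 3 = 1 := by
      generalize v - w = x
      have : x % 3 = 0 ∨ x % 3 = 1 ∨ x % 3 = 2 := by omega
      rcases this with h | h | h <;> simp [pow_two, Int.mul_emod, h]
    omega

end Pool.Agent.Q54.TF
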