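import Mathlib
import Pool.Agent.Q54.TF1

/-!
# Representations by `x² + y² + 3 z²` with odd `z`
-/

set_option autoImplicit false

namespace Pool.Agent.Q54.TF

/-- case `3 ∤ m` -/
theorem caseA {m : ℕ} (hm : 0 < m) (h3 : ¬ 3 ∣ m) :
    ∃ u v z : ℤ, Odd z ∧ u ^ 2 + v ^ 2 + 3 * z ^ 2 = 4 * m := by
  have : NeZero (4 * m * 3) := ⟨by omega⟩
  have hcop : Nat.Coprime (4 * m) 3 := by
    rw [Nat.coprime_comm, Nat.Prime.coprime_iff_not_dvd Nat.prime_three]
    omega
  obtain ⟨r, hr1, hr2⟩ := Nat.chineseRemainder hcop (4 * m - 1) 1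
  have hrc : Nat.Coprime r (4 * m * 3) := by
    apply Nat.Coprime.mul_right
    · have h5 : Nat.gcd (4 * m) r = Nat.gcd (4 * m) (4 * m - 1) := by
        have := hr1.gcd_eq
        rwa [Nat.gcd_comm r, Nat.gcd_comm (4 * m - 1)] at this
      have h6 : Nat.Coprime (4 * m) (4 * m - 1) := by
        have := Nat.coprime_self_sub_right (n := 4 * m) (m := 1) (by omega)
        exact this.2 (Nat.coprime_one_right _)
      exact Nat.Coprime.symm (h5.trans h6)
    · rw [Nat.coprime_comm, Nat.Prime.coprime_iff_not_dvd Nat.prime_three]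
      intro h
      have h1 : r % 3 = 1 := hr2
      omega
  obtain ⟨p, hpm, hp, hpr⟩ := Nat.forall_exists_prime_gt_and_eq_mod
    (a := (r : ZMod (4 * m * 3))) ((ZMod.isUnit_iff_coprime r _).2 hrc) (12 * m + 2)
  have hpr' : p ≡ r [MOD 4 * m * 3] := (ZMod.natCast_eq_natCast_iff p r _).1 hpr
  have hp3 : p % 3 = 1 := (Nat.ModEq.of_mul_left (4 * m) hpr').trans hr2
  have hp4m : p ≡ 4 * m - 1 [MOD 4 * m] := (Nat.ModEq.of_mul_right 3 hpr').trans hr1
  obtain ⟨l, hl⟩ : 4 * m ∣ p + 1 := by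
    have h7 : p + 1 ≡ 4 * m - 1 + 1 [MOD 4 * m] := hp4m.add_right 1
    rw [show 4 * m - 1 + 1 = 4 * m by omega] at h7
    exact (Nat.modEq_zero_iff_dvd).1 (h7.trans (by simp [Nat.ModEq]))
  have hp4 : p % 4 = 3 := by
    have : p + 1 = 4 * (m * l) := by rw [hl]; ring
    omega
  have : Fact p.Prime := ⟨hp⟩
  have hpodd : Odd p := Nat.odd_iff.2 (by omega)
  -- the Jacobi symbols
  have j1 : jacobiSym (-3) p = 1 := by
    rw [jacobiSym.mod_right (-3) hpodd]
    have : p % (4 * (-3 : ℤ).natAbs) = 7 := by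
      norm_num
      omega
    rw [this]
    decide +kernel
  have j2 : jacobiSym (m : ℤ) p = 1 := by
    rw [jacobiSym.mod_right (m : ℤ) hpodd, Int.natAbs_natCast]
    have h8 : p % (4 * m) = 4 * m - 1 := by
      have := hp4m
      unfold Nat.ModEq at this
      rw [this]
      exact Nat.mod_eq_of_lt (by omega)
    rw [h8]
    have h9 : jacobiSym (4 : ℤ) (4 * m - 1) = 1 := by
      have : (4 : ℤ) = 2 ^ 2 := by norm_num
      rw [this]
      apply jacobiSym.sq_one'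
      rw [← Int.isCoprime_iff_gcd_eq_one]
      have : IsCoprime ((2 : ℕ) : ℤ) ((4 * m - 1 : ℕ) : ℤ) := by
        rw [Nat.isCoprime_iff_coprime, Nat.coprime_two_left, Nat.odd_iff]
        omega
      exact_mod_cast this
    have h10 : jacobiSym (4 * (m : ℤ)) (4 * m - 1) = 1 := by
      have : jacobiSym (4 * (m : ℤ)) (4 * m - 1) = jacobiSym 1 (4 * m - 1) := by
        apply jacobiSym.mod_left'
        apply Int.emod_eq_emod_iff_emod_sub_eq_zero.2
        apply Int.emod_eq_zero_of_dvd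
        refine ⟨1, ?_⟩
        push_cast [Nat.cast_sub (show 1 ≤ 4 * m by omega)]
        ring
      rw [this, jacobiSym.one_left]
    rwa [jacobiSym.mul_left, h9, one_mul] at h10
  have j3 : jacobiSym (-3 * (m : ℤ)) p = 1 := by rw [jacobiSym.mul_left, j1, j2, one_mul]
  obtain ⟨t, ht⟩ := ZMod.isSquare_of_jacobiSym_eq_one j3
  -- b with p ∣ 3 b ^ 2 + 4 m
  have h3u : ((3 : ℕ) : ZMod p) ≠ 0 := by
    intro h
    rw [ZMod.natCast_eq_zero_iff] at h
    have := Nat.le_of_dvd (by norm_num) h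
    omega
  obtain ⟨b, hb⟩ : ∃ b : ℤ, (p : ℤ) ∣ 3 * b ^ 2 + 4 * m := by
    refine ⟨((2 * t * ((3 : ℕ) : ZMod p)⁻¹ : ZMod p).val : ℤ), ?_⟩
    rw [← ZMod.intCast_zmod_eq_zero_iff_dvd]
    push_cast
    rw [ZMod.natCast_zmod_val]
    push_cast at ht h3u
    have h11 : (3 : ZMod p) * (2 * t * 3⁻¹) ^ 2 + 4 * m = 4 * (3 : ZMod p)⁻¹ * (t * t) + 4 * m := by
      field_simp
      ring
    rw [h11, ← ht]
    field_simp
    ring
  obtain ⟨c, hc⟩ := hb
  have hl' : (p : ℤ) + 1 = 4 * m * l := by exact_mod_cast hl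
  set g : G := ⟨3 * p, 3 * b, 0, c, 1, l⟩ with hg
  have hp0 : (0 : ℤ) < p := by exact_mod_cast hp.pos
  have hm0 : (0 : ℤ) < m := by exact_mod_cast hm
  have hD : D2 g = 12 * m := by
    simp only [D2, hg]
    linear_combination -3 * hc
  have hdet : det g = 3 := by
    simp only [det, hg]
    linear_combination (-3 * (l : ℤ)) * hc - 3 * hl'
  have hR1 : Rep g (12 * m) := ⟨0, 0, 1, ⟨0, 0, 1, by ring⟩, by
    simp only [A, hg]
    linear_combination -3 * hc⟩
  have hR2 : Rep g (c * l - 1) := ⟨1, 0, 0, ⟨1, 0, 0, by ring⟩, by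
    simp only [A, hg]
    ring⟩
  have hmod : (c * l - 1) % 3 = 1 := by
    have h12 : (p : ℤ) * (c * l - 1) = 3 * (b ^ 2 * l) + 1 := by
      linear_combination (-(l : ℤ)) * hc - hl'
    have hp3' : (p : ℤ) % 3 = 1 := by exact_mod_cast hp3
    have h13 : ((p : ℤ) * (c * l - 1)) % 3 = 1 := by rw [h12]; omega
    rw [Int.mul_emod, hp3', one_mul, Int.emod_emod_of_dvd _ (dvd_refl 3)] at h13
    exact h13
  obtain ⟨u, v, w, ⟨r', s', q', hprim⟩, huvw⟩ := class_one (by simp only [hg]; omega) (by rw [hD]; omega) hdet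
    hR2 hmod hR1
  -- w = 3 z
  have hw3 : (3 : ℤ) ∣ w := by
    have : (3 : ℤ) ∣ w ^ 2 := ⟨4 * m - u ^ 2 - v ^ 2, by linarith⟩
    exact Int.Prime.dvd_pow' Nat.prime_three this
  obtain ⟨z, rfl⟩ := hw3
  refine ⟨u, v, z, ?_, by linarith⟩
  by_contra hz
  rw [Int.not_odd_iff_even] at hz
  obtain ⟨z', hz'⟩ := hz
  have h14 : u ^ 2 + v ^ 2 = 4 * (m - 3 * z' ^ 2) := by
    rw [hz'] at huvw
    linarith
  have huv : Even u ∧ Even v := by
    rcases Int.even_or_odd u with hu | hu <;> rcases Int.even_or_odd v with hv | hv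
    · exact ⟨hu, hv⟩
    · obtain ⟨a, ha⟩ := hu
      obtain ⟨b', hb'⟩ := hv
      rw [ha, hb'] at h14
      ring_nf at h14
      omega
    · obtain ⟨a, ha⟩ := hu
      obtain ⟨b', hb'⟩ := hv
      rw [ha, hb'] at h14
      ring_nf at h14
      omega
    · obtain ⟨a, ha⟩ := hu
      obtain ⟨b', hb'⟩ := hv
      rw [ha, hb'] at h14
      ring_nf at h14
      omega
  obtain ⟨⟨a, ha⟩, ⟨b', hb'⟩⟩ := huv
  have h15 : 2 * (r' * a + s' * b' + 3 * q' * z') = 1 := by
    rw [ha, hb', hz'] at hprim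
    linarith
  omega

/-- case `m ≡ 1` modulo `3` (for the number `3 m`) -/
theorem caseB {m : ℕ} (h3 : m % 3 = 1) :
    ∃ u v z : ℤ, Odd z ∧ u ^ 2 + v ^ 2 + 3 * z ^ 2 = 4 * (3 * m) := by
  have hm : 0 < m := by omega
  have : NeZero (4 * m) := ⟨by omega⟩
  obtain ⟨p, hpm, hp, hpr⟩ := Nat.forall_exists_prime_gt_and_eq_mod
    (a := (-3 : ZMod (4 * m))) (by
      rw [IsUnit.neg_iff]
      have : IsUnit ((3 : ℕ) : ZMod (4 * m)) := by
        rw [ZMod.isUnit_iff_coprime, Nat.Prime.coprime_iff_not_dvd Nat.prime_three]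
        omega
      exact_mod_cast this) (4 * m + 2)
  obtain ⟨l, hl⟩ : 4 * m ∣ p + 3 := by
    rw [← ZMod.natCast_eq_zero_iff]
    push_cast
    rw [hpr]
    ring
  have hp4 : p % 4 = 1 := by
    have : p + 3 = 4 * (m * l) := by rw [hl]; ring
    omega
  have hpne3 : ¬ 3 ∣ p := by
    intro h
    have := (Nat.prime_dvd_prime_iff_eq Nat.prime_three hp).1 h
    omega
  have : Fact p.Prime := ⟨hp⟩
  have hpodd : Odd p := Nat.odd_iff.2 (by omega)
  have j1 : jacobiSym (-1) p = 1 := by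
    rw [jacobiSym.at_neg_one hpodd, ZMod.χ₄_nat_one_mod_four hp4]
  have j2 : jacobiSym (m : ℤ) p = 1 := by
    rw [jacobiSym.mod_right (m : ℤ) hpodd, Int.natAbs_natCast]
    have h8 : p % (4 * m) = (4 * m - 3) := by
      have h9 : (p + 3) % (4 * m) = 0 := Nat.mod_eq_zero_of_dvd ⟨l, hl⟩
      have h10 : 3 < 4 * m := by omega
      have h11 : (p % (4 * m) + 3) % (4 * m) = 0 := by rw [← h9]; simp [Nat.add_mod]
      have h12 : p % (4 * m) < 4 * m := Nat.mod_lt _ (by omega)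
      obtain ⟨k, hk⟩ := Nat.dvd_of_mod_eq_zero h11
      have h13 : k = 1 := by
        have h14 : k ≠ 0 := by rintro rfl; omega
        have h15 : k < 2 := by
          by_contra hc
          push Not at hc
          have : 4 * m * 2 ≤ 4 * m * k := Nat.mul_le_mul_left _ hc
          omega
        omega
      rw [h13] at hk
      omega
    rw [h8]
    have hodd : Odd (4 * m - 3) := by rw [Nat.odd_iff]; omega
    have h9 : jacobiSym (4 : ℤ) (4 * m - 3) = 1 := by
      have : (4 : ℤ) = 2 ^ 2 := by norm_num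
      rw [this]
      apply jacobiSym.sq_one'
      rw [← Int.isCoprime_iff_gcd_eq_one]
      have : IsCoprime ((2 : ℕ) : ℤ) ((4 * m - 3 : ℕ) : ℤ) := by
        rw [Nat.isCoprime_iff_coprime, Nat.coprime_two_left]
        exact hodd
      exact_mod_cast this
    have h10 : jacobiSym (4 * (m : ℤ)) (4 * m - 3) = 1 := by
      have e1 : jacobiSym (4 * (m : ℤ)) (4 * m - 3) = jacobiSym ((3 : ℕ) : ℤ) (4 * m - 3) := by
        apply jacobiSym.mod_left'
        apply Int.emod_eq_emod_iff_emod_sub_eq_zero.2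
        apply Int.emod_eq_zero_of_dvd
        refine ⟨1, ?_⟩
        push_cast [Nat.cast_sub (show 3 ≤ 4 * m by omega)]
        ring
      rw [e1, ← jacobiSym.quadratic_reciprocity_one_mod_four (by omega : (4 * m - 3) % 4 = 1)
        (by decide : Odd 3)]
      have e2 : jacobiSym (((4 * m - 3 : ℕ) : ℤ)) 3 = jacobiSym 1 3 := by
        apply jacobiSym.mod_left'
        omega
      rw [e2, jacobiSym.one_left]
    rwa [jacobiSym.mul_left, h9, one_mul] at h10
  have j3 : jacobiSym (-1 * (m : ℤ)) p = 1 := by rw [jacobiSym.mul_left, j1, j2, one_mul]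
  obtain ⟨t, ht⟩ := ZMod.isSquare_of_jacobiSym_eq_one j3
  obtain ⟨b, hb⟩ : ∃ b : ℤ, (p : ℤ) ∣ b ^ 2 + 4 * m := by
    refine ⟨((2 * t : ZMod p).val : ℤ), ?_⟩
    rw [← ZMod.intCast_zmod_eq_zero_iff_dvd]
    push_cast
    rw [ZMod.natCast_zmod_val]
    push_cast at ht
    linear_combination (-4) * ht
  obtain ⟨c, hc⟩ := hb
  have hl' : (p : ℤ) + 3 = 4 * m * l := by exact_mod_cast hl
  set g : G := ⟨p, b, 0, c, 1, l⟩ with hg
  have hp0 : (0 : ℤ) < p := by exact_mod_cast hp.pos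
  have hm0 : (0 : ℤ) < m := by exact_mod_cast hm
  have hD : D2 g = 4 * m := by
    simp only [D2, hg]
    linear_combination -hc
  have hdet : det g = 3 := by
    simp only [det, hg]
    linear_combination (-(l : ℤ)) * hc - hl'
  have hR1 : Rep g (4 * m) := ⟨0, 0, 1, ⟨0, 0, 1, by ring⟩, by
    simp only [A, hg]
    linear_combination -hc⟩
  have hmod : (4 * (m : ℤ)) % 3 = 1 := by omega
  obtain ⟨u, v, w, ⟨r', s', q', hprim⟩, huvw⟩ := class_one (by simp only [hg]; omega) (by rw [hD]; omega) hdet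
    hR1 hmod hR1
  refine ⟨3 * u, 3 * v, w, ?_, by linarith⟩
  by_contra hz
  rw [Int.not_odd_iff_even] at hz
  obtain ⟨z', hz'⟩ := hz
  have h14 : 3 * (u ^ 2 + v ^ 2) = 4 * (m - z' ^ 2) := by
    rw [hz'] at huvw
    linarith
  have huv : Even u ∧ Even v := by
    rcases Int.even_or_odd u with hu | hu <;> rcases Int.even_or_odd v with hv | hv
    · exact ⟨hu, hv⟩
    · obtain ⟨a, ha⟩ := hu
      obtain ⟨b', hb'⟩ := hv
      rw [ha, hb'] at h14
      ring_nf at h14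
      omega
    · obtain ⟨a, ha⟩ := hu
      obtain ⟨b', hb'⟩ := hv
      rw [ha, hb'] at h14
      ring_nf at h14
      omega
    · obtain ⟨a, ha⟩ := hu
      obtain ⟨b', hb'⟩ := hv
      rw [ha, hb'] at h14
      ring_nf at h14
      omega
  obtain ⟨⟨a, ha⟩, ⟨b', hb'⟩⟩ := huv
  have h15 : 2 * (r' * a + s' * b' + q' * z') = 1 := by
    rw [ha, hb', hz'] at hprim
    linarith
  omega

/-- Every admissible `m`: `4 m = u² + v² + 3 z²` with odd `z`. -/
theorem all : ∀ (m : ℕ), 0 < m → (∀ r : ℕ, 1 ≤ r → ¬ m ≡ 2 * 3 ^ (2 * r - 1) [MOD 3 ^ (2 * r)]) →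
    ∃ u v z : ℤ, Odd z ∧ u ^ 2 + v ^ 2 + 3 * z ^ 2 = 4 * m := by
  intro m
  induction m using Nat.strong_induction_on with
  | _ m ih =>
  intro hm hadm
  by_cases h3 : 3 ∣ m
  · obtain ⟨m', rfl⟩ := h3
    by_cases h9 : 3 ∣ m'
    · obtain ⟨m'', rfl⟩ := h9
      obtain ⟨u, v, z, hz, h⟩ := ih m'' (by omega) (by omega) (by
        intro r hr hcon
        apply hadm (r + 1) (by omega)
        have h1 := Nat.ModEq.mul_left' (c := 9) hcon
        have e1 : 9 * 3 ^ (2 * r) = 3 ^ (2 * (r + 1)) := by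
          rw [show 2 * (r + 1) = 2 * r + 2 by ring, pow_add]
          ring
        have e2 : 9 * (2 * 3 ^ (2 * r - 1)) = 2 * 3 ^ (2 * (r + 1) - 1) := by
          rw [show 2 * (r + 1) - 1 = (2 * r - 1) + 2 by omega, pow_add]
          ring
        rw [e1, e2] at h1
        have e3 : 3 * (3 * m'') = 9 * m'' := by ring
        rw [e3]
        exact h1)
      refine ⟨3 * u, 3 * v, 3 * z, ?_, ?_⟩
      · exact Odd.mul (by decide) hz
      · push_cast
        linear_combination 9 * h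
    · have h1 := hadm 1 le_rfl
      have h2 : m' % 3 = 1 := by
        by_contra hc
        apply h1
        unfold Nat.ModEq
        norm_num
        omega
      obtain ⟨u, v, z, hz, h⟩ := caseB h2
      exact ⟨u, v, z, hz, by push_cast; linarith⟩
  · exact caseA hm h3

/-- the necessary condition -/
theorem necessary : ∀ (r : ℕ), 1 ≤ r → ∀ (x y z : ℤ) (s : ℤ),
    x ^ 2 + y ^ 2 + 6 * z ^ 2 ≠ 3 ^ (2 * r - 1) * (3 * s + 1) := by
  have key : ∀ x y : ℤ, (3 : ℤ) ∣ x ^ 2 + y ^ 2 → (3 : ℤ) ∣ x ∧ (3 : ℤ) ∣ y := by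
    intro x y h
    have hx : x % 3 = 0 ∨ x % 3 = 1 ∨ x % 3 = 2 := by omega
    have hy : y % 3 = 0 ∨ y % 3 = 1 ∨ y % 3 = 2 := by omega
    have h0 : (x ^ 2 + y ^ 2) % 3 = 0 := Int.emod_eq_zero_of_dvd h
    rcases hx with hx | hx | hx <;> rcases hy with hy | hy | hy <;>
      simp [pow_two, Int.add_emod, Int.mul_emod, hx, hy] at h0 ⊢ <;> omega
  intro r hr
  induction r, hr using Nat.le_induction with
  | base =>
    intro x y z s h
    norm_num at h
    obtain ⟨⟨x', rfl⟩, ⟨y', rfl⟩⟩ := key x y ⟨3 * s + 1 - 2 * z ^ 2, by linarith⟩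
    have h2 : 3 * (x' ^ 2 + y' ^ 2) + 2 * z ^ 2 = 3 * s + 1 := by linarith
    have hz : z % 3 = 0 ∨ z % 3 = 1 ∨ z % 3 = 2 := by omega
    have h3 : z ^ 2 % 3 = 0 ∨ z ^ 2 % 3 = 1 := by
      rcases hz with h | h | h <;> simp [pow_two, Int.mul_emod, h]
    omega
  | succ r hr ih =>
    intro x y z s h
    have e1 : (3 : ℤ) ^ (2 * (r + 1) - 1) = 9 * 3 ^ (2 * r - 1) := by
      rw [show 2 * (r + 1) - 1 = (2 * r - 1) + 2 by omega, pow_add]
      ring
    rw [e1] at h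
    obtain ⟨⟨x', rfl⟩, ⟨y', rfl⟩⟩ := key x y ⟨3 * 3 ^ (2 * r - 1) * (3 * s + 1) - 2 * z ^ 2, by linarith⟩
    have h2 : (3 : ℤ) ∣ z := by
      have h3 : (3 : ℤ) ∣ 2 * z ^ 2 := ⟨3 ^ (2 * r - 1) * (3 * s + 1) - x' ^ 2 - y' ^ 2, by linarith⟩
      have h4 : (3 : ℤ) ∣ z ^ 2 := by
        have : IsCoprime (3 : ℤ) 2 := by norm_num
        exact this.dvd_of_dvd_mul_left h3
      exact Int.Prime.dvd_pow' Nat.prime_three h4
    obtain ⟨z', rfl⟩ := h2
    exact ih x' y' z' s (by linarith)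

end Pool.Agent.Q54.TF
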