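import Mathlib

/-!
Sums of at most `n` numbers of the form `2 ^ i * 3 ^ j`: representations of all integers.
-/

set_option autoImplicit false

namespace Pool.Agent.Q54.TS

/-- `m` is of the form `2 ^ i * 3 ^ j` -/
def Smooth (m : ℕ) : Prop := ∃ i j : ℕ, m = 2 ^ i * 3 ^ j

/-- `N` is a sum of at most `n` numbers of the form `2 ^ i * 3 ^ j` (repetitions allowed) -/
def IsSum (n N : ℕ) : Prop := ∃ s : Multiset ℕ, s.card ≤ n ∧ (∀ m ∈ s, Smooth m) ∧ s.sum = N

theorem isSum_mono {n m N : ℕ} (h : n ≤ m) (hN : IsSum n N) : IsSum m N := by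
  obtain ⟨s, h1, h2, h3⟩ := hN
  exact ⟨s, h1.trans h, h2, h3⟩

theorem isSum_zero (n : ℕ) : IsSum n 0 := ⟨0, by simp, by simp, by simp⟩

theorem isSum_add {n N m : ℕ} (hN : IsSum n N) (hm : Smooth m) : IsSum (n + 1) (m + N) := by
  obtain ⟨s, h1, h2, h3⟩ := hN
  refine ⟨m ::ₘ s, by simpa using h1, ?_, by simp [h3]⟩
  intro x hx
  rcases Multiset.mem_cons.1 hx with rfl | h
  · exact hm
  · exact h2 x h

theorem isSum_mul {n N a : ℕ} (hN : IsSum n N) : IsSum n (2 ^ a * N) := by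
  obtain ⟨s, h1, h2, h3⟩ := hN
  refine ⟨s.map (fun x => 2 ^ a * x), by simpa using h1, ?_, ?_⟩
  · intro x hx
    obtain ⟨y, hy, rfl⟩ := Multiset.mem_map.1 hx
    obtain ⟨i, j, rfl⟩ := h2 y hy
    exact ⟨a + i, j, by rw [pow_add, mul_assoc]⟩
  · rw [Multiset.sum_map_mul_left]
    simp [h3]

theorem smooth_pow3 (b : ℕ) : Smooth (3 ^ b) := ⟨0, b, by simp⟩

theorem smooth_pow2 (a : ℕ) : Smooth (2 ^ a) := ⟨a, 0, by simp⟩

/-- trivial bound: binary digits -/
theorem isSum_bin : ∀ (L N : ℕ), N < 2 ^ L → IsSum L N := by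
  intro L
  induction L with
  | zero =>
    intro N hN
    have : N = 0 := by simpa using hN
    rw [this]
    exact isSum_zero 0
  | succ L ih =>
    intro N hN
    by_cases h : N < 2 ^ L
    · exact isSum_mono (Nat.le_succ L) (ih N h)
    · push Not at h
      have h2 : N - 2 ^ L < 2 ^ L := by
        rw [pow_succ] at hN
        omega
      have h3 := isSum_add (ih _ h2) (smooth_pow2 L)
      rwa [Nat.add_sub_cancel' h] at h3

/-- `3 ^ (2 ^ k) ≡ 1 + 2 ^ (k + 2)` modulo `2 ^ (k + 3)` for `k ≥ 1` -/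
theorem pow3 : ∀ k : ℕ, 1 ≤ k → 3 ^ (2 ^ k) ≡ 1 + 2 ^ (k + 2) [MOD 2 ^ (k + 3)] := by
  intro k hk
  induction k, hk using Nat.le_induction with
  | base => decide
  | succ k hk ih =>
    obtain ⟨t, ht⟩ : ∃ t : ℕ, 3 ^ (2 ^ k) = 1 + 2 ^ (k + 2) + 2 ^ (k + 3) * t := by
      have hle : 1 + 2 ^ (k + 2) ≤ 3 ^ (2 ^ k) := by
        -- the congruence and size
        by_contra hcon
        push Not at hcon
        have h1 : 3 ^ (2 ^ k) < 2 ^ (k + 3) := by
          have : 1 + 2 ^ (k + 2) ≤ 2 ^ (k + 3) := by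
            rw [show k + 3 = (k + 2) + 1 by ring, pow_succ 2 (k + 2)]
            have : 1 ≤ 2 ^ (k + 2) := Nat.one_le_two_pow
            omega
          omega
        have h2 : 1 + 2 ^ (k + 2) < 2 ^ (k + 3) := by
          rw [show k + 3 = (k + 2) + 1 by ring, pow_succ 2 (k + 2)]
          have : 4 ≤ 2 ^ (k + 2) := by
            calc 4 = 2 ^ 2 := rfl
              _ ≤ 2 ^ (k + 2) := Nat.pow_le_pow_right (by norm_num) (by omega)
          omega
        have h3 : 3 ^ (2 ^ k) = 1 + 2 ^ (k + 2) := Nat.ModEq.eq_of_lt_of_lt ih h1 h2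
        omega
      obtain ⟨t, ht⟩ := (Nat.modEq_iff_dvd' hle).1 ih.symm
      exact ⟨t, by omega⟩
    have e1 : 3 ^ (2 ^ (k + 1)) = (3 ^ (2 ^ k)) ^ 2 := by
      rw [← pow_mul, pow_succ]
    rw [e1, ht]
    obtain ⟨j, rfl⟩ : ∃ j, k = j + 1 := ⟨k - 1, by omega⟩
    have e2 : (1 + 2 ^ (j + 1 + 2) + 2 ^ (j + 1 + 3) * t) ^ 2 = (1 + 2 ^ (j + 1 + 1 + 2)) +
        2 ^ (j + 1 + 1 + 3) * (2 ^ (j + 1) * (1 + 2 * t) ^ 2 + t) := by ring
    rw [e2]
    exact (Nat.modEq_iff_dvd' (Nat.le_add_right _ _)).2 ⟨_, by rw [Nat.add_sub_cancel_left]⟩ |>.symm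

/-- every residue class `1` or `3` modulo `8` contains a power of `3`, modulo every power of `2` -/
theorem exists_pow3 : ∀ (k r : ℕ), 1 ≤ k → (r % 8 = 1 ∨ r % 8 = 3) →
    ∃ b < 2 ^ k, 3 ^ b ≡ r [MOD 2 ^ (k + 2)] := by
  intro k r hk hr
  induction k, hk using Nat.le_induction with
  | base =>
    rcases hr with h | h
    · exact ⟨0, by norm_num, by unfold Nat.ModEq; norm_num; omega⟩
    · exact ⟨1, by norm_num, by unfold Nat.ModEq; norm_num; omega⟩
  | succ k hk ih =>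
    obtain ⟨b, hb, hbr⟩ := ih
    have hsplit : 3 ^ b ≡ r [MOD 2 ^ (k + 3)] ∨ 3 ^ b + 2 ^ (k + 2) ≡ r [MOD 2 ^ (k + 3)] := by
      unfold Nat.ModEq at hbr ⊢
      have e : 2 ^ (k + 3) = 2 ^ (k + 2) * 2 := by rw [← pow_succ]
      rw [e]
      generalize 3 ^ b = x at *
      generalize 2 ^ (k + 2) = m at *
      rw [Nat.mod_mul, Nat.mod_mul, Nat.mod_mul]
      rcases Nat.eq_zero_or_pos m with hm | hm
      · subst hm
        left
        simpa using hbr
      · have h1 : (x + m) % m = x % m := Nat.add_mod_right x m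
        have h2 : (x + m) / m = x / m + 1 := Nat.add_div_right x hm
        rw [h1, h2, hbr]
        rcases Nat.mod_two_eq_zero_or_one (x / m) with h3 | h3 <;>
        rcases Nat.mod_two_eq_zero_or_one (r / m) with h4 | h4
        · left; rw [h3, h4]
        · right
          have : (x / m + 1) % 2 = 1 := by omega
          rw [this, h4]
        · right
          have : (x / m + 1) % 2 = 0 := by omega
          rw [this, h4]
        · left; rw [h3, h4]
    rcases hsplit with h | h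
    · exact ⟨b, lt_of_lt_of_le hb (Nat.pow_le_pow_right (by norm_num) (Nat.le_succ k)), h⟩
    · refine ⟨b + 2 ^ k, by rw [pow_succ]; omega, ?_⟩
      refine Nat.ModEq.trans ?_ h
      have e3 : 3 ^ (b + 2 ^ k) = 3 ^ b * 3 ^ (2 ^ k) := pow_add _ _ _
      rw [e3]
      refine (Nat.ModEq.mul_left (3 ^ b) (pow3 k hk)).trans ?_
      rw [mul_add, mul_one]
      apply Nat.ModEq.add_left
      -- 3 ^ b * 2 ^ (k + 2) ≡ 2 ^ (k + 2)
      have hodd : 3 ^ b % 2 = 1 := by
        have : Odd (3 ^ b) := Odd.pow (by decide)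
        exact Nat.odd_iff.1 this
      have e : 2 ^ (k + 3) = 2 ^ (k + 2) * 2 := by rw [← pow_succ]
      rw [e, mul_comm (3 ^ b)]
      have : 2 ^ (k + 2) = 2 ^ (k + 2) * 1 := (mul_one _).symm
      conv_rhs => rw [this]
      exact Nat.ModEq.mul_left' _ hodd

/-- one step: a power of `3` removes exactly `B` binary digits at the lower end -/
theorem step {B N : ℕ} (hB : 3 ≤ B) (hN : N % 8 = 1 ∨ N % 8 = 3) (hbig : 2 ^ (2 ^ (B + 2)) ≤ N) :
    ∃ b N' : ℕ, N = 3 ^ b + 2 ^ B * N' ∧ N' % 8 = 1 := by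
  have h8 : 8 ∣ 2 ^ B := by
    obtain ⟨j, rfl⟩ : ∃ j, B = j + 3 := ⟨B - 3, by omega⟩
    exact ⟨2 ^ j, by ring⟩
  have hle : 2 ^ B ≤ N := by
    refine le_trans (Nat.pow_le_pow_right (by norm_num) ?_) hbig
    have := Nat.lt_two_pow_self (n := B + 2)
    omega
  have hr : (N - 2 ^ B) % 8 = 1 ∨ (N - 2 ^ B) % 8 = 3 := by
    obtain ⟨j, hj⟩ := h8
    omega
  obtain ⟨b, hb, hbr⟩ := exists_pow3 (B + 1) (N - 2 ^ B) (by omega) hr
  have hb3 : 3 ^ b ≤ N := by
    refine le_trans ?_ hbig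
    calc 3 ^ b ≤ 4 ^ b := Nat.pow_le_pow_left (by norm_num) b
      _ = 2 ^ (2 * b) := by rw [pow_mul]; norm_num
      _ ≤ 2 ^ (2 ^ (B + 2)) := by
        apply Nat.pow_le_pow_right (by norm_num)
        have : 2 ^ (B + 2) = 2 * 2 ^ (B + 1) := by ring
        omega
  have h1 : 3 ^ b + 2 ^ B ≡ N [MOD 2 ^ (B + 1 + 2)] := by
    have := Nat.ModEq.add_right (2 ^ B) hbr
    rwa [Nat.sub_add_cancel hle] at this
  have e : 2 ^ (B + 1 + 2) = 2 ^ B * 8 := by ring
  rw [e] at h1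
  have h2 : (2 ^ B * 8 : ℤ) ∣ (N : ℤ) - (3 ^ b + 2 ^ B : ℤ) := by
    have := (Nat.modEq_iff_dvd.1 h1)
    push_cast at this
    exact this
  obtain ⟨t, ht⟩ := h2
  have h3 : (N : ℤ) - 3 ^ b = 2 ^ B * (1 + 8 * t) := by linarith
  have hpos : (0 : ℤ) ≤ 1 + 8 * t := by
    have h4 : (0 : ℤ) ≤ (N : ℤ) - 3 ^ b := by
      have : ((3 ^ b : ℕ) : ℤ) ≤ N := by exact_mod_cast hb3
      push_cast at this
      linarith
    rw [h3] at h4
    have h5 : (0 : ℤ) < 2 ^ B := by positivity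
    by_contra hcon
    push Not at hcon
    nlinarith
  have ht0 : 0 ≤ t := by omega
  obtain ⟨u, rfl⟩ := Int.eq_ofNat_of_zero_le ht0
  refine ⟨b, 1 + 8 * u, ?_, by omega⟩
  zify
  linarith

theorem phase {B R : ℕ} (hB : 3 ≤ B) (hR : ∀ M < 2 ^ (2 ^ (B + 2)), IsSum R M) :
    ∀ (s N : ℕ), (N % 8 = 1 ∨ N % 8 = 3) → N < 2 ^ (2 ^ (B + 2) + s * B) → IsSum (s + R) N := by
  intro s
  induction s with
  | zero =>
    intro N _ hN
    rw [zero_mul, add_zero] at hN
    exact isSum_mono (by omega) (hR N hN)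
  | succ s ih =>
    intro N hN8 hN
    by_cases h : N < 2 ^ (2 ^ (B + 2))
    · exact isSum_mono (by omega) (hR N h)
    · push Not at h
      obtain ⟨b, N', h1, h2⟩ := step hB hN8 h
      have h3 : N' < 2 ^ (2 ^ (B + 2) + s * B) := by
        have h4 : 2 ^ B * N' < 2 ^ B * 2 ^ (2 ^ (B + 2) + s * B) := by
          calc 2 ^ B * N' ≤ N := by rw [h1]; exact Nat.le_add_left _ _
            _ < 2 ^ (2 ^ (B + 2) + (s + 1) * B) := hN
            _ = 2 ^ B * 2 ^ (2 ^ (B + 2) + s * B) := by rw [← pow_add]; congr 1; ring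
        exact lt_of_mul_lt_mul_left h4 (Nat.zero_le _)
      have h5 := isSum_add (isSum_mul (a := B) (ih N' (Or.inl h2) h3)) (smooth_pow3 b)
      rw [← h1] at h5
      exact isSum_mono (by omega) h5

/-- the same for all integers, with one additional term -/
theorem phase_all {B R : ℕ} (hB : 3 ≤ B) (hR : ∀ M < 2 ^ (2 ^ (B + 2)), IsSum R M) (s N : ℕ)
    (hN : N < 2 ^ (2 ^ (B + 2) + s * B)) : IsSum (s + 1 + R) N := by
  rcases Nat.eq_zero_or_pos N with rfl | hpos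
  · exact isSum_zero _
  obtain ⟨a, m, hm, rfl⟩ := Nat.exists_eq_two_pow_mul_odd hpos.ne'
  have hm1 : m < 2 ^ (2 ^ (B + 2) + s * B) := by
    refine lt_of_le_of_lt ?_ hN
    exact Nat.le_mul_of_pos_left m (by positivity)
  apply isSum_mul
  have hmo := Nat.odd_iff.1 hm
  have h8 : m % 8 = 1 ∨ m % 8 = 3 ∨ m % 8 = 5 ∨ m % 8 = 7 := by omega
  rcases h8 with h | h | h | h
  · exact isSum_mono (by omega) (phase hB hR s m (Or.inl h) hm1)
  · exact isSum_mono (by omega) (phase hB hR s m (Or.inr h) hm1)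
  · have h2 := isSum_add (phase hB hR s (m - 2) (Or.inr (by omega)) (by omega)) (smooth_pow2 1)
    rw [pow_one, Nat.add_sub_cancel' (by omega)] at h2
    exact isSum_mono (by omega) h2
  · have h2 := isSum_add (phase hB hR s (m - 4) (Or.inr (by omega)) (by omega)) (smooth_pow2 2)
    rw [show 2 ^ 2 = 4 by norm_num, Nat.add_sub_cancel' (by omega)] at h2
    exact isSum_mono (by omega) h2

theorem doubling : ∀ B : ℕ, 7 ≤ B → ∃ R : ℕ, (R : ℝ) ≤ 2 ^ (B + 2) / ((B : ℝ) - 3) + 512 ∧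
    ∀ M < 2 ^ (2 ^ (B + 2)), IsSum R M := by
  intro B hB
  induction B, hB using Nat.le_induction with
  | base =>
    refine ⟨512, by norm_num, fun M hM => isSum_bin 512 M ?_⟩
    simpa using hM
  | succ B hB ih =>
    obtain ⟨R, hR1, hR2⟩ := ih
    refine ⟨2 ^ (B + 2) / B + 1 + 1 + R, ?_, fun M hM => ?_⟩
    · have hBr : (7 : ℝ) ≤ B := by exact_mod_cast hB
      have h1 : ((2 ^ (B + 2) / B : ℕ) : ℝ) ≤ 2 ^ (B + 2) / (B : ℝ) := by
        have := Nat.cast_div_le (α := ℝ) (m := 2 ^ (B + 2)) (n := B)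
        push_cast at this
        exact this
      have h2 : (2 : ℝ) * B * (B - 2) * (B - 3) ≤ 2 ^ (B + 2) := by
        have key : ∀ j : ℕ, 2 * ((j + 7) * (j + 5) * (j + 4)) ≤ 2 ^ (j + 9) := by
          intro j
          induction j with
          | zero => norm_num
          | succ j ih =>
            rw [show j + 1 + 9 = (j + 9) + 1 by ring, pow_succ]
            have h5 : (j + 8) * (j + 6) ≤ 2 * ((j + 7) * (j + 4)) := by nlinarith
            have h6 := Nat.mul_le_mul_left (2 * (j + 5)) h5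
            have e1 : 2 * ((j + 1 + 7) * (j + 1 + 5) * (j + 1 + 4)) = 2 * (j + 5) * ((j + 8) * (j + 6)) := by ring
            have e2 : 2 * (j + 5) * (2 * ((j + 7) * (j + 4))) = 2 * ((j + 7) * (j + 5) * (j + 4)) * 2 := by ring
            rw [e1]
            refine h6.trans ?_
            rw [e2]
            exact Nat.mul_le_mul_right 2 ih
        obtain ⟨j, rfl⟩ : ∃ j, B = j + 7 := ⟨B - 7, by omega⟩
        have h3 : (2 : ℝ) * ((j + 7) * (j + 5) * (j + 4)) ≤ 2 ^ (j + 9) := by exact_mod_cast key j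
        have e : (2 : ℝ) ^ (j + 7 + 2) = 2 ^ (j + 9) := by norm_num
        rw [e]
        push_cast
        refine le_trans (le_of_eq (by ring)) h3
      have h3 : (2 : ℝ) ^ (B + 2) / B + 2 + 2 ^ (B + 2) / ((B : ℝ) - 3) ≤ 2 ^ (B + 1 + 2) / ((B : ℝ) + 1 - 3) := by
        have e : (2 : ℝ) ^ (B + 1 + 2) = 2 * 2 ^ (B + 2) := by ring
        rw [e]
        generalize (2 : ℝ) ^ (B + 2) = Q at *
        have hb3 : (0 : ℝ) < B - 3 := by linarith
        have hb2 : (0 : ℝ) < B - 2 := by linarith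
        have hb : (0 : ℝ) < B := by linarith
        have e2 : (B : ℝ) + 1 - 3 = B - 2 := by ring
        rw [e2, div_add' _ _ _ hb.ne', div_add_div _ _ hb.ne' hb3.ne', div_le_div_iff₀ (by positivity) hb2]
        -- ((Q + 2 B)(B - 3) + B Q)(B - 2) ≤ 2 Q (B (B - 3))
        have hQ : 0 ≤ Q := le_trans (by positivity) h2
        have h6 : Q ≤ Q * (B - 6) := by nlinarith
        have h7 : 2 * Q * (B * ((B : ℝ) - 3)) - ((Q + 2 * B) * (B - 3) + B * Q) * (B - 2) =
          Q * (B - 6) - 2 * B * (B - 2) * (B - 3) := by ring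
        linarith
      push_cast
      push_cast at h1
      linarith
    · have h1 : 2 ^ (B + 1 + 2) ≤ 2 ^ (B + 2) + (2 ^ (B + 2) / B + 1) * B := by
        have h2 := Nat.lt_div_mul_add (a := 2 ^ (B + 2)) (b := B) (by omega)
        have e : 2 ^ (B + 1 + 2) = 2 ^ (B + 2) + 2 ^ (B + 2) := by ring
        rw [e, add_mul, one_mul]
        omega
      exact phase_all (by omega) hR2 _ M (lt_of_lt_of_le hM (Nat.pow_le_pow_right (by norm_num) h1))

/-- All `N < 2 ^ L` are sums of at most `L / (B - 3) + 514` terms if `2 ^ (B + 2) ≤ L`. -/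
theorem cover (B L : ℕ) (hB : 7 ≤ B) (hL : 2 ^ (B + 2) ≤ L) (n : ℕ)
    (hn : (L : ℝ) / ((B : ℝ) - 3) + 514 ≤ n) : ∀ N < 2 ^ L, IsSum n N := by
  intro N hN
  obtain ⟨R, hR1, hR2⟩ := doubling B hB
  have hBr : (7 : ℝ) ≤ B := by exact_mod_cast hB
  set s := (L - 2 ^ (B + 2)) / B + 1 with hs
  have h1 : L ≤ 2 ^ (B + 2) + s * B := by
    have h2 := Nat.lt_div_mul_add (a := L - 2 ^ (B + 2)) (b := B) (by omega)
    rw [hs, add_mul, one_mul]
    omega
  have h2 := phase_all (by omega) hR2 s N (lt_of_lt_of_le hN (Nat.pow_le_pow_right (by norm_num) h1))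
  refine isSum_mono ?_ h2
  have h3 : ((s + 1 + R : ℕ) : ℝ) ≤ n := by
    refine le_trans ?_ hn
    rw [hs]
    push_cast
    have h4 : (((L - 2 ^ (B + 2)) / B : ℕ) : ℝ) ≤ ((L : ℝ) - 2 ^ (B + 2)) / (B : ℝ) := by
      have := Nat.cast_div_le (α := ℝ) (m := L - 2 ^ (B + 2)) (n := B)
      rw [Nat.cast_sub hL] at this
      push_cast at this
      exact this
    have h5 : ((L : ℝ) - 2 ^ (B + 2)) / (B : ℝ) ≤ ((L : ℝ) - 2 ^ (B + 2)) / ((B : ℝ) - 3) := by
      apply div_le_div_of_nonneg_left _ (by linarith) (by linarith)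
      have : ((2 ^ (B + 2) : ℕ) : ℝ) ≤ L := by exact_mod_cast hL
      push_cast at this
      linarith
    have h6 : ((L : ℝ) - 2 ^ (B + 2)) / ((B : ℝ) - 3) + 2 ^ (B + 2) / ((B : ℝ) - 3) = L / ((B : ℝ) - 3) := by
      rw [← add_div]
      ring_nf
    linarith
  exact_mod_cast h3

end Pool.Agent.Q54.TS
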