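import Mathlib
import Pool.Agent.Q54.TS1

/-!
Counting the sums of at most `n` numbers of the form `2 ^ i * 3 ^ j`.
-/

set_option autoImplicit false

namespace Pool.Agent.Q54.TS

open Finset

/-- If all positive `N < X` are sums of at most `n` terms, then `X` is at most a binomial coefficient. -/
theorem count (n X : ℕ) (h : ∀ N, 0 < N → N < X → IsSum n N) :
    X ≤ ((Nat.log 2 X + 1) ^ 2 + n).choose n := by
  classical
  set T : Finset ℕ := insert 0 ((range (Nat.log 2 X + 1) ×ˢ range (Nat.log 2 X + 1)).image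
    (fun p => 2 ^ p.1 * 3 ^ p.2)) with hT
  have hTc : T.card ≤ (Nat.log 2 X + 1) ^ 2 + 1 := by
    refine (card_insert_le _ _).trans ?_
    apply Nat.add_le_add_right
    refine card_image_le.trans ?_
    rw [card_product, card_range, sq]
  have hsmall : ∀ m, Smooth m → m < X → m ∈ T := by
    rintro m ⟨i, j, rfl⟩ hm
    rw [hT, mem_insert]
    right
    rw [mem_image]
    refine ⟨(i, j), ?_, rfl⟩
    rw [mem_product, mem_range, mem_range]
    have h2 : 2 ^ i ≤ X := le_trans (Nat.le_mul_of_pos_right _ (by positivity)) hm.le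
    have h3 : 2 ^ j ≤ X := by
      calc 2 ^ j ≤ 3 ^ j := Nat.pow_le_pow_left (by norm_num) j
        _ ≤ 2 ^ i * 3 ^ j := Nat.le_mul_of_pos_left _ (by positivity)
        _ ≤ X := hm.le
    have hX : X ≠ 0 := by omega
    constructor
    · exact Nat.lt_succ_of_le ((Nat.le_log_iff_pow_le (by norm_num) hX).2 h2)
    · exact Nat.lt_succ_of_le ((Nat.le_log_iff_pow_le (by norm_num) hX).2 h3)
  have hsub : range X ⊆ (univ : Finset (Sym T n)).image
      (fun s : Sym T n => ((s : Multiset T).map (Subtype.val : T → ℕ)).sum) := by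
    intro N hN
    rw [mem_range] at hN
    have hN2 : IsSum n N := by
      rcases Nat.eq_zero_or_pos N with rfl | h0
      · exact isSum_zero n
      · exact h N h0 hN
    obtain ⟨s, h1, h2, h3⟩ := hN2
    rw [mem_image]
    have h0T : 0 ∈ T := by rw [hT]; exact mem_insert_self _ _
    have hs : ∀ m ∈ s, m ∈ T := by
      intro m hm
      refine hsmall m (h2 m hm) ?_
      refine lt_of_le_of_lt ?_ hN
      rw [← h3]
      exact Multiset.single_le_sum (fun x _ => Nat.zero_le x) m hm
    have hs' : ∀ m ∈ s + Multiset.replicate (n - s.card) 0, m ∈ T := by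
      intro m hm
      rcases Multiset.mem_add.1 hm with h | h
      · exact hs m h
      · rw [Multiset.eq_of_mem_replicate h]
        exact h0T
    set s' : Multiset ℕ := s + Multiset.replicate (n - s.card) 0 with hs'd
    have hcard : (s'.pmap (fun m hm => (⟨m, hm⟩ : T)) hs').card = n := by
      rw [Multiset.card_pmap, hs'd, Multiset.card_add, Multiset.card_replicate]
      omega
    refine ⟨Sym.mk (s'.pmap (fun m hm => (⟨m, hm⟩ : T)) hs') hcard, mem_univ _, ?_⟩
    rw [Sym.coe_mk, Multiset.map_pmap, Multiset.pmap_eq_map, Multiset.map_id', hs'd, Multiset.sum_add, h3]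
    simp
  have hc := card_le_card hsub
  rw [card_range] at hc
  refine hc.trans (card_image_le.trans ?_)
  rw [Finset.card_univ, Sym.card_sym_eq_choose, Fintype.card_coe]
  have h5 : T.card + n - 1 ≤ (Nat.log 2 X + 1) ^ 2 + n := by omega
  exact Nat.choose_le_choose n h5

theorem count_real (n X : ℕ) (hn : 1 ≤ n) (hX : 1 ≤ X) (h : ∀ N, 0 < N → N < X → IsSum n N) :
    Real.log X ≤ n * (1 + Real.log (((Real.log X / Real.log 2 + 1) ^ 2 + n) / n)) := by
  have h1 := count n X h
  have hnr : (0 : ℝ) < n := by exact_mod_cast hn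
  have hXr : (0 : ℝ) < X := by exact_mod_cast hX
  have hl2 : 0 < Real.log 2 := Real.log_pos (by norm_num)
  have hlog : (Nat.log 2 X : ℝ) ≤ Real.log X / Real.log 2 := by
    rw [le_div_iff₀ hl2, ← Real.log_pow]
    apply Real.log_le_log (by positivity)
    have := Nat.pow_log_le_self 2 (x := X) (by omega)
    exact_mod_cast this
  set S := (Nat.log 2 X + 1) ^ 2 + n with hS
  have hSr : (S : ℝ) ≤ (Real.log X / Real.log 2 + 1) ^ 2 + n := by
    rw [hS]
    push_cast
    have : (0 : ℝ) ≤ Nat.log 2 X + 1 := by positivity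
    have h3 := pow_le_pow_left₀ this (add_le_add_left hlog 1) 2
    linarith
  have h2 : (S.choose n : ℝ) ≤ (S : ℝ) ^ n / (n.factorial : ℝ) := Nat.choose_le_pow_div n S
  have h3 : (n : ℝ) ^ n / (n.factorial : ℝ) ≤ Real.exp n := Real.pow_div_factorial_le_exp (n : ℝ) hnr.le n
  have hSpos : (0 : ℝ) < S := by
    rw [hS]
    positivity
  have h4 : (X : ℝ) ≤ (S / n) ^ n * Real.exp n := by
    calc (X : ℝ) ≤ S.choose n := by exact_mod_cast h1
      _ ≤ (S : ℝ) ^ n / (n.factorial : ℝ) := h2
      _ = (S / n) ^ n * ((n : ℝ) ^ n / (n.factorial : ℝ)) := by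
        rw [div_pow]
        field_simp
      _ ≤ (S / n) ^ n * Real.exp n := mul_le_mul_of_nonneg_left h3 (by positivity)
  have h5 := Real.log_le_log hXr h4
  rw [Real.log_mul (by positivity) (Real.exp_ne_zero _), Real.log_exp, Real.log_pow] at h5
  have h6 : Real.log (S / n) ≤ Real.log (((Real.log X / Real.log 2 + 1) ^ 2 + n) / n) := by
    apply Real.log_le_log (by positivity)
    exact div_le_div_of_nonneg_right hSr hnr.le
  nlinarith

end Pool.Agent.Q54.TS
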