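import Mathlib
import Pool.Agent.Q54.TS2

/-!
The least positive integer which is not a sum of at most `n` numbers of the form `2 ^ i * 3 ^ j`.
-/

set_option autoImplicit false

namespace Pool.Agent.Q54.TS

open Finset Filter Topology

/-- the positive integers which are not sums of at most `n` terms -/
def Bad (n : ℕ) : Set ℕ := {N : ℕ | 0 < N ∧ ¬ IsSum n N}

theorem bad_nonempty (n : ℕ) : (Bad n).Nonempty := by
  by_contra hcon
  rw [Set.not_nonempty_iff_eq_empty] at hcon
  have hall : ∀ N, 0 < N → IsSum n N := by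
    intro N hN
    by_contra h
    have : N ∈ Bad n := ⟨hN, h⟩
    rw [hcon] at this
    exact this
  -- compare with powers of 2
  have hlo := isLittleO_pow_const_const_pow_of_one_lt (R := ℝ) (2 * n) (r := 2) (by norm_num)
  have hev := hlo.bound (c := 1 / 2 ^ (n + 2)) (by positivity)
  obtain ⟨M, hM1, hM2⟩ := (hev.and (eventually_ge_atTop (n + 1))).exists
  obtain ⟨m, rfl⟩ : ∃ m, M = m + 1 + n := ⟨M - 1 - n, by omega⟩
  have h1 := count n (2 ^ m) (fun N hN _ => hall N hN)
  rw [Nat.log_pow (by norm_num)] at h1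
  have h2 : ((m + 1) ^ 2 + n).choose n ≤ (m + 1 + n) ^ (2 * n) := by
    refine (Nat.choose_le_pow _ _).trans ?_
    rw [pow_mul]
    apply Nat.pow_le_pow_left
    nlinarith
  have h3 : (2 : ℝ) ^ m ≤ ((m + 1 + n : ℕ) : ℝ) ^ (2 * n) := by exact_mod_cast h1.trans h2
  rw [Real.norm_eq_abs, Real.norm_eq_abs, abs_of_nonneg (by positivity), abs_of_nonneg (by positivity)] at hM1
  have h4 : (2 : ℝ) ^ m ≤ 1 / 2 ^ (n + 2) * 2 ^ (m + 1 + n) := h3.trans hM1
  have h5 : (1 : ℝ) / 2 ^ (n + 2) * 2 ^ (m + 1 + n) = 2 ^ m / 2 := by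
    rw [show m + 1 + n = m + n + 1 by ring, pow_add, pow_add, pow_add]
    field_simp
  rw [h5] at h4
  have h6 : (0 : ℝ) < 2 ^ m := by positivity
  linarith

/-- the least positive integer which is not a sum of at most `n` terms -/
noncomputable def hh (n : ℕ) : ℕ := sInf (Bad n)

theorem hh_mem (n : ℕ) : hh n ∈ Bad n := Nat.sInf_mem (bad_nonempty n)

theorem isSum_of_lt {n N : ℕ} (h : N < hh n) (h0 : 0 < N) : IsSum n N := by
  by_contra hcon
  exact Nat.notMem_of_lt_sInf h ⟨h0, hcon⟩

theorem le_hh {n X : ℕ} (h : ∀ N < X, IsSum n N) : X ≤ hh n := by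
  by_contra hcon
  push Not at hcon
  exact (hh_mem n).2 (h _ hcon)

theorem hh_pos (n : ℕ) : 1 ≤ hh n := (hh_mem n).1

theorem lower : ∀ᶠ n : ℕ in atTop, (n : ℝ) * (Real.log n + Real.log (Real.log n) - 6) ≤ Real.log (hh n) := by
  have ht : Tendsto (fun n : ℕ => Real.log (n : ℝ)) atTop atTop :=
    Real.tendsto_log_atTop.comp tendsto_natCast_atTop_atTop
  have hlo : ∀ᶠ n : ℕ in atTop, 1040 * Real.log (n : ℝ) ≤ n := by
    have h1 := (Real.isLittleO_log_id_atTop.comp_tendsto (tendsto_natCast_atTop_atTop (R := ℝ))).bound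
      (c := 1 / 1040) (by norm_num)
    filter_upwards [h1, ht.eventually_ge_atTop 1] with n h2 h3
    simp only [Function.comp, id, Real.norm_eq_abs] at h2
    rw [abs_of_nonneg (by linarith), abs_of_nonneg (by positivity)] at h2
    linarith
  filter_upwards [hlo, ht.eventually_ge_atTop 14, eventually_ge_atTop 1040] with n h1 h2 h3
  have hnr : (1040 : ℝ) ≤ n := by exact_mod_cast h3
  obtain ⟨n', hn'⟩ : ∃ n', n = n' + 520 := ⟨n - 520, by omega⟩
  have hn'r : (n : ℝ) = n' + 520 := by rw [hn']; push_cast; ring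
  have hn'0 : 520 ≤ n' := by omega
  have hn'1 : (520 : ℝ) ≤ n' := by exact_mod_cast hn'0
  -- choose B
  have hex : ∃ B : ℕ, 7 ≤ B ∧ (B - 3) * n' < 2 ^ (B + 2) := by
    refine ⟨n' + 7, by omega, ?_⟩
    have h4 : ∀ k : ℕ, (k + 4) * k < 2 ^ (k + 9) := by
      intro k
      induction k with
      | zero => norm_num
      | succ k ih =>
        rw [show k + 1 + 9 = (k + 9) + 1 by ring, pow_succ]
        have : k < 2 ^ (k + 9) := lt_of_lt_of_le Nat.lt_two_pow_self (Nat.pow_le_pow_right (by norm_num) (by omega))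
        have h512 : 512 ≤ 2 ^ (k + 9) := by
          calc 512 = 2 ^ 9 := by norm_num
            _ ≤ 2 ^ (k + 9) := Nat.pow_le_pow_right (by norm_num) (by omega)
        rcases Nat.lt_or_ge k 4 with h | h
        · interval_cases k <;> norm_num
        · nlinarith
    have e : n' + 7 - 3 = n' + 4 := by omega
    rw [e]
    exact h4 n'
  obtain ⟨B₀, hB₀, hmin⟩ : ∃ B₀ : ℕ, (7 ≤ B₀ ∧ (B₀ - 3) * n' < 2 ^ (B₀ + 2)) ∧
      ∀ B < B₀, ¬ (7 ≤ B ∧ (B - 3) * n' < 2 ^ (B + 2)) := by
    classical
    exact ⟨Nat.find hex, Nat.find_spec hex, fun B hB => Nat.find_min hex hB⟩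
  have hB7 : B₀ ≠ 7 := by
    rintro rfl
    have := hB₀.2
    norm_num at this
    omega
  obtain ⟨B, rfl⟩ : ∃ B, B₀ = B + 1 := ⟨B₀ - 1, by omega⟩
  have hB : 7 ≤ B := by omega
  have hB1 : 2 ^ (B + 2) ≤ (B - 3) * n' := by
    by_contra hcon
    push Not at hcon
    exact hmin B (by omega) ⟨hB, hcon⟩
  have hB2 : (B - 2) * n' < 2 ^ (B + 3) := by
    have := hB₀.2
    have e : B + 1 - 3 = B - 2 := by omega
    rwa [e] at this
  have hBr : (7 : ℝ) ≤ B := by exact_mod_cast hB
  have hcov := cover B ((B - 3) * n') hB hB1 n (by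
    rw [hn'r]
    have e : (((B - 3) * n' : ℕ) : ℝ) = ((B : ℝ) - 3) * n' := by
      rw [Nat.cast_mul, Nat.cast_sub (by omega)]
      norm_num
    rw [e, mul_div_cancel_left₀ _ (by linarith : (B : ℝ) - 3 ≠ 0)]
    linarith)
  have hle := le_hh hcov
  have hlog : ((B : ℝ) - 3) * n' * Real.log 2 ≤ Real.log (hh n) := by
    have h4 : ((2 : ℝ) ^ ((B - 3) * n')) ≤ hh n := by exact_mod_cast hle
    have h5 := Real.log_le_log (by positivity) h4
    rw [Real.log_pow, Nat.cast_mul, Nat.cast_sub (by omega)] at h5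
    exact_mod_cast h5
  have hl2a : Real.log 2 < 0.6931471808 := Real.log_two_lt_d9
  have hl2b : 0.6931471803 < Real.log 2 := Real.log_two_gt_d9
  -- size of B
  have h4 : Real.log ((B : ℝ) - 2) + Real.log n' ≤ ((B : ℝ) + 3) * Real.log 2 := by
    have h5 : (((B : ℝ) - 2) * n') ≤ 2 ^ (B + 3) := by
      have : (((B - 2) * n' : ℕ) : ℝ) ≤ ((2 ^ (B + 3) : ℕ) : ℝ) := by exact_mod_cast hB2.le
      rw [Nat.cast_mul, Nat.cast_sub (by omega)] at this
      push_cast at this
      exact this
    have h6 := Real.log_le_log (by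
      have : (0 : ℝ) < B - 2 := by linarith
      positivity) h5
    rw [Real.log_mul (by linarith) (by linarith), Real.log_pow] at h6
    push_cast at h6
    exact h6
  have h5 : Real.log n - Real.log 2 ≤ Real.log n' := by
    rw [← Real.log_div (by linarith) (by norm_num)]
    apply Real.log_le_log (by linarith)
    linarith
  have h6 : 0 ≤ Real.log ((B : ℝ) - 2) := Real.log_nonneg (by linarith)
  have h7 : Real.log n ≤ (B : ℝ) - 2 := by
    -- (B + 3) log 2 ≥ log n - log 2, log n ≥ 14
    nlinarith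
  have h8 : Real.log (Real.log n) ≤ Real.log ((B : ℝ) - 2) := Real.log_le_log (by linarith) h7
  have h9 : Real.log n + Real.log (Real.log n) - 5 ≤ ((B : ℝ) - 3) * Real.log 2 := by nlinarith
  have h10 : Real.log (Real.log n) ≤ Real.log n - 1 := Real.log_le_sub_one_of_pos (by linarith)
  have h11 : 0 ≤ Real.log (Real.log n) := Real.log_nonneg (by linarith)
  calc (n : ℝ) * (Real.log n + Real.log (Real.log n) - 6) ≤ n' * (Real.log n + Real.log (Real.log n) - 5) := by
        have h12 : 520 * (Real.log n + Real.log (Real.log n) - 6) ≤ n' := by linarith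
        have h13 : (n : ℝ) * (Real.log n + Real.log (Real.log n) - 6) =
            n' * (Real.log n + Real.log (Real.log n) - 5) - n' +
              520 * (Real.log n + Real.log (Real.log n) - 6) := by
          generalize Real.log (n : ℝ) = x
          rw [hn'r]
          ring
        linarith
    _ ≤ n' * (((B : ℝ) - 3) * Real.log 2) := mul_le_mul_of_nonneg_left h9 (by linarith)
    _ = ((B : ℝ) - 3) * n' * Real.log 2 := by ring
    _ ≤ _ := hlog

theorem upper : ∀ᶠ n : ℕ in atTop, Real.log (hh n) ≤ (n : ℝ) * (Real.log n + 2 * Real.log (Real.log n) + 8) := by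
  have ht : Tendsto (fun n : ℕ => Real.log (n : ℝ)) atTop atTop :=
    Real.tendsto_log_atTop.comp tendsto_natCast_atTop_atTop
  filter_upwards [lower, ht.eventually_ge_atTop 7, eventually_ge_atTop 1] with n h1 h2 h3
  have hnr : (1 : ℝ) ≤ n := by exact_mod_cast h3
  have hc := count_real n (hh n) h3 (hh_pos n) (fun N h0 hN => isSum_of_lt hN h0)
  set y := Real.log (hh n) with hy
  have h4 : 0 ≤ Real.log (Real.log n) := Real.log_nonneg (by linarith)
  have hyn : (n : ℝ) ≤ y := by
    refine le_trans ?_ h1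
    nlinarith
  set u := y / n with hu
  have hyu : y = n * u := by rw [hu]; field_simp
  have hu1 : 1 ≤ u := by
    rw [hu, le_div_iff₀ (by linarith)]
    linarith
  have hl2a : Real.log 2 < 0.6931471808 := Real.log_two_lt_d9
  have hl2b : 0.6931471803 < Real.log 2 := Real.log_two_gt_d9
  have h5 : y / Real.log 2 + 1 ≤ 2.5 * y := by
    have : y / Real.log 2 ≤ 1.45 * y := by
      rw [div_le_iff₀ (by linarith)]
      nlinarith
    nlinarith
  have h6 : ((y / Real.log 2 + 1) ^ 2 + n) / n ≤ 7.25 * n * u ^ 2 := by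
    rw [div_le_iff₀ (by linarith)]
    have h7 : (y / Real.log 2 + 1) ^ 2 ≤ (2.5 * y) ^ 2 := by
      apply pow_le_pow_left₀ _ h5
      have : 0 ≤ y / Real.log 2 := div_nonneg (by linarith) (by linarith)
      linarith
    have h8 : (n : ℝ) ≤ y ^ 2 := by nlinarith
    have h9 : 7.25 * n * u ^ 2 * n = 7.25 * y ^ 2 := by rw [hyu]; ring
    rw [h9]
    nlinarith
  have h7 : Real.log (((y / Real.log 2 + 1) ^ 2 + n) / n) ≤ 2 + Real.log n + 2 * Real.log u := by
    refine (Real.log_le_log (by positivity) h6).trans ?_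
    rw [Real.log_mul (by positivity) (by positivity), Real.log_mul (by norm_num) (by positivity), Real.log_pow]
    have h8 : Real.log 7.25 ≤ 2 := by
      rw [Real.log_le_iff_le_exp (by norm_num)]
      have h9 : (2.7182818283 : ℝ) < Real.exp 1 := Real.exp_one_gt_d9
      have h10 : Real.exp 2 = Real.exp 1 * Real.exp 1 := by rw [← Real.exp_add]; norm_num
      rw [h10]
      nlinarith
    push_cast
    linarith
  have h8 : u ≤ 3 + Real.log n + 2 * Real.log u := by
    have h9 : n * u ≤ n * (1 + (2 + Real.log n + 2 * Real.log u)) := by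
      rw [← hyu]
      refine hc.trans ?_
      apply mul_le_mul_of_nonneg_left _ (by linarith)
      linarith
    have := le_of_mul_le_mul_left h9 (by linarith)
    linarith
  have h9 : Real.log u ≤ u / 4 + Real.log 4 - 1 := by
    have h10 := Real.log_le_sub_one_of_pos (x := u / 4) (by linarith)
    rw [Real.log_div (by linarith) (by norm_num)] at h10
    linarith
  have hl4 : Real.log 4 ≤ 1.3863 := by
    have : Real.log 4 = 2 * Real.log 2 := by
      rw [show (4 : ℝ) = 2 ^ 2 by norm_num, Real.log_pow]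
      push_cast
      ring
    linarith
  have h10 : u ≤ 10 * Real.log n := by linarith
  have h11 : Real.log u ≤ Real.log 10 + Real.log (Real.log n) := by
    rw [← Real.log_mul (by norm_num) (by linarith)]
    exact Real.log_le_log (by linarith) h10
  have hl10 : Real.log 10 ≤ 2.5 := by
    rw [Real.log_le_iff_le_exp (by norm_num)]
    have h12 : (2.7182818283 : ℝ) < Real.exp 1 := Real.exp_one_gt_d9
    have h13 : Real.exp 2.5 ^ 2 = Real.exp 1 ^ 5 := by
      rw [← Real.exp_nat_mul, ← Real.exp_nat_mul]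
      norm_num
    have h14 : (100 : ℝ) ≤ Real.exp 1 ^ 5 := by
      calc (100 : ℝ) ≤ 2.7182818283 ^ 5 := by norm_num
        _ ≤ Real.exp 1 ^ 5 := pow_le_pow_left₀ (by norm_num) h12.le 5
    rw [← h13] at h14
    have h15 : 0 < Real.exp 2.5 := Real.exp_pos _
    nlinarith
  rw [hyu]
  apply mul_le_mul_of_nonneg_left _ (by linarith)
  linarith

/-- `log h_n` is asymptotically equal to `n log n` -/
theorem asymp : Tendsto (fun n : ℕ => Real.log (hh n) / (n * Real.log n)) atTop (𝓝 1) := by
  have ht : Tendsto (fun n : ℕ => Real.log (n : ℝ)) atTop atTop :=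
    Real.tendsto_log_atTop.comp tendsto_natCast_atTop_atTop
  have hll : Tendsto (fun n : ℕ => Real.log (Real.log (n : ℝ)) / Real.log n) atTop (𝓝 0) := by
    have h1 : Tendsto (fun x : ℝ => Real.log x / x) atTop (𝓝 0) := by
      have := Real.isLittleO_log_id_atTop.tendsto_div_nhds_zero
      simpa using this
    exact h1.comp ht
  have hinv : Tendsto (fun n : ℕ => (Real.log (n : ℝ))⁻¹) atTop (𝓝 0) := tendsto_inv_atTop_zero.comp ht
  have hlow : Tendsto (fun n : ℕ => 1 + Real.log (Real.log (n : ℝ)) / Real.log n - 6 * (Real.log (n : ℝ))⁻¹)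
      atTop (𝓝 1) := by
    have := (tendsto_const_nhds (x := (1 : ℝ))).add hll |>.sub (hinv.const_mul 6)
    simpa using this
  have hupp : Tendsto (fun n : ℕ => 1 + 2 * (Real.log (Real.log (n : ℝ)) / Real.log n) + 8 * (Real.log (n : ℝ))⁻¹)
      atTop (𝓝 1) := by
    have := (tendsto_const_nhds (x := (1 : ℝ))).add (hll.const_mul 2) |>.add (hinv.const_mul 8)
    simpa using this
  refine tendsto_of_tendsto_of_tendsto_of_le_of_le' hlow hupp ?_ ?_
  · filter_upwards [lower, ht.eventually_ge_atTop 1, eventually_ge_atTop 1] with n h1 h2 h3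
    have hnr : (1 : ℝ) ≤ n := by exact_mod_cast h3
    rw [le_div_iff₀ (by positivity)]
    refine le_trans (le_of_eq ?_) h1
    field_simp
  · filter_upwards [upper, ht.eventually_ge_atTop 1, eventually_ge_atTop 1] with n h1 h2 h3
    have hnr : (1 : ℝ) ≤ n := by exact_mod_cast h3
    rw [div_le_iff₀ (by positivity)]
    refine h1.trans (le_of_eq ?_)
    field_simp

end Pool.Agent.Q54.TS
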