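import Pool.Agent.Y940.CT.Sharp

/-!
# Sets with a bounded representation function and a prescribed exponent of growth
-/

set_option autoImplicit false

namespace Pool.Agent.Q54.ThinSet

open Filter Finset MeasureTheory ProbabilityTheory Pool.Agent.Y940.RS Pool.Agent.Y940.CT

/-- `∑_{n ≤ M} n ^ (p - 1) ≤ M ^ p / p` for `0 < p ≤ 1` -/
theorem sum_rpow_le {p : ℝ} (hp : 0 < p) (hp1 : p ≤ 1) (M : ℕ) :
    ∑ n ∈ Icc 1 M, (n : ℝ) ^ (p - 1) ≤ (M : ℝ) ^ p / p := by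
  induction M with
  | zero => simp [Real.zero_rpow hp.ne']
  | succ M ih =>
    rw [Finset.sum_Icc_succ_top (by omega)]
    have h0 : (0 : ℝ) < (M : ℝ) + 1 := by positivity
    have h1 : (M : ℝ) ^ p ≤ ((M : ℝ) + 1) ^ p - p * ((M : ℝ) + 1) ^ (p - 1) := by
      have h2 : (M : ℝ) = ((M : ℝ) + 1) * (1 + -(1 / ((M : ℝ) + 1))) := by field_simp; ring
      have h3 : (0 : ℝ) ≤ 1 + -(1 / ((M : ℝ) + 1)) := by
        have : 1 / ((M : ℝ) + 1) ≤ 1 := by
          rw [div_le_one h0]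
          linarith [Nat.cast_nonneg (α := ℝ) M]
        linarith
      have h4 := _root_.rpow_one_add_le_one_add_mul_self (s := -(1 / ((M : ℝ) + 1)))
        (by linarith) hp.le hp1
      calc (M : ℝ) ^ p = (((M : ℝ) + 1) * (1 + -(1 / ((M : ℝ) + 1)))) ^ p := by rw [← h2]
        _ = ((M : ℝ) + 1) ^ p * (1 + -(1 / ((M : ℝ) + 1))) ^ p := Real.mul_rpow h0.le h3
        _ ≤ ((M : ℝ) + 1) ^ p * (1 + p * -(1 / ((M : ℝ) + 1))) :=
            mul_le_mul_of_nonneg_left h4 (by positivity)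
        _ = ((M : ℝ) + 1) ^ p - p * (((M : ℝ) + 1) ^ p / ((M : ℝ) + 1)) := by ring
        _ = ((M : ℝ) + 1) ^ p - p * ((M : ℝ) + 1) ^ (p - 1) := by
            rw [Real.rpow_sub_one h0.ne']
    push_cast
    have h5 : (((M : ℝ) + 1) ^ p) / p - ((M : ℝ) + 1) ^ (p - 1) =
        (((M : ℝ) + 1) ^ p - p * ((M : ℝ) + 1) ^ (p - 1)) / p := by field_simp
    have h6 := div_le_div_of_nonneg_right h1 hp.le
    linarith

theorem ae_count_le {Ω : Type*} [MeasurableSpace Ω] {μ : Measure Ω} [IsProbabilityMeasure μ]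
    {E : ℕ → Set Ω} (hE : ∀ k, KW μ E k) {η : ℝ} (hη : 0 < η) (hη2 : η < 1 / 2)
    (hp : ∀ n, μ.real (E n) = pw η n) {δ : ℝ} (hδ : 0 < δ) :
    ∀ᵐ ω ∂μ, ∀ᶠ N : ℕ in atTop, count (rset E ω) N ≤ (N : ℝ) ^ (1 / 2 - η + δ) := by
  classical
  set b : ℝ := 1 / 2 - η with hb
  have hb0 : 0 < b := by linarith
  have hb1 : b ≤ 1 := by linarith
  set ε : ℝ := δ / 2 with hε
  have hε0 : 0 < ε := by positivity
  set m : ℕ → ℝ := fun N => ∑ n ∈ Icc 1 N, pw η n with hm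
  set S : ℕ → Set Ω := fun j =>
    {ω | ((2 : ℝ) ^ ε) ^ j * m (2 ^ j) ≤
      (cnt E (Icc 1 (2 ^ j)) (fun n => ({n} : Finset ℕ)) ω : ℝ)} with hS
  have hmj1 : ∀ j, 1 ≤ m (2 ^ j) := by
    intro j
    have h1 := mean_ge hη (Nat.one_le_two_pow (n := j))
    refine le_trans ?_ h1
    exact Real.one_le_rpow (by exact_mod_cast Nat.one_le_two_pow) hb0.le
  have hmj2 : ∀ j, m (2 ^ j) ≤ ((2 : ℝ) ^ b) ^ j / b := by
    intro j
    have h1 := sum_rpow_le hb0 hb1 (2 ^ j : ℕ)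
    have h2 : m (2 ^ j) = ∑ n ∈ Icc 1 (2 ^ j : ℕ), ((n : ℕ) : ℝ) ^ (b - 1) := by
      rw [hm]
      refine sum_congr rfl fun n _ => ?_
      unfold pw
      congr 1
      rw [hb]
      ring
    rw [h2]
    refine h1.trans (le_of_eq ?_)
    congr 1
    push_cast
    rw [← Real.rpow_natCast, ← Real.rpow_natCast, ← Real.rpow_mul (by norm_num),
      ← Real.rpow_mul (by norm_num)]
    congr 1
    ring
  have hr1 : 1 < (2 : ℝ) ^ ε := Real.one_lt_rpow (by norm_num) hε0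
  have hle : ∀ j, μ.real (S j) ≤ (((2 : ℝ) ^ ε)⁻¹) ^ j := by
    intro j
    have hmpos : 0 < m (2 ^ j) := lt_of_lt_of_le one_pos (hmj1 j)
    have hint : Integrable (fun ω =>
        (cnt E (Icc 1 (2 ^ j)) (fun n => ({n} : Finset ℕ)) ω : ℝ)) μ := by
      simp_rw [cnt_eq]
      exact integrable_finsetSum _ fun j _ => integrable_ind (hE 1).1 _
    have hmean : ∫ ω, (cnt E (Icc 1 (2 ^ j)) (fun n => ({n} : Finset ℕ)) ω : ℝ) ∂μ =
        m (2 ^ j) := by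
      simp_rw [cnt_eq]
      rw [integral_finsetSum _ fun j _ => integrable_ind (hE 1).1 _, hm]
      refine sum_congr rfl fun n _ => ?_
      rw [integral_ind (hE 1).1, (hE 1).2 _ (by simp), prod_singleton, hp]
    have h1 := mul_meas_ge_le_integral_of_nonneg (μ := μ)
      (f := fun ω => (cnt E (Icc 1 (2 ^ j)) (fun n => ({n} : Finset ℕ)) ω : ℝ))
      (Eventually.of_forall fun ω => by positivity) hint (((2 : ℝ) ^ ε) ^ j * m (2 ^ j))
    rw [hmean] at h1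
    have h2 : ((2 : ℝ) ^ ε) ^ j * μ.real (S j) ≤ 1 := by
      have h3 : (((2 : ℝ) ^ ε) ^ j * μ.real (S j)) * m (2 ^ j) ≤ 1 * m (2 ^ j) := by
        rw [one_mul]
        refine le_trans (le_of_eq ?_) h1
        ring
      exact le_of_mul_le_mul_right h3 hmpos
    rw [inv_pow, ← one_div, le_div_iff₀ (by positivity)]
    linarith
  have hfin : ∑' j, μ (S j) ≠ ⊤ := by
    have h1 : Summable fun j : ℕ => (((2 : ℝ) ^ ε)⁻¹) ^ j :=
      summable_geometric_of_lt_one (by positivity) (inv_lt_one_of_one_lt₀ hr1)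
    refine ne_top_of_le_ne_top h1.tsum_ofReal_ne_top (ENNReal.tsum_le_tsum fun j => ?_)
    rw [ENNReal.le_ofReal_iff_toReal_le (measure_ne_top _ _) (by positivity)]
    exact hle j
  filter_upwards [ae_eventually_notMem hfin] with ω hω
  obtain ⟨j₀, hj₀⟩ := eventually_atTop.1 hω
  have hbig : ∀ᶠ N : ℕ in atTop, 2 ^ (b + ε) / b ≤ (N : ℝ) ^ ε :=
    ((tendsto_rpow_atTop hε0).comp tendsto_natCast_atTop_atTop).eventually_ge_atTop _
  filter_upwards [eventually_ge_atTop (2 ^ j₀), hbig, eventually_ge_atTop 1] with N hN hbN hN1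
  have hN0 : (0 : ℝ) < N := by exact_mod_cast hN1
  set j : ℕ := Nat.log 2 N + 1 with hj
  have h1 : 2 ^ (Nat.log 2 N) ≤ N := Nat.pow_log_le_self 2 (by omega)
  have h2 : N < 2 ^ j := Nat.lt_pow_succ_log_self (by norm_num) N
  have h3 : j₀ ≤ j := by
    by_contra h
    push Not at h
    have : 2 ^ j ≤ 2 ^ j₀ := Nat.pow_le_pow_right (by norm_num) h.le
    omega
  have h4 := hj₀ j h3
  have h5 : (cnt E (Icc 1 (2 ^ j)) (fun n => ({n} : Finset ℕ)) ω : ℝ) <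
      ((2 : ℝ) ^ ε) ^ j * m (2 ^ j) := by
    by_contra h
    push Not at h
    exact h4 h
  have h6 : (seg (rset E ω) N).card ≤ cnt E (Icc 1 (2 ^ j)) (fun n => ({n} : Finset ℕ)) ω := by
    unfold cnt seg
    refine card_le_card fun n hn => ?_
    rw [mem_filter, mem_Icc] at hn ⊢
    refine ⟨⟨hn.1.1, by omega⟩, ?_⟩
    intro v hv
    rw [mem_singleton] at hv
    subst hv
    exact hn.2
  have h7 : count (rset E ω) N ≤
      (cnt E (Icc 1 (2 ^ j)) (fun n => ({n} : Finset ℕ)) ω : ℝ) := by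
    rw [count_eq]
    exact_mod_cast h6
  have h8 : ((2 : ℝ) ^ j) ≤ 2 * N := by
    have : (2 : ℝ) ^ Nat.log 2 N ≤ N := by exact_mod_cast h1
    rw [hj, pow_succ]
    linarith
  have h9 : ((2 : ℝ) ^ ε) ^ j * (((2 : ℝ) ^ b) ^ j / b) ≤ (2 * (N : ℝ)) ^ (b + ε) / b := by
    have h10 : ((2 : ℝ) ^ ε) ^ j * ((2 : ℝ) ^ b) ^ j = ((2 : ℝ) ^ j) ^ (b + ε) := by
      rw [← mul_pow, ← Real.rpow_add (by norm_num), ← Real.rpow_natCast, ← Real.rpow_natCast,
        ← Real.rpow_mul (by norm_num), ← Real.rpow_mul (by norm_num)]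
      congr 1
      ring
    rw [← mul_div_assoc, h10]
    exact div_le_div_of_nonneg_right
      (Real.rpow_le_rpow (by positivity) h8 (by positivity)) hb0.le
  calc count (rset E ω) N ≤ ((2 : ℝ) ^ ε) ^ j * m (2 ^ j) := h7.trans h5.le
    _ ≤ ((2 : ℝ) ^ ε) ^ j * (((2 : ℝ) ^ b) ^ j / b) :=
        mul_le_mul_of_nonneg_left (hmj2 j) (by positivity)
    _ ≤ (2 * (N : ℝ)) ^ (b + ε) / b := h9
    _ = 2 ^ (b + ε) / b * (N : ℝ) ^ (b + ε) := by
        rw [Real.mul_rpow (by norm_num) hN0.le]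
        ring
    _ ≤ (N : ℝ) ^ ε * (N : ℝ) ^ (b + ε) :=
        mul_le_mul_of_nonneg_right hbN (by positivity)
    _ = (N : ℝ) ^ (b + δ) := by
        rw [← Real.rpow_add hN0]
        congr 1
        rw [hε]
        ring

/-- **Sets with a bounded representation function and `N ^ (κ + o(1))` elements up to `N`.** -/
theorem exists_exact {κ : ℝ} (h0 : 0 < κ) (h1 : κ < 1 / 2) :
    ∃ (A : Set ℕ) (R : ℕ), (∀ n, rep A n ≤ R) ∧
      (∀ᶠ N : ℕ in atTop, (N : ℝ) ^ κ ≤ 4 * ((A ∩ Set.Icc 1 N).ncard : ℝ)) ∧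
      ∀ δ : ℝ, 0 < δ → ∀ᶠ N : ℕ in atTop, ((A ∩ Set.Icc 1 N).ncard : ℝ) ≤ (N : ℝ) ^ (κ + δ) := by
  set η : ℝ := 1 / 2 - κ with hη
  have hη0 : 0 < η := by linarith
  have hη1 : η < 1 / 2 := by linarith
  obtain ⟨Ω, _, μ, _, E, hm, hi, hp⟩ := exists_random (pw η) (pw_nonneg η) (pw_le_one hη0)
  have h2 := ae_bounded (fun k => KW.of_indep hm hi k) hη0 hp
  have h3 := ae_count_ge (fun k => KW.of_indep hm hi k) hη0 hη1 hp
  have h4 : ∀ᵐ ω ∂μ, ∀ k : ℕ, ∀ᶠ N : ℕ in atTop,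
      count (rset E ω) N ≤ (N : ℝ) ^ (1 / 2 - η + 1 / ((k : ℝ) + 1)) := by
    rw [ae_all_iff]
    intro k
    exact ae_count_le (fun k => KW.of_indep hm hi k) hη0 hη1 hp (by positivity)
  obtain ⟨ω, ⟨R, h5⟩, h6, h7⟩ := (h2.and (h3.and h4)).exists
  have e : 1 / 2 - η = κ := by rw [hη]; ring
  rw [e] at h6
  refine ⟨rset E ω, R, h5, h6, fun δ hδ => ?_⟩
  obtain ⟨k, hk⟩ := exists_nat_one_div_lt hδ
  filter_upwards [h7 k, eventually_ge_atTop 1] with N h8 h9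
  rw [e] at h8
  exact h8.trans (Real.rpow_le_rpow_of_exponent_le (by exact_mod_cast h9) (by linarith))

end Pool.Agent.Q54.ThinSet
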